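import Pool.Agent.W534.PoleDefs
import Pool.Agent.H914R2.HodgeDefs

/-!
# Powers of a variety, self-intersection numbers of divisors and orders of poles
-/

open CategoryTheory AlgebraicGeometry

universe u v

namespace Pool.Agent.Y163

open Pool.Agent.H914 Pool.Agent.W534 VarClass Obj WeilCohomology

variable {k : Type u} [Field k] {𝒱 : VarClass k} {ops : CycleOps 𝒱}

/-- The power `X × (X × ⋯ × X)` with `n + 1` factors. -/
noncomputable def pw (X : 𝒱.Obj) : ℕ → 𝒱.Obj
  | 0 => X
  | n + 1 => X.prod (pw X n)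

/-- The square of the power of `X` with `n + 1` factors. -/
noncomputable def sq (X : 𝒱.Obj) (n : ℕ) : 𝒱.Obj := (pw X n).prod (pw X n)

/-- The self-intersection number `D ^ dim X` does not vanish. -/
def Big (ops : CycleOps 𝒱) (X : 𝒱.Obj) (D : X.Cycles) : Prop :=
  X.V.degCycle (divPow ops D X.dim X.V.fundCycle) ≠ 0

/-- The natural number `r` is the order of the pole at `j` of the zeta function of `X` over all
sufficiently large finite fields. -/
def PoleOrderIs {W : WeilCohomology.{u, v} ops} {p : ℕ} (Φ : FrobSystem W p) (σ : W.K →+* ℂ)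
    (X : 𝒱.Obj) (j r : ℕ) : Prop :=
  ∃ t, 0 < t ∧ ∀ s, 0 < s → t ∣ s →
    meromorphicOrderAt (zetaFn Φ σ X s) (j : ℂ) = ((-(r : ℤ) : ℤ) : WithTop ℤ)

end Pool.Agent.Y163
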