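import Pool.Agent.Y163.DuoB

/-!
# Algebras of operators containing the image of a finite group
-/

set_option linter.unusedVariables false
set_option linter.unusedSectionVars false

namespace Pool.Agent.Y163

open Module Finset

variable {K : Type*} [Field K] {V : Type*} [AddCommGroup V] [Module K V]

/-- The commutant of a representation. -/
def comm {Γ : Type*} [Monoid Γ] (ρ : Γ →* End K V) : Submodule K (End K V) where
  carrier := {g | ∀ σ, g * ρ σ = ρ σ * g}
  zero_mem' := fun σ => by rw [zero_mul, mul_zero]
  add_mem' := fun {a b} ha hb σ => by rw [add_mul, mul_add, ha σ, hb σ]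
  smul_mem' := fun c {a} ha σ => by rw [smul_mul_assoc, mul_smul_comm, ha σ]

variable [IsAlgClosed K] [CharZero K] [Module.Finite K V]

lemma nu_le (B : Subalgebra K (End K V)) : nu B ≤ finrank K B :=
  LinearMap.finrank_range_le _

lemma finrank_le_nu (B₀ B : Subalgebra K (End K V)) (h : B₀ ≤ B) (hrad : rad B₀ = ⊥) :
    finrank K B₀ ≤ nu B := by
  let ι : Subalgebra.toSubmodule B₀ →ₗ[K] Subalgebra.toSubmodule B :=
    Submodule.inclusion h
  have h1 : bt (Subalgebra.toSubmodule B₀) (Subalgebra.toSubmodule B₀) 1 1 =
      ι.dualMap ∘ₗ bt (Subalgebra.toSubmodule B) (Subalgebra.toSubmodule B) 1 1 ∘ₗ ι := rfl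
  have hinj : Function.Injective
      (bt (Subalgebra.toSubmodule B₀) (Subalgebra.toSubmodule B₀) 1 1) := by
    rw [← LinearMap.ker_eq_bot, LinearMap.ker_eq_bot']
    intro x hx
    have h2 : (x : End K V) ∈ rad B₀ := by
      refine ⟨x.2, fun y hy => ?_⟩
      have h3 := congrArg (fun F => F ⟨y, hy⟩) hx
      rw [LinearMap.trace_mul_comm]
      exact h3
    rw [hrad] at h2
    exact Subtype.ext h2
  have h2 := LinearMap.finrank_range_of_inj hinj
  have h3 : finrank K B₀ = finrank K (LinearMap.range
      (bt (Subalgebra.toSubmodule B₀) (Subalgebra.toSubmodule B₀) 1 1)) := h2.symm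
  rw [h3, h1]
  exact finrank_range_comp_comp_le _ _ _

/-- The inequality between the dimensions of a semisimple algebra and of its commutant. -/
theorem sq_le_of_semisimple (B₀ : Subalgebra K (End K V)) [hss : IsSemisimpleRing B₀]
    (C : Submodule K (End K V)) (hC : ∀ g : End K V, (∀ a ∈ B₀, g * a = a * g) → g ∈ C) :
    finrank K V ^ 2 ≤ finrank K B₀ * finrank K C := by
  have hfB : Module.Finite K B₀ := inferInstance
  let B₁ : Subalgebra K (End K B₀) :=
    { carrier := {g | ∀ a x : B₀, g (a * x) = a * g x}
      mul_mem' := fun {f g} hf hg a x => by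
        rw [Module.End.mul_apply, hg, hf, Module.End.mul_apply]
      add_mem' := fun {f g} hf hg a x => by
        rw [LinearMap.add_apply, LinearMap.add_apply, hf, hg, mul_add]
      algebraMap_mem' := fun r a x => by
        simp only [Module.algebraMap_end_apply, mul_smul_comm] }
  let B₂ : Subalgebra K (End K V) :=
    { carrier := {g | ∀ a ∈ B₀, g * a = a * g}
      mul_mem' := fun {f g} hf hg a ha => by
        rw [mul_assoc, hg a ha, ← mul_assoc, hf a ha, mul_assoc]
      add_mem' := fun {f g} hf hg a ha => by
        rw [add_mul, mul_add, hf a ha, hg a ha]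
      algebraMap_mem' := fun r a ha => Algebra.commutes r a }
  let P : Submodule K (B₀ →ₗ[K] V) :=
    { carrier := {x | ∀ a b : B₀, x (a * b) = (a : End K V) (x b)}
      zero_mem' := fun a b => by simp
      add_mem' := fun {x y} hx hy a b => by
        rw [LinearMap.add_apply, LinearMap.add_apply, hx, hy, map_add]
      smul_mem' := fun c {x} hx a b => by
        rw [LinearMap.smul_apply, LinearMap.smul_apply, hx, map_smul] }
  let Q : Submodule K (V →ₗ[K] B₀) :=
    { carrier := {y | ∀ (a : B₀) (v : V), y ((a : End K V) v) = a * y v}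
      zero_mem' := fun a b => by simp
      add_mem' := fun {x y} hx hy a b => by
        rw [LinearMap.add_apply, LinearMap.add_apply, hx, hy, mul_add]
      smul_mem' := fun c {x} hx a b => by
        rw [LinearMap.smul_apply, LinearMap.smul_apply, hx, mul_smul_comm] }
  have D : Duo B₁ B₂ P Q :=
    { yx := fun x hx y hy a b => by
        rw [LinearMap.comp_apply, LinearMap.comp_apply, hx, hy]
      xy := fun x hx y hy a ha => by
        apply LinearMap.ext
        intro v
        have h1 := hy ⟨a, ha⟩ v
        change x (y (a v)) = a (x (y v))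
        rw [h1, hx]
      hx := fun h hh x hx a b => by
        have h1 := congrArg (fun f => f (x b)) (hh a a.2)
        simp only [Module.End.mul_apply] at h1
        rw [LinearMap.comp_apply, LinearMap.comp_apply, hx, h1]
      xf := fun f hf x hx a b => by
        rw [LinearMap.comp_apply, LinearMap.comp_apply, hf, hx]
      fy := fun f hf y hy a v => by
        rw [LinearMap.comp_apply, LinearMap.comp_apply, hy, hf]
      yh := fun h hh y hy a v => by
        have h1 := congrArg (fun f => f v) (hh a a.2)
        simp only [Module.End.mul_apply] at h1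
        rw [LinearMap.comp_apply, LinearMap.comp_apply, h1, hy] }
  have hmain := mu_sq_le D
  -- the first algebra
  have hB1 : nu B₁ ≤ finrank K B₀ := by
    refine (nu_le B₁).trans ?_
    let ev : B₁ →ₗ[K] B₀ :=
      { toFun := fun g => (g : End K B₀) 1
        map_add' := fun _ _ => rfl
        map_smul' := fun _ _ => rfl }
    refine LinearMap.finrank_le_finrank_of_injective (f := ev) ?_
    rintro ⟨g, hg⟩ ⟨g', hg'⟩ h0
    apply Subtype.ext
    apply LinearMap.ext
    intro x
    have h1 : g 1 = g' 1 := h0
    have h2 := hg x 1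
    have h3 := hg' x 1
    rw [mul_one] at h2 h3
    change g x = g' x
    rw [h2, h3, h1]
  have hB2 : nu B₂ ≤ finrank K C := by
    refine (nu_le B₂).trans ?_
    exact Submodule.finrank_mono (s := Subalgebra.toSubmodule B₂) (t := C) (fun g hg => hC g hg)
  -- the homomorphisms
  have hP : finrank K V ≤ finrank K P := by
    let F : V →ₗ[K] P :=
      { toFun := fun v => ⟨{ toFun := fun a => (a : End K V) v
                             map_add' := fun _ _ => rfl
                             map_smul' := fun _ _ => rfl }, fun a b => rfl⟩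
        map_add' := fun v w => Subtype.ext (LinearMap.ext fun a => map_add (a : End K V) v w)
        map_smul' := fun c v => Subtype.ext (LinearMap.ext fun a => map_smul (a : End K V) c v) }
    refine LinearMap.finrank_le_finrank_of_injective (f := F) ?_
    intro v w hvw
    have h1 := congrArg (fun x : P => (x : B₀ →ₗ[K] V) 1) hvw
    exact h1
  have hinj : Function.Injective (bt P Q 1 1) := by
    rw [← LinearMap.ker_eq_bot, LinearMap.ker_eq_bot']
    rintro ⟨x, hx⟩ h0
    by_contra hne
    have hx0 : x ≠ 0 := fun h => hne (Subtype.ext h)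
    let x' : B₀ →ₗ[B₀] V :=
      { toFun := x
        map_add' := map_add x
        map_smul' := fun a b => hx a b }
    obtain ⟨s, hs⟩ := IsSemisimpleModule.lifting_property (R := B₀) (M := B₀)
      (N := LinearMap.range x') (P := LinearMap.range x') x'.rangeRestrict
      x'.surjective_rangeRestrict LinearMap.id
    obtain ⟨h, hh⟩ := IsSemisimpleModule.extension_property (R := B₀) (M := V)
      (N := LinearMap.range x') (P := LinearMap.range x') (LinearMap.range x').subtype
      (Submodule.subtype_injective _) LinearMap.id
    let y' : V →ₗ[B₀] B₀ := s ∘ₗ h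
    have hK : ∀ (c : K) (v : V), y' (c • v) = c • y' v := by
      intro c v
      have h1 : c • v = (algebraMap K B₀ c) • v := by
        change c • v = (algebraMap K (End K V) c) v
        rw [Module.algebraMap_end_apply]
      rw [h1, map_smul, smul_eq_mul, Algebra.smul_def]
    let y : V →ₗ[K] B₀ := { toFun := y', map_add' := map_add y', map_smul' := hK }
    have hy : y ∈ Q := fun a v => map_smul y' a v
    have h1 := congrArg (fun F => F ⟨y, hy⟩) h0
    have h2 : LinearMap.trace K B₀ (y ∘ₗ x) = 0 := h1
    have hhx : ∀ a, h (x' a) = x'.rangeRestrict a := by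
      intro a
      have := congrArg (fun F => F (x'.rangeRestrict a)) hh
      exact this
    have hxs : ∀ n : LinearMap.range x', x' (s n) = n := by
      intro n
      have := congrArg (fun F => ((F n : LinearMap.range x') : V)) hs
      exact this
    have hyx : ∀ a, (y ∘ₗ x) a = s (x'.rangeRestrict a) := by
      intro a
      change s (h (x' a)) = _
      rw [hhx]
    have hidem : (y ∘ₗ x) * (y ∘ₗ x) = y ∘ₗ x := by
      apply LinearMap.ext
      intro a
      rw [Module.End.mul_apply, hyx (((y ∘ₗ x) a)), hyx a]
      congr 1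
      apply Subtype.ext
      exact hxs _
    have hne' : y ∘ₗ x ≠ 0 := by
      intro h3
      apply hx0
      apply LinearMap.ext
      intro a
      have h4 := congrArg (fun F => x' (F a)) h3
      simp only [LinearMap.zero_apply, map_zero] at h4
      rw [hyx, hxs] at h4
      exact h4
    rw [trace_idem hidem] at h2
    exact rank_idem_ne hne' h2
  have hmu : finrank K V ≤ mu P Q 1 1 := by
    rw [mu, LinearMap.finrank_range_of_inj hinj]
    exact hP
  calc finrank K V ^ 2 ≤ mu P Q 1 1 ^ 2 := Nat.pow_le_pow_left hmu 2
    _ ≤ nu B₁ * nu B₂ := hmain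
    _ ≤ finrank K B₀ * finrank K C := Nat.mul_le_mul hB1 hB2

/-- An algebra containing the image of a finite group is large if the commutant of the group
is small. -/
theorem sq_le_nu_mul {Γ : Type*} [Group Γ] [Finite Γ] (ρ : Γ →* End K V)
    (B : Subalgebra K (End K V)) (hB : ∀ σ, ρ σ ∈ B) :
    finrank K V ^ 2 ≤ nu B * finrank K (comm ρ) := by
  let f : MonoidAlgebra K Γ →ₐ[K] End K V := MonoidAlgebra.lift K (End K V) Γ ρ
  have hfσ : ∀ σ, f (MonoidAlgebra.of K Γ σ) = ρ σ := fun σ => MonoidAlgebra.lift_of ρ σ
  have hNZ : NeZero (Nat.card Γ : K) := ⟨Nat.cast_ne_zero.2 Nat.card_pos.ne'⟩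
  have hss0 : IsSemisimpleRing (MonoidAlgebra K Γ) := inferInstance
  have hss : IsSemisimpleRing f.range :=
    RingHom.isSemisimpleRing_of_surjective (f.rangeRestrict : MonoidAlgebra K Γ →+* f.range)
      f.rangeRestrict_surjective
  have hle : f.range ≤ B := by
    rintro _ ⟨a, rfl⟩
    induction a using MonoidAlgebra.induction_on with
    | of g => exact (hfσ g) ▸ hB g
    | add a b ha hb =>
      change f (a + b) ∈ B
      rw [map_add]; exact B.add_mem ha hb
    | smul r a ha =>
      change f (r • a) ∈ B
      rw [map_smul]; exact B.smul_mem ha r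
  have hrad : rad f.range = ⊥ := by
    rw [eq_bot_iff]
    intro x hx
    have h1 := (mem_rad_iff f.range ⟨x, hx.1⟩).1 hx
    rw [IsSemisimpleRing.jacobson_eq_bot] at h1
    exact congrArg Subtype.val h1
  have h1 := sq_le_of_semisimple f.range (comm ρ) (fun g hg σ => by
    rw [← hfσ]
    exact hg _ ⟨_, rfl⟩)
  exact h1.trans (Nat.mul_le_mul_right _ (finrank_le_nu f.range B hle hrad))

end Pool.Agent.Y163
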