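import Pool.Agent.Y163.Wed

/-!
# Pairs of vector spaces with spaces of operators between them
-/

namespace Pool.Agent.Y163

open Module

section Lin

variable {K : Type*} [Field K]

/-- Dual families for a pairing of given rank. -/
lemma exists_dual_family {P Q : Type*} [AddCommGroup P] [Module K P] [AddCommGroup Q] [Module K Q]
    [Module.Finite K Q] [Module.Finite K P] (β : P →ₗ[K] Module.Dual K Q) (r : K) :
    ∃ (x : Fin (finrank K (LinearMap.range β)) → P) (y : Fin (finrank K (LinearMap.range β)) → Q),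
      ∀ a b, β (x a) (y b) = if a = b then r else 0 := by
  have hfree : Module.Free K (LinearMap.range β) :=
    @Module.Free.of_divisionRing K (LinearMap.range β) _ inferInstance _
  set bs := Module.finBasis K (LinearMap.range β) with hbs
  have hx : ∀ a, ∃ x : P, β x = (bs a : Module.Dual K Q) := fun a => (bs a).2
  choose x hx using hx
  have hy : ∀ b, ∃ y : Q, ∀ φ : LinearMap.range β,
      (φ : Module.Dual K Q) y = r * bs.coord b φ := by
    intro b
    obtain ⟨F, hF⟩ := Subspace.dualRestrict_surjective (W := LinearMap.range β) (r • bs.coord b)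
    obtain ⟨y, hy⟩ := (Module.evalEquiv K Q).surjective F
    refine ⟨y, fun φ => ?_⟩
    have h1 := congrArg (fun G => G φ) hF
    simp only [Submodule.dualRestrict_apply, LinearMap.smul_apply, smul_eq_mul] at h1
    rw [← h1, ← hy, Module.evalEquiv_apply, Module.Dual.eval_apply]
  choose y hy using hy
  refine ⟨x, y, fun a b => ?_⟩
  rw [hx, hy, Basis.coord_apply, Basis.repr_self, Finsupp.single_apply]
  split_ifs <;> simp

/-- A pairing with dual families of `n` elements has rank at least `n`. -/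
lemma le_rank_of_dual {P Q : Type*} [AddCommGroup P] [Module K P] [AddCommGroup Q] [Module K Q]
    [Module.Finite K Q] {ι : Type*} [Fintype ι] [DecidableEq ι] (β : P →ₗ[K] Module.Dual K Q)
    (x : ι → P) (y : ι → Q) (r : ι → K) (hr : ∀ a, r a ≠ 0)
    (h : ∀ a b, β (x a) (y b) = if a = b then r a else 0) :
    Fintype.card ι ≤ finrank K (LinearMap.range β) := by
  have h1 : LinearIndependent K (fun a => β (x a)) := by
    rw [Fintype.linearIndependent_iff]
    intro g hg b
    have h2 := congrArg (fun G => G (y b)) hg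
    simp only [LinearMap.sum_apply, LinearMap.smul_apply, LinearMap.zero_apply, h, smul_eq_mul,
      mul_ite, mul_zero, Finset.sum_ite_eq', Finset.mem_univ, if_true] at h2
    exact (mul_eq_zero.1 h2).resolve_right (hr b)
  rw [← finrank_span_eq_card h1]
  apply Submodule.finrank_mono
  rw [Submodule.span_le]
  rintro _ ⟨a, rfl⟩
  exact ⟨_, rfl⟩

lemma finrank_range_sum_le {P Q : Type*} [AddCommGroup P] [Module K P] [AddCommGroup Q]
    [Module K Q] [Module.Finite K Q] {ι : Type*} (s : Finset ι) (β : ι → P →ₗ[K] Q) :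
    finrank K (LinearMap.range (∑ i ∈ s, β i)) ≤ ∑ i ∈ s, finrank K (LinearMap.range (β i)) := by
  classical
  induction s using Finset.induction_on with
  | empty => rw [Finset.sum_empty, Finset.sum_empty, LinearMap.range_zero, finrank_bot]
  | insert a s ha ih =>
    rw [Finset.sum_insert ha, Finset.sum_insert ha]
    have h1 : LinearMap.range (β a + ∑ i ∈ s, β i) ≤
        LinearMap.range (β a) ⊔ LinearMap.range (∑ i ∈ s, β i) := by
      rintro _ ⟨x, rfl⟩
      rw [LinearMap.add_apply]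
      exact Submodule.add_mem_sup ⟨x, rfl⟩ ⟨x, rfl⟩
    exact (Submodule.finrank_mono h1).trans ((Submodule.finrank_add_le_finrank_add_finrank _ _).trans
      (Nat.add_le_add_left ih _))

lemma finrank_range_comp_comp_le {A B C D : Type*} [AddCommGroup A] [Module K A] [AddCommGroup B]
    [Module K B] [AddCommGroup C] [Module K C] [AddCommGroup D] [Module K D] [Module.Finite K C]
    (f : A →ₗ[K] B) (g : B →ₗ[K] C) (h : C →ₗ[K] D) :
    finrank K (LinearMap.range (h ∘ₗ g ∘ₗ f)) ≤ finrank K (LinearMap.range g) := by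
  have h1 : LinearMap.range (h ∘ₗ g ∘ₗ f) ≤ (LinearMap.range g).map h := by
    rintro _ ⟨x, rfl⟩
    exact ⟨g (f x), ⟨_, rfl⟩, rfl⟩
  exact (Submodule.finrank_mono h1).trans (Submodule.finrank_map_le _ _)

end Lin

variable {K : Type*} [Field K] {V₁ : Type*} [AddCommGroup V₁] [Module K V₁] {V₂ : Type*}
  [AddCommGroup V₂] [Module K V₂]

/-- The pairing `x ↦ (y ↦ tr (y h x f))`. -/
noncomputable def bt (P : Submodule K (V₁ →ₗ[K] V₂)) (Q : Submodule K (V₂ →ₗ[K] V₁))
    (h : End K V₂) (f : End K V₁) : P →ₗ[K] Module.Dual K Q where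
  toFun x :=
    { toFun := fun y => LinearMap.trace K V₁ ((y : V₂ →ₗ[K] V₁) ∘ₗ h ∘ₗ (x : V₁ →ₗ[K] V₂) ∘ₗ f)
      map_add' := fun y z => by
        rw [Submodule.coe_add, LinearMap.add_comp, map_add]
      map_smul' := fun c y => by
        rw [Submodule.coe_smul, LinearMap.smul_comp, map_smul, RingHom.id_apply] }
  map_add' x x' := by
    apply LinearMap.ext
    intro y
    simp only [LinearMap.coe_mk, AddHom.coe_mk, LinearMap.add_apply, Submodule.coe_add,
      LinearMap.add_comp, LinearMap.comp_add, map_add]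
  map_smul' c x := by
    apply LinearMap.ext
    intro y
    simp only [LinearMap.coe_mk, AddHom.coe_mk, LinearMap.smul_apply, Submodule.coe_smul,
      LinearMap.smul_comp, LinearMap.comp_smul, map_smul, RingHom.id_apply]

lemma bt_apply (P : Submodule K (V₁ →ₗ[K] V₂)) (Q : Submodule K (V₂ →ₗ[K] V₁))
    (h : End K V₂) (f : End K V₁) (x : P) (y : Q) :
    bt P Q h f x y =
      LinearMap.trace K V₁ ((y : V₂ →ₗ[K] V₁) ∘ₗ h ∘ₗ (x : V₁ →ₗ[K] V₂) ∘ₗ f) := rfl

/-- The rank of the pairing `(x, y) ↦ tr (y h x f)`. -/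
noncomputable def mu (P : Submodule K (V₁ →ₗ[K] V₂)) (Q : Submodule K (V₂ →ₗ[K] V₁))
    (h : End K V₂) (f : End K V₁) : ℕ :=
  finrank K (LinearMap.range (bt P Q h f))

/-- Spaces of operators between two vector spaces which are closed under composition. -/
structure Duo (B₁ : Subalgebra K (End K V₁)) (B₂ : Subalgebra K (End K V₂))
    (P : Submodule K (V₁ →ₗ[K] V₂)) (Q : Submodule K (V₂ →ₗ[K] V₁)) : Prop where
  yx : ∀ x ∈ P, ∀ y ∈ Q, y ∘ₗ x ∈ B₁
  xy : ∀ x ∈ P, ∀ y ∈ Q, x ∘ₗ y ∈ B₂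
  hx : ∀ h ∈ B₂, ∀ x ∈ P, h ∘ₗ x ∈ P
  xf : ∀ f ∈ B₁, ∀ x ∈ P, x ∘ₗ f ∈ P
  fy : ∀ f ∈ B₁, ∀ y ∈ Q, f ∘ₗ y ∈ Q
  yh : ∀ h ∈ B₂, ∀ y ∈ Q, y ∘ₗ h ∈ Q

/-- A family of idempotents which are primitive and pairwise inequivalent modulo the radical. -/
structure Prims (B : Subalgebra K (End K V₁)) {C : Type} (e : C → End K V₁) : Prop where
  mem : ∀ c, e c ∈ B
  idem : ∀ c, e c * e c = e c
  ne : ∀ c, e c ≠ 0
  off : ∀ c c', c ≠ c' → ∀ x ∈ B, e c * x * e c' ∈ rad B
  diag : ∀ c, ∀ x ∈ B, ∃ a : K, e c * x * e c - a • e c ∈ rad B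

lemma Wed.prims {B : Subalgebra K (End K V₁)} (w : Wed B) : Prims B (fun c => w.e (w.rep c)) where
  mem c := w.e_mem _
  idem c := by rw [w.e_mul, if_pos rfl]
  ne c := w.e_ne _
  off c c' h x hx := by
    apply w.off _ _ _ x hx
    rw [w.κ_rep, w.κ_rep]
    exact h
  diag c x hx := w.diag _ x hx

/-- The trace of an idempotent is its rank. -/
lemma trace_idem [Module.Finite K V₁] {e : End K V₁} (he : e * e = e) :
    LinearMap.trace K V₁ e = (finrank K (LinearMap.range e) : K) := by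
  have h1 : LinearMap.IsProj (LinearMap.range e) e := by
    refine ⟨fun x => ⟨x, rfl⟩, ?_⟩
    rintro _ ⟨y, rfl⟩
    exact congrArg (fun f => f y) he
  exact h1.trace

lemma rank_idem_ne [Module.Finite K V₁] [CharZero K] {e : End K V₁} (he0 : e ≠ 0) :
    (finrank K (LinearMap.range e) : K) ≠ 0 := by
  rw [Nat.cast_ne_zero]
  intro h
  apply he0
  have h1 : LinearMap.range e = ⊥ := Submodule.finrank_eq_zero.1 h
  exact LinearMap.range_eq_bot.1 h1

section Main

variable [Module.Finite K V₁] [Module.Finite K V₂] [CharZero K]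
  {B₁ : Subalgebra K (End K V₁)} {B₂ : Subalgebra K (End K V₂)}
  {P : Submodule K (V₁ →ₗ[K] V₂)} {Q : Submodule K (V₂ →ₗ[K] V₁)}

/-- Dual families of operators. -/
lemma exists_dual_ops (D : Duo B₁ B₂ P Q) {C : Type} {e : C → End K V₁}
    (he : Prims B₁ e) {h : End K V₂} (hh : h ∈ B₂) (hhh : h * h = h) :
    ∃ (X : ∀ c, Fin (mu P Q h (e c)) → (V₁ →ₗ[K] V₂))
      (Y : ∀ c, Fin (mu P Q h (e c)) → (V₂ →ₗ[K] V₁)),
      (∀ c a, X c a ∈ P) ∧ (∀ c a, Y c a ∈ Q) ∧ (∀ c a, h ∘ₗ X c a = X c a) ∧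
      (∀ c a, X c a ∘ₗ e c = X c a) ∧ (∀ c a, e c ∘ₗ Y c a = Y c a) ∧
      (∀ c a, Y c a ∘ₗ h = Y c a) ∧
      (∀ c c' a b, c ≠ c' → Y c b ∘ₗ X c' a ∈ rad B₁) ∧
      (∀ c a b, Y c b ∘ₗ X c a - (if a = b then e c else 0) ∈ rad B₁) := by
  have key : ∀ c, ∃ (x : Fin (mu P Q h (e c)) → P) (y : Fin (mu P Q h (e c)) → Q), ∀ a b,
      bt P Q h (e c) (x a) (y b) = if a = b then LinearMap.trace K V₁ (e c) else 0 :=
    fun c => exists_dual_family (bt P Q h (e c)) _
  choose x y hxy using key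
  refine ⟨fun c a => h ∘ₗ (x c a : V₁ →ₗ[K] V₂) ∘ₗ e c,
    fun c a => e c ∘ₗ (y c a : V₂ →ₗ[K] V₁) ∘ₗ h,
    fun c a => D.hx _ hh _ (D.xf _ (he.mem c) _ (x c a).2),
    fun c a => D.fy _ (he.mem c) _ (D.yh _ hh _ (y c a).2), ?_, ?_, ?_, ?_, ?_, ?_⟩
  · intro c a
    rw [← LinearMap.comp_assoc]
    congr 1
  · intro c a
    rw [LinearMap.comp_assoc, LinearMap.comp_assoc]
    congr 2
    exact he.idem c
  · intro c a
    rw [← LinearMap.comp_assoc]
    congr 1
    exact he.idem c
  · intro c a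
    rw [LinearMap.comp_assoc, LinearMap.comp_assoc]
    congr 2
  · intro c c' a b hcc
    have h1 := he.off c c' hcc ((y c b : V₂ →ₗ[K] V₁) ∘ₗ (h ∘ₗ (x c' a : V₁ →ₗ[K] V₂)))
      (D.yx _ (D.hx _ hh _ (x c' a).2) _ (y c b).2)
    have h2 : (e c ∘ₗ (y c b : V₂ →ₗ[K] V₁) ∘ₗ h) ∘ₗ (h ∘ₗ (x c' a : V₁ →ₗ[K] V₂) ∘ₗ e c') =
        e c * ((y c b : V₂ →ₗ[K] V₁) ∘ₗ (h ∘ₗ (x c' a : V₁ →ₗ[K] V₂))) * e c' := by
      apply LinearMap.ext
      intro v
      have h3 := congrArg (fun f => f ((x c' a : V₁ →ₗ[K] V₂) (e c' v))) hhh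
      simp only [Module.End.mul_apply] at h3
      simp only [LinearMap.comp_apply, Module.End.mul_apply, h3]
    rw [h2]
    exact h1
  · intro c a b
    have hm := D.yx _ (D.hx _ hh _ (x c a).2) _ (y c b).2
    obtain ⟨r, hr⟩ := he.diag c _ hm
    have h2 : (e c ∘ₗ (y c b : V₂ →ₗ[K] V₁) ∘ₗ h) ∘ₗ (h ∘ₗ (x c a : V₁ →ₗ[K] V₂) ∘ₗ e c) =
        e c * ((y c b : V₂ →ₗ[K] V₁) ∘ₗ (h ∘ₗ (x c a : V₁ →ₗ[K] V₂))) * e c := by
      apply LinearMap.ext
      intro v
      have h3 := congrArg (fun f => f ((x c a : V₁ →ₗ[K] V₂) (e c v))) hhh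
      simp only [Module.End.mul_apply] at h3
      simp only [LinearMap.comp_apply, Module.End.mul_apply, h3]
    have h4 : LinearMap.trace K V₁
        (e c * ((y c b : V₂ →ₗ[K] V₁) ∘ₗ (h ∘ₗ (x c a : V₁ →ₗ[K] V₂))) * e c) =
        if a = b then LinearMap.trace K V₁ (e c) else 0 := by
      rw [← hxy c a b, bt_apply, LinearMap.trace_mul_comm, ← mul_assoc, he.idem,
        LinearMap.trace_mul_comm]
      rfl
    have h5 := trace_rad hr
    rw [map_sub, map_smul, h4, smul_eq_mul, sub_eq_zero] at h5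
    have h6 : LinearMap.trace K V₁ (e c) ≠ 0 := by
      rw [trace_idem (he.idem c)]
      exact rank_idem_ne (he.ne c)
    have h7 : r • e c = if a = b then e c else 0 := by
      split_ifs with hab
      · rw [if_pos hab] at h5
        have : r = 1 := by
          have h8 : (r - 1) * LinearMap.trace K V₁ (e c) = 0 := by
            rw [sub_mul, ← h5, one_mul, sub_self]
          exact sub_eq_zero.1 ((mul_eq_zero.1 h8).resolve_right h6)
        rw [this, one_smul]
      · rw [if_neg hab] at h5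
        have : r = 0 := (mul_eq_zero.1 h5.symm).resolve_right h6
        rw [this, zero_smul]
    change (e c ∘ₗ (y c b : V₂ →ₗ[K] V₁) ∘ₗ h) ∘ₗ (h ∘ₗ (x c a : V₁ →ₗ[K] V₂) ∘ₗ e c) -
      (if a = b then e c else 0) ∈ rad B₁
    rw [h2, ← h7]
    exact hr

/-- The multiplicities of primitive idempotents bound dimensions from below. -/
theorem sum_mu_mul_le (D : Duo B₁ B₂ P Q) {C : Type} [Fintype C] {e : C → End K V₁}
    (he : Prims B₁ e) {h : End K V₂} (hh : h ∈ B₂) (hhh : h * h = h)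
    (T₁ : Submodule K V₁) (T₂ : Submodule K V₂) (hT : ∀ x ∈ P, ∀ t ∈ T₁, x t ∈ T₂) :
    ∑ c, mu P Q h (e c) * finrank K (T₁.map (e c)) ≤ finrank K (T₂.map h) := by
  classical
  obtain ⟨X, Y, hX, hY, hhX, hXe, heY, hYh, hoff, hdiag⟩ := exists_dual_ops D he hh hhh
  let ι := Σ c, Fin (mu P Q h (e c))
  let Ψ : (∀ i : ι, T₁.map (e i.1)) →ₗ[K] V₂ :=
    ∑ i : ι, X i.1 i.2 ∘ₗ (T₁.map (e i.1)).subtype ∘ₗ LinearMap.proj i
  have hΨ : ∀ t, Ψ t = ∑ i : ι, X i.1 i.2 (t i : V₁) := by
    intro t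
    simp only [Ψ, LinearMap.sum_apply]
    rfl
  have hinj : Function.Injective Ψ := by
    rw [← LinearMap.ker_eq_bot, LinearMap.ker_eq_bot']
    intro t ht
    rw [hΨ] at ht
    have het : ∀ i : ι, e i.1 (t i : V₁) = (t i : V₁) := by
      intro i
      obtain ⟨s, hs, hs'⟩ := (t i).2
      rw [← hs', ← Module.End.mul_apply, he.idem]
    have h1 : ∀ i : ι, (t i : V₁) = ∑ j : ι,
        (-(Y i.1 i.2 ∘ₗ X j.1 j.2 - (if i = j then e i.1 else 0))) (t j : V₁) := by
      intro i
      have h2 := congrArg (fun w => Y i.1 i.2 w) ht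
      simp only [map_zero, map_sum] at h2
      have h3 : ∑ j : ι, (if i = j then e i.1 else 0 : End K V₁) (t j : V₁) = (t i : V₁) := by
        rw [Finset.sum_eq_single i]
        · rw [if_pos rfl, het]
        · intro b _ hb
          rw [if_neg (Ne.symm hb), LinearMap.zero_apply]
        · intro h; exact absurd (Finset.mem_univ _) h
      have h4 : ∑ j : ι, (-(Y i.1 i.2 ∘ₗ X j.1 j.2 - (if i = j then e i.1 else 0))) (t j : V₁) =
          ∑ j : ι, (if i = j then e i.1 else 0 : End K V₁) (t j : V₁) -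
            ∑ j : ι, Y i.1 i.2 (X j.1 j.2 (t j : V₁)) := by
        rw [← Finset.sum_sub_distrib]
        apply Finset.sum_congr rfl
        intro j _
        rw [neg_sub, LinearMap.sub_apply, LinearMap.comp_apply]
      rw [h4, h3, h2, sub_zero]
    have h5 := nakayama B₁ (fun i : ι => (t i : V₁)) _ (by
      rintro ⟨c, b⟩ ⟨c', a⟩
      apply Submodule.neg_mem
      by_cases hcc : c = c'
      · subst hcc
        have h6 := hdiag c a b
        by_cases hab : a = b
        · subst hab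
          rw [if_pos rfl] at h6 ⊢
          exact h6
        · rw [if_neg hab] at h6
          rw [if_neg]
          · exact h6
          · intro h7
            apply hab
            have := (Sigma.mk.injEq _ _ _ _).mp h7
            exact (eq_of_heq this.2).symm
      · rw [if_neg, sub_zero]
        · exact hoff c c' a b hcc
        · intro h7
          exact hcc (congrArg Sigma.fst h7)) h1
    funext i
    apply Subtype.ext
    exact h5 i
  have hrange : LinearMap.range Ψ ≤ T₂.map h := by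
    rintro _ ⟨t, rfl⟩
    rw [hΨ]
    apply Submodule.sum_mem
    intro i _
    obtain ⟨s, hs, hs'⟩ := (t i).2
    refine ⟨X i.1 i.2 s, hT _ (hX _ _) _ hs, ?_⟩
    rw [← hs']
    have h1 := congrArg (fun f => f s) (hXe i.1 i.2)
    have h2 := congrArg (fun f => f s) (hhX i.1 i.2)
    simp only [LinearMap.comp_apply] at h1 h2
    rw [h1, h2]
  have h1 := LinearMap.finrank_range_of_inj hinj
  have h2 : finrank K (∀ i : ι, T₁.map (e i.1)) =
      ∑ c, mu P Q h (e c) * finrank K (T₁.map (e c)) := by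
    rw [Module.finrank_pi_fintype, Fintype.sum_sigma]
    apply Finset.sum_congr rfl
    intro c _
    change ∑ _y : Fin (mu P Q h (e c)), finrank K (Submodule.map (e c) T₁) = _
    rw [Finset.sum_const, Finset.card_univ, Fintype.card_fin, smul_eq_mul]
  rw [← h2, ← h1]
  exact Submodule.finrank_mono hrange

/-- Special case for the whole spaces. -/
theorem sum_mu_mul_rank_le (D : Duo B₁ B₂ P Q) {C : Type} [Fintype C] {e : C → End K V₁}
    (he : Prims B₁ e) {h : End K V₂} (hh : h ∈ B₂) (hhh : h * h = h) :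
    ∑ c, mu P Q h (e c) * finrank K (LinearMap.range (e c)) ≤ finrank K (LinearMap.range h) := by
  have := sum_mu_mul_le D he hh hhh ⊤ ⊤ (fun _ _ _ _ => trivial)
  have h1 : ∀ c, finrank K (Submodule.map (e c) ⊤) = finrank K (LinearMap.range (e c)) :=
    fun c => by rw [Submodule.map_top]
  simp only [h1] at this
  rw [Submodule.map_top] at this
  exact this

/-- The dimension of the algebra modulo the radical of the trace form. -/
noncomputable def nu (B : Subalgebra K (End K V₁)) : ℕ :=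
  mu (Subalgebra.toSubmodule B) (Subalgebra.toSubmodule B) 1 1

theorem sum_sq_le_nu (D : Duo B₁ B₂ P Q) {C : Type} [Fintype C] {e : C → End K V₁}
    (he : Prims B₁ e) : ∑ c, mu P Q 1 (e c) ^ 2 ≤ nu B₂ := by
  classical
  obtain ⟨X, Y, hX, hY, hhX, hXe, heY, hYh, hoff, hdiag⟩ :=
    exists_dual_ops D he B₂.one_mem (mul_one 1)
  let ι := Σ c, Fin (mu P Q 1 (e c)) × Fin (mu P Q 1 (e c))
  have h1 := le_rank_of_dual (ι := ι)
    (bt (Subalgebra.toSubmodule B₂) (Subalgebra.toSubmodule B₂) 1 1)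
    (fun i => ⟨X i.1 i.2.1 ∘ₗ Y i.1 i.2.2, D.xy _ (hX _ _) _ (hY _ _)⟩)
    (fun i => ⟨X i.1 i.2.2 ∘ₗ Y i.1 i.2.1, D.xy _ (hX _ _) _ (hY _ _)⟩)
    (fun i => LinearMap.trace K V₁ (e i.1))
    (fun i => by
      rw [trace_idem (he.idem _)]
      exact rank_idem_ne (he.ne _))
    (by
      rintro ⟨c, a, b⟩ ⟨c', a', b'⟩
      rw [bt_apply]
      change LinearMap.trace K V₂ ((X c' b' ∘ₗ Y c' a') ∘ₗ (X c a ∘ₗ Y c b)) = _
      have e1 : (X c' b' ∘ₗ Y c' a') ∘ₗ (X c a ∘ₗ Y c b) =
          X c' b' ∘ₗ ((Y c' a' ∘ₗ X c a) ∘ₗ Y c b) := rfl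
      rw [e1, LinearMap.trace_comp_comm']
      have e2 : ((Y c' a' ∘ₗ X c a) ∘ₗ Y c b) ∘ₗ X c' b' =
          (Y c' a' ∘ₗ X c a) * (Y c b ∘ₗ X c' b') := rfl
      rw [e2]
      have hm : Y c b ∘ₗ X c' b' ∈ B₁ := D.yx _ (hX _ _) _ (hY _ _)
      by_cases hcc : c = c'
      · subst hcc
        have h2 := hdiag c a a'
        by_cases haa : a = a'
        · subst haa
          rw [if_pos rfl] at h2
          have h3 := trace_rad (rad_mul_right h2 hm)
          rw [sub_mul, map_sub, sub_eq_zero] at h3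
          rw [h3]
          have h4 : e c * (Y c b ∘ₗ X c b') = Y c b ∘ₗ X c b' := by
            rw [Module.End.mul_eq_comp, ← LinearMap.comp_assoc, heY]
          rw [h4]
          have h5 := trace_rad (hdiag c b' b)
          rw [map_sub, sub_eq_zero] at h5
          rw [h5]
          by_cases hbb : b' = b
          · subst hbb
            rw [if_pos rfl, if_pos rfl]
          · rw [if_neg hbb, if_neg, map_zero]
            intro h6
            apply hbb
            have h7 := (Sigma.mk.injEq _ _ _ _).mp h6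
            have h8 := eq_of_heq h7.2
            exact (congrArg Prod.snd h8).symm
        · rw [if_neg haa, sub_zero] at h2
          rw [trace_rad (rad_mul_right h2 hm), if_neg]
          intro h6
          apply haa
          have h7 := (Sigma.mk.injEq _ _ _ _).mp h6
          have h8 := eq_of_heq h7.2
          exact (congrArg Prod.fst h8)
      · have h2 := hoff c' c a a' (Ne.symm hcc)
        rw [trace_rad (rad_mul_right h2 hm), if_neg]
        intro h6
        exact hcc (congrArg Sigma.fst h6))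
  have h2 : Fintype.card ι = ∑ c, mu P Q 1 (e c) ^ 2 := by
    rw [Fintype.card_sigma]
    apply Finset.sum_congr rfl
    intro c _
    rw [Fintype.card_prod, Fintype.card_fin, sq]
  rw [← h2]
  exact h1

end Main

end Pool.Agent.Y163
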