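import Pool.Agent.Y163.Duo

/-!
# Multiplicities: invariance, subadditivity, and inequalities of Cauchy-Schwarz and Schur type
-/

set_option linter.unusedVariables false
set_option linter.unusedSectionVars false

namespace Pool.Agent.Y163

open Module Finset

variable {K : Type*} [Field K] {V₁ : Type*} [AddCommGroup V₁] [Module K V₁] {V₂ : Type*}
  [AddCommGroup V₂] [Module K V₂]

lemma bt_sum {I J : Type*} (P : Submodule K (V₁ →ₗ[K] V₂)) (Q : Submodule K (V₂ →ₗ[K] V₁))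
    (s : Finset I) (t : Finset J) (h : I → End K V₂) (f : J → End K V₁) :
    bt P Q (∑ i ∈ s, h i) (∑ j ∈ t, f j) = ∑ i ∈ s, ∑ j ∈ t, bt P Q (h i) (f j) := by
  apply LinearMap.ext
  intro x
  apply LinearMap.ext
  intro y
  simp only [LinearMap.sum_apply, bt_apply]
  have h1 : (y : V₂ →ₗ[K] V₁) ∘ₗ (∑ i ∈ s, h i) ∘ₗ (x : V₁ →ₗ[K] V₂) ∘ₗ (∑ j ∈ t, f j) =
      ∑ i ∈ s, ∑ j ∈ t, (y : V₂ →ₗ[K] V₁) ∘ₗ (h i) ∘ₗ (x : V₁ →ₗ[K] V₂) ∘ₗ (f j) := by
    apply LinearMap.ext
    intro v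
    simp only [LinearMap.comp_apply, LinearMap.sum_apply, map_sum]
    rw [Finset.sum_comm]
  rw [h1, map_sum]
  exact Finset.sum_congr rfl fun i _ => map_sum _ _ _

lemma mu_sum_le [Module.Finite K V₁] [Module.Finite K V₂] {I J : Type*}
    (P : Submodule K (V₁ →ₗ[K] V₂)) (Q : Submodule K (V₂ →ₗ[K] V₁))
    (s : Finset I) (t : Finset J) (h : I → End K V₂) (f : J → End K V₁) :
    mu P Q (∑ i ∈ s, h i) (∑ j ∈ t, f j) ≤ ∑ i ∈ s, ∑ j ∈ t, mu P Q (h i) (f j) := by
  rw [mu, bt_sum]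
  refine (finrank_range_sum_le _ _).trans (Finset.sum_le_sum fun i _ => ?_)
  exact finrank_range_sum_le _ _

section

variable [Module.Finite K V₁] [Module.Finite K V₂] [CharZero K]
  {B₁ : Subalgebra K (End K V₁)} {B₂ : Subalgebra K (End K V₂)}
  {P : Submodule K (V₁ →ₗ[K] V₂)} {Q : Submodule K (V₂ →ₗ[K] V₁)}

/-- Equivalent idempotents have the same multiplicities. -/
lemma mu_conn_gen (D : Duo B₁ B₂ P Q) {ei ej u v : End K V₁} (hu : u ∈ B₁) (hv : v ∈ B₁)
    (hue : u * ej = u) (huv : u * v - ei ∈ rad B₁) {h : End K V₂} (hh : h ∈ B₂) :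
    mu P Q h ei ≤ mu P Q h ej := by
  let R : P →ₗ[K] P :=
    { toFun := fun x => ⟨(x : V₁ →ₗ[K] V₂) ∘ₗ u, D.xf _ hu _ x.2⟩
      map_add' := fun x y => Subtype.ext (LinearMap.add_comp _ _ _)
      map_smul' := fun c x => Subtype.ext (LinearMap.smul_comp _ _ _) }
  let L : Q →ₗ[K] Q :=
    { toFun := fun y => ⟨v ∘ₗ (y : V₂ →ₗ[K] V₁), D.fy _ hv _ y.2⟩
      map_add' := fun x y => Subtype.ext (LinearMap.comp_add _ _ _)
      map_smul' := fun c x => Subtype.ext (LinearMap.comp_smul _ _ _) }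
  have h1 : bt P Q h ei = L.dualMap ∘ₗ bt P Q h ej ∘ₗ R := by
    apply LinearMap.ext
    intro x
    apply LinearMap.ext
    intro y
    have e1 : (L.dualMap ∘ₗ bt P Q h ej ∘ₗ R) x y =
        LinearMap.trace K V₁ ((v ∘ₗ (y : V₂ →ₗ[K] V₁)) ∘ₗ h ∘ₗ ((x : V₁ →ₗ[K] V₂) ∘ₗ u) ∘ₗ ej) :=
      rfl
    rw [e1, bt_apply]
    have e2 : (v ∘ₗ (y : V₂ →ₗ[K] V₁)) ∘ₗ h ∘ₗ ((x : V₁ →ₗ[K] V₂) ∘ₗ u) ∘ₗ ej =
        v * (((y : V₂ →ₗ[K] V₁) ∘ₗ h ∘ₗ (x : V₁ →ₗ[K] V₂)) * (u * ej)) := rfl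
    have e3 : (y : V₂ →ₗ[K] V₁) ∘ₗ h ∘ₗ (x : V₁ →ₗ[K] V₂) ∘ₗ ei =
        ((y : V₂ →ₗ[K] V₁) ∘ₗ h ∘ₗ (x : V₁ →ₗ[K] V₂)) * ei := rfl
    rw [e2, e3, hue, LinearMap.trace_mul_comm K v, mul_assoc, ← sub_eq_zero, ← map_sub, ← mul_sub]
    have h2 : (y : V₂ →ₗ[K] V₁) ∘ₗ h ∘ₗ (x : V₁ →ₗ[K] V₂) ∈ B₁ :=
      D.yx _ (D.hx _ hh _ x.2) _ y.2
    have h3 := trace_rad (rad_mul_left huv h2)
    rw [← neg_sub (u * v) ei, mul_neg, map_neg, h3, neg_zero]
  rw [mu, mu, h1]
  exact finrank_range_comp_comp_le _ _ _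

lemma Wed.mu_le (w : Wed B₁) (D : Duo B₁ B₂ P Q) {h : End K V₂} (hh : h ∈ B₂) (i : w.I) :
    mu P Q h (w.e i) ≤ mu P Q h (w.e (w.rep (w.κ i))) := by
  obtain ⟨u, hu, v, hv, -, hue, -, -, huv, -⟩ := w.conn i (w.rep (w.κ i)) (w.κ_rep _).symm
  exact mu_conn_gen D hu hv hue huv hh

/-- The multiplicities. -/
def Wed.m (w : Wed B₁) (c : w.C) : ℕ := (univ.filter fun i => w.κ i = c).card

lemma Wed.sum_eq (w : Wed B₁) (F : w.C → ℕ) : ∑ i, F (w.κ i) = ∑ c, w.m c * F c := by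
  rw [← Finset.sum_fiberwise (s := univ) (g := w.κ)]
  apply Finset.sum_congr rfl
  intro c _
  rw [Finset.sum_congr rfl (g := fun _ => F c), Finset.sum_const, smul_eq_mul, Wed.m]
  intro i hi
  rw [(Finset.mem_filter.1 hi).2]

lemma duo_self (B : Subalgebra K (End K V₁)) :
    Duo B B (Subalgebra.toSubmodule B) (Subalgebra.toSubmodule B) where
  yx x hx y hy := B.mul_mem hy hx
  xy x hx y hy := B.mul_mem hx hy
  hx h hh x hx := B.mul_mem hh hx
  xf f hf x hx := B.mul_mem hx hf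
  fy f hf y hy := B.mul_mem hf hy
  yh h hh y hy := B.mul_mem hy hh

lemma Wed.m_le (w : Wed B₁) (c : w.C) :
    w.m c ≤ mu (Subalgebra.toSubmodule B₁) (Subalgebra.toSubmodule B₁) 1 (w.e (w.rep c)) := by
  classical
  have h1 : ∀ i : {i // w.κ i = c}, ∃ u ∈ B₁, ∃ v ∈ B₁, w.e i * u = u ∧ u * w.e (w.rep c) = u ∧
      w.e (w.rep c) * v = v ∧ v * w.e i = v ∧ u * v - w.e i ∈ rad B₁ ∧
      v * u - w.e (w.rep c) ∈ rad B₁ :=
    fun i => w.conn i (w.rep c) (by rw [i.2, w.κ_rep])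
  choose u hu v hv heu hue hev hve huv hvu using h1
  have h2 := le_rank_of_dual (ι := {i // w.κ i = c})
    (bt (Subalgebra.toSubmodule B₁) (Subalgebra.toSubmodule B₁) 1 (w.e (w.rep c)))
    (fun i => ⟨u i, hu i⟩) (fun i => ⟨v i, hv i⟩)
    (fun _ => LinearMap.trace K V₁ (w.e (w.rep c)))
    (fun _ => by
      rw [trace_idem (w.prims.idem c)]
      exact rank_idem_ne (w.e_ne _))
    (by
      intro i j
      rw [bt_apply]
      change LinearMap.trace K V₁ (v j * (1 * (u i * w.e (w.rep c)))) = _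
      rw [hue, one_mul]
      by_cases hij : i = j
      · subst hij
        rw [if_pos rfl]
        have h3 := trace_rad (hvu i)
        rw [map_sub, sub_eq_zero] at h3
        exact h3
      · rw [if_neg hij, ← hve j, ← heu i, mul_assoc, ← mul_assoc (w.e j), w.e_mul, if_neg,
          zero_mul, mul_zero, map_zero]
        intro h
        exact hij (Subtype.ext h.symm))
  rw [Fintype.card_subtype] at h2
  exact h2

lemma Wed.sum_m_sq_le (w : Wed B₁) : ∑ c, w.m c ^ 2 ≤ nu B₁ :=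
  (Finset.sum_le_sum fun c _ => Nat.pow_le_pow_left (w.m_le c) 2).trans
    (sum_sq_le_nu (duo_self B₁) w.prims)

/-- The number of homomorphisms is at most the geometric mean of the numbers of endomorphisms. -/
theorem mu_sq_le [IsAlgClosed K] (D : Duo B₁ B₂ P Q) : mu P Q 1 1 ^ 2 ≤ nu B₁ * nu B₂ := by
  obtain ⟨w⟩ := exists_wed B₁
  have h1 : mu P Q 1 1 ≤ ∑ c, w.m c * mu P Q 1 (w.e (w.rep c)) := by
    have h2 := mu_sum_le P Q (univ : Finset Unit) (univ : Finset w.I) (fun _ => 1) w.e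
    rw [w.e_sum] at h2
    simp only [Finset.univ_unique, Finset.sum_singleton] at h2
    refine h2.trans ?_
    rw [← w.sum_eq (fun c => mu P Q 1 (w.e (w.rep c)))]
    exact Finset.sum_le_sum fun i _ => w.mu_le D B₂.one_mem i
  calc mu P Q 1 1 ^ 2 ≤ (∑ c, w.m c * mu P Q 1 (w.e (w.rep c))) ^ 2 := Nat.pow_le_pow_left h1 2
    _ ≤ (∑ c, w.m c ^ 2) * ∑ c, mu P Q 1 (w.e (w.rep c)) ^ 2 :=
      Finset.sum_mul_sq_le_sq_mul_sq _ _ _
    _ ≤ nu B₁ * nu B₂ := Nat.mul_le_mul w.sum_m_sq_le (sum_sq_le_nu D w.prims)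

/-- A Schur test. -/
lemma schur_test {C : Type*} [Fintype C] (M : C → C → ℝ) (m d : C → ℝ) (s : ℝ)
    (hM : ∀ c c', 0 ≤ M c c') (hd : ∀ c, 0 < d c)
    (h1 : ∀ c, ∑ c', M c c' * d c' ≤ s * d c) (h2 : ∀ c', ∑ c, M c c' * d c ≤ s * d c') :
    ∑ c, ∑ c', m c * m c' * M c c' ≤ s * ∑ c, m c ^ 2 := by
  have key : ∀ c c', m c * m c' * M c c' ≤
      1 / 2 * (m c ^ 2 / d c * (M c c' * d c')) + 1 / 2 * (m c' ^ 2 / d c' * (M c c' * d c)) := by
    intro c c'
    have e1 : 1 / 2 * (m c ^ 2 / d c * (M c c' * d c')) +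
        1 / 2 * (m c' ^ 2 / d c' * (M c c' * d c)) - m c * m c' * M c c' =
        M c c' * (m c * d c' - m c' * d c) ^ 2 / (2 * d c * d c') := by
      have := (hd c).ne'
      have := (hd c').ne'
      field_simp
      ring
    have e2 : 0 ≤ M c c' * (m c * d c' - m c' * d c) ^ 2 / (2 * d c * d c') := by
      have := hd c
      have := hd c'
      have := hM c c'
      positivity
    linarith
  calc ∑ c, ∑ c', m c * m c' * M c c'
      ≤ ∑ c, ∑ c', (1 / 2 * (m c ^ 2 / d c * (M c c' * d c')) +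
          1 / 2 * (m c' ^ 2 / d c' * (M c c' * d c))) :=
        Finset.sum_le_sum fun c _ => Finset.sum_le_sum fun c' _ => key c c'
    _ = 1 / 2 * ∑ c, m c ^ 2 / d c * ∑ c', M c c' * d c' +
          1 / 2 * ∑ c', m c' ^ 2 / d c' * ∑ c, M c c' * d c := by
        simp only [Finset.sum_add_distrib, Finset.mul_sum]
        congr 1
        rw [Finset.sum_comm]
    _ ≤ 1 / 2 * ∑ c, m c ^ 2 / d c * (s * d c) + 1 / 2 * ∑ c', m c' ^ 2 / d c' * (s * d c') := by
        gcongr with c _ c' _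
        · have := hd c; positivity
        · exact h1 c
        · have := hd c'; positivity
        · exact h2 c'
    _ = s * ∑ c, m c ^ 2 := by
        have e : ∀ c, m c ^ 2 / d c * (s * d c) = s * m c ^ 2 := by
          intro c
          have := (hd c).ne'
          field_simp
        simp only [e, ← Finset.mul_sum]
        ring

/-- The Schur test for multiplicities. -/
lemma Wed.schur (w : Wed B₁) (N : w.I → w.I → ℕ) (s : ℕ)
    (hN1 : ∀ i j, N i j ≤ N i (w.rep (w.κ j))) (hN2 : ∀ i j, N i j ≤ N (w.rep (w.κ i)) j)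
    (h1 : ∀ i, ∑ c, N i (w.rep c) * finrank K (LinearMap.range (w.e (w.rep c))) ≤
      s * finrank K (LinearMap.range (w.e i)))
    (h2 : ∀ j, ∑ c, N (w.rep c) j * finrank K (LinearMap.range (w.e (w.rep c))) ≤
      s * finrank K (LinearMap.range (w.e j))) :
    ∑ i, ∑ j, N i j ≤ s * nu B₁ := by
  have h3 : ∑ i, ∑ j, N i j ≤ ∑ c, ∑ c', w.m c * w.m c' * N (w.rep c) (w.rep c') := by
    have h4 : ∀ i, ∑ j, N i j ≤ ∑ c', w.m c' * N i (w.rep c') := by
      intro i
      rw [← w.sum_eq (fun c' => N i (w.rep c'))]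
      exact Finset.sum_le_sum fun j _ => hN1 i j
    calc ∑ i, ∑ j, N i j ≤ ∑ i, ∑ c', w.m c' * N i (w.rep c') :=
          Finset.sum_le_sum fun i _ => h4 i
      _ ≤ ∑ i, ∑ c', w.m c' * N (w.rep (w.κ i)) (w.rep c') :=
          Finset.sum_le_sum fun i _ => Finset.sum_le_sum fun c' _ =>
            Nat.mul_le_mul_left _ (hN2 _ _)
      _ = ∑ c, w.m c * ∑ c', w.m c' * N (w.rep c) (w.rep c') :=
          w.sum_eq (fun c => ∑ c', w.m c' * N (w.rep c) (w.rep c'))
      _ = _ := by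
          apply Finset.sum_congr rfl
          intro c _
          rw [Finset.mul_sum]
          apply Finset.sum_congr rfl
          intro c' _
          rw [mul_assoc]
  have hd : ∀ i, 0 < finrank K (LinearMap.range (w.e i)) := by
    intro i
    have := rank_idem_ne (K := K) (w.e_ne i)
    exact Nat.pos_of_ne_zero (fun h => this (by rw [h, Nat.cast_zero]))
  have h5 := schur_test (fun c c' => (N (w.rep c) (w.rep c') : ℝ)) (fun c => (w.m c : ℝ))
    (fun c => (finrank K (LinearMap.range (w.e (w.rep c))) : ℝ)) s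
    (fun _ _ => Nat.cast_nonneg _) (fun c => by exact_mod_cast hd _)
    (fun c => by exact_mod_cast h1 (w.rep c)) (fun c => by exact_mod_cast h2 (w.rep c))
  have h6 : ∑ c, ∑ c', w.m c * w.m c' * N (w.rep c) (w.rep c') ≤ s * ∑ c, w.m c ^ 2 := by
    have : ((∑ c, ∑ c', w.m c * w.m c' * N (w.rep c) (w.rep c') : ℕ) : ℝ) ≤
        ((s * ∑ c, w.m c ^ 2 : ℕ) : ℝ) := by
      push_cast
      exact h5
    exact_mod_cast this
  exact h3.trans (h6.trans (Nat.mul_le_mul_left _ w.sum_m_sq_le))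

/-- The dimension of a stable subspace. -/
lemma Wed.finrank_stable_le (w : Wed B₁) (T : Submodule K V₁) (hT : ∀ f ∈ B₁, ∀ t ∈ T, f t ∈ T) :
    finrank K T ≤ ∑ c, w.m c * finrank K (T.map (w.e (w.rep c))) := by
  have h1 : ∀ i, finrank K (T.map (w.e i)) ≤ finrank K (T.map (w.e (w.rep (w.κ i)))) := by
    intro i
    obtain ⟨u, hu, v, hv, heu, hue, hev, hve, huv, hvu⟩ :=
      w.conn i (w.rep (w.κ i)) (w.κ_rep _).symm
    have hmap : ∀ x ∈ T.map (w.e i), v x ∈ T.map (w.e (w.rep (w.κ i))) := by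
      rintro _ ⟨t, ht, rfl⟩
      refine ⟨v (w.e i t), hT _ hv _ (hT _ (w.e_mem i) _ ht), ?_⟩
      rw [← Module.End.mul_apply (w.e (w.rep (w.κ i))), hev]
    have hinj : Function.Injective (v.restrict hmap) := by
      rw [← LinearMap.ker_eq_bot, LinearMap.ker_eq_bot']
      rintro ⟨x, hx⟩ h0
      have h1 : v x = 0 := congrArg Subtype.val h0
      have h2 : w.e i x = x := by
        obtain ⟨t, _, rfl⟩ := hx
        rw [← Module.End.mul_apply, w.e_mul, if_pos rfl]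
      apply Subtype.ext
      have h3 := nakayama B₁ (fun _ : Unit => x) (fun _ _ => -(u * v - w.e i))
        (fun _ _ => Submodule.neg_mem _ huv) (fun _ => by
          simp only [Finset.univ_unique, Finset.sum_singleton]
          rw [neg_sub, LinearMap.sub_apply, h2, Module.End.mul_apply, h1, map_zero, sub_zero])
      exact h3 ()
    exact LinearMap.finrank_le_finrank_of_injective hinj
  have h2 : T ≤ ⨆ i, T.map (w.e i) := by
    intro t ht
    have h3 : t = ∑ i, w.e i t := by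
      have := congrArg (fun f => f t) w.e_sum
      simp only [LinearMap.sum_apply, Module.End.one_apply] at this
      exact this.symm
    rw [h3]
    exact Submodule.sum_mem _ fun i _ => Submodule.mem_iSup_of_mem i ⟨t, ht, rfl⟩
  have h3 : finrank K (⨆ i, T.map (w.e i) : Submodule K V₁) ≤ ∑ i, finrank K (T.map (w.e i)) := by
    have : ∀ s : Finset w.I, finrank K (⨆ i ∈ s, T.map (w.e i) : Submodule K V₁) ≤
        ∑ i ∈ s, finrank K (T.map (w.e i)) := by
      intro s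
      induction s using Finset.induction_on with
      | empty => simp
      | insert a s ha ih =>
        rw [Finset.sum_insert ha, Finset.iSup_insert]
        exact (Submodule.finrank_add_le_finrank_add_finrank _ _).trans (Nat.add_le_add_left ih _)
    have h4 := this univ
    have h5 : (⨆ i ∈ (univ : Finset w.I), T.map (w.e i)) = ⨆ i, T.map (w.e i) :=
      iSup_congr fun i => iSup_pos (Finset.mem_univ i)
    rwa [h5] at h4
  refine (Submodule.finrank_mono h2).trans (h3.trans ?_)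
  rw [← w.sum_eq (fun c => finrank K (T.map (w.e (w.rep c))))]
  exact Finset.sum_le_sum fun i _ => h1 i

end

end Pool.Agent.Y163
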