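import Pool.Agent.Y163.Lim

/-!
# The effective form of the limit law
-/

namespace Pool.Agent.Y163

open Filter Topology Finset

section

variable {α z : ℕ → ℕ} {b e : ℕ}

lemma eta_le (hb : 0 < b) (h0 : α 0 ≤ b)
    (h2 : ∀ n, α (n + 1) ^ 2 ≤ α n * α (n + 2)) (h3 : ∀ n, b ^ (n + 1) ≤ α n * (n + 2) ^ e)
    (κ : ℕ) {M : ℕ} (hM : 0 < M) :
    (b : ℝ) ^ (κ + 1) - (α (M + (κ + 1)) : ℝ) / α M ≤
      (κ + 1) * b ^ (κ + 1) * e * Real.log (M + 2) / M := by
  have hpos : ∀ n, 0 < α n := by
    intro n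
    apply Nat.pos_of_ne_zero
    intro h
    have := h3 n
    rw [h, zero_mul] at this
    exact absurd (pow_pos hb (n + 1)) (by omega)
  have hposR : ∀ n, (0 : ℝ) < α n := fun n => by exact_mod_cast hpos n
  have hbR : (0 : ℝ) < b := by exact_mod_cast hb
  have hMR : (0 : ℝ) < M := by exact_mod_cast hM
  set ρ : ℕ → ℝ := fun n => (α (n + 1) : ℝ) / α n with hρ
  have hρ0 : ∀ n, 0 < ρ n := fun n => div_pos (hposR _) (hposR _)
  have hstep : ∀ n, (α (n + 1) : ℝ) = ρ n * α n := by
    intro n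
    simp only [hρ]
    rw [div_mul_cancel₀ _ (hposR n).ne']
  have hmono : Monotone ρ := by
    apply monotone_nat_of_le_succ
    intro n
    simp only [hρ]
    rw [div_le_div_iff₀ (hposR n) (hposR (n + 1))]
    have := h2 n
    have h4 : ((α (n + 1) : ℝ)) ^ 2 ≤ α n * α (n + 2) := by exact_mod_cast this
    nlinarith
  -- upper bound for `α M`
  have hup : ∀ n, n ≤ M → (α n : ℝ) ≤ α 0 * ρ M ^ n := by
    intro n
    induction n with
    | zero => intro _; simp
    | succ n ih =>
      intro hn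
      rw [hstep n, pow_succ]
      calc ρ n * α n ≤ ρ M * (α 0 * ρ M ^ n) :=
            mul_le_mul (hmono (by omega)) (ih (by omega)) (hposR n).le (hρ0 M).le
        _ = _ := by ring
  -- lower bound for `α (M + j)`
  have hlow : ∀ j, ρ M ^ j * α M ≤ α (M + j) := by
    intro j
    induction j with
    | zero => simp
    | succ j ih =>
      rw [show M + (j + 1) = (M + j) + 1 by ring, hstep (M + j), pow_succ]
      calc ρ M ^ j * ρ M * α M = ρ M * (ρ M ^ j * α M) := by ring
        _ ≤ ρ (M + j) * α (M + j) :=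
            mul_le_mul (hmono (by omega)) ih (mul_nonneg (pow_nonneg (hρ0 M).le _) (hposR M).le)
              (hρ0 _).le
  set x : ℝ := ρ M / b with hx
  have hx0 : 0 < x := div_pos (hρ0 M) hbR
  have hρx : ρ M = b * x := by rw [hx]; field_simp
  -- the lower bound for `x`
  have h5 : 1 ≤ x ^ M * ((M : ℝ) + 2) ^ e := by
    have h6 : (b : ℝ) ^ (M + 1) ≤ α M * ((M : ℝ) + 2) ^ e := by exact_mod_cast h3 M
    have h7 : (α 0 : ℝ) ≤ b := by exact_mod_cast h0
    have h8 : (b : ℝ) ^ (M + 1) ≤ b * (b * x) ^ M * ((M : ℝ) + 2) ^ e := by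
      refine h6.trans (mul_le_mul_of_nonneg_right ?_ (by positivity))
      rw [← hρx]
      exact (hup M le_rfl).trans (mul_le_mul_of_nonneg_right h7 (pow_nonneg (hρ0 M).le _))
    have h9 : b * (b * x) ^ M * ((M : ℝ) + 2) ^ e =
        (b : ℝ) ^ (M + 1) * (x ^ M * ((M : ℝ) + 2) ^ e) := by ring
    rw [h9] at h8
    have h10 : (0 : ℝ) < (b : ℝ) ^ (M + 1) := by positivity
    by_contra hcon
    push Not at hcon
    nlinarith
  have h6 : 0 ≤ M * Real.log x + e * Real.log ((M : ℝ) + 2) := by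
    have h7 := Real.log_le_log one_pos h5
    rw [Real.log_one, Real.log_mul (pow_pos hx0 _).ne' (by positivity), Real.log_pow,
      Real.log_pow] at h7
    exact h7
  have h7 : 1 - x ≤ e * Real.log ((M : ℝ) + 2) / M := by
    rw [le_div_iff₀ hMR]
    have h8 := Real.log_le_sub_one_of_pos hx0
    nlinarith
  -- Bernoulli
  have h8 : 1 - (κ + 1) * (1 - x) ≤ x ^ (κ + 1) := by
    have := one_add_mul_le_pow (a := x - 1) (by linarith) (κ + 1)
    rw [show 1 + (x - 1) = x by ring] at this
    push_cast at this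
    linarith
  have h9 : (b : ℝ) ^ (κ + 1) * x ^ (κ + 1) ≤ (α (M + (κ + 1)) : ℝ) / α M := by
    rw [le_div_iff₀ (hposR M), ← mul_pow, ← hρx]
    exact hlow (κ + 1)
  have hbk : (0 : ℝ) < (b : ℝ) ^ (κ + 1) := by positivity
  calc (b : ℝ) ^ (κ + 1) - (α (M + (κ + 1)) : ℝ) / α M
      ≤ (b : ℝ) ^ (κ + 1) - (b : ℝ) ^ (κ + 1) * x ^ (κ + 1) := by linarith
    _ = (b : ℝ) ^ (κ + 1) * (1 - x ^ (κ + 1)) := by ring
    _ ≤ (b : ℝ) ^ (κ + 1) * ((κ + 1) * (1 - x)) := by
        apply mul_le_mul_of_nonneg_left _ hbk.le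
        linarith
    _ ≤ (b : ℝ) ^ (κ + 1) * ((κ + 1) * (e * Real.log ((M : ℝ) + 2) / M)) := by
        apply mul_le_mul_of_nonneg_left _ hbk.le
        apply mul_le_mul_of_nonneg_left h7 (by positivity)
    _ = _ := by ring

/-- **The effective limit law.** If the bound fails at the level `κ`, then the ratio at the level
`M` is at least two up to an explicit error. -/
theorem eff_law (hb : 0 < b) (h0 : α 0 ≤ b)
    (h2 : ∀ n, α (n + 1) ^ 2 ≤ α n * α (n + 2)) (h3 : ∀ n, b ^ (n + 1) ≤ α n * (n + 2) ^ e)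
    {κ : ℕ} (l : Level α z b κ) (hfail : α κ < z κ) {M : ℕ} (hM : 0 < M) :
    (2 - 2 * (κ + 1) * b ^ (κ + 1) * e * Real.log (M + 2) / M) * α M ≤ z M := by
  have hpos : ∀ n, 0 < α n := by
    intro n
    apply Nat.pos_of_ne_zero
    intro h
    have := h3 n
    rw [h, zero_mul] at this
    exact absurd (pow_pos hb (n + 1)) (by omega)
  have hposR : ∀ n, (0 : ℝ) < α n := fun n => by exact_mod_cast hpos n
  have heta := eta_le hb h0 h2 h3 κ hM
  set η : ℝ := (b : ℝ) ^ (κ + 1) - (α (M + (κ + 1)) : ℝ) / α M with hη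
  have hD : 2 ≤ ∑ c, l.s c * l.t c := by
    by_contra hcon
    push Not at hcon
    have h4 := l.z_le
    have h5 : (∑ c, l.s c * l.t c) * α κ ≤ 1 * α κ := Nat.mul_le_mul_right _ (by omega)
    omega
  have hN : ∀ c, ((l.s c : ℝ) - η) * α M ≤ l.N M c := by
    intro c
    have e1 : ∀ c, (0 : ℝ) ≤ l.s c * α M - l.N M c := by
      intro c
      have := l.N_le M c
      have h4 : (l.N M c : ℝ) ≤ l.s c * α M := by exact_mod_cast this
      linarith
    have e2 : (l.s c : ℝ) * α M - l.N M c ≤ ∑ c, (l.m c : ℝ) * (l.s c * α M - l.N M c) := by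
      calc (l.s c : ℝ) * α M - l.N M c ≤ l.m c * (l.s c * α M - l.N M c) := by
            have h5 : (1 : ℝ) ≤ l.m c := by exact_mod_cast l.m_pos c
            nlinarith [e1 c]
        _ ≤ ∑ c, (l.m c : ℝ) * (l.s c * α M - l.N M c) :=
            Finset.single_le_sum (f := fun c => (l.m c : ℝ) * (l.s c * α M - l.N M c))
              (fun c _ => mul_nonneg (Nat.cast_nonneg _) (e1 c)) (Finset.mem_univ c)
    have e3 : ∑ c, (l.m c : ℝ) * (l.s c * α M - l.N M c) =
        (∑ c, (l.m c : ℝ) * l.s c) * α M - ∑ c, (l.m c : ℝ) * l.N M c := by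
      rw [Finset.sum_mul, ← Finset.sum_sub_distrib]
      apply Finset.sum_congr rfl
      intro c _
      ring
    have e4 : (∑ c, (l.m c : ℝ) * l.s c) ≤ (b : ℝ) ^ (κ + 1) := by exact_mod_cast l.sum_ms
    have e5 : (α (M + (κ + 1)) : ℝ) ≤ ∑ c, (l.m c : ℝ) * l.N M c := by
      have := l.le_sum M
      rw [show κ + M + 1 = M + (κ + 1) by ring] at this
      exact_mod_cast this
    have e6 : η * α M = (b : ℝ) ^ (κ + 1) * α M - α (M + (κ + 1)) := by
      simp only [hη]
      have := (hposR M).ne'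
      field_simp
    have e7 : (∑ c, (l.m c : ℝ) * l.s c) * α M ≤ (b : ℝ) ^ (κ + 1) * α M :=
      mul_le_mul_of_nonneg_right e4 (hposR M).le
    have e8 : ((l.s c : ℝ) - η) * α M = l.s c * α M - η * α M := by ring
    rw [e8, e6]
    linarith
  have hz0 : (0 : ℝ) ≤ z M := Nat.cast_nonneg _
  rcases le_or_gt 1 η with h1 | h1
  · refine le_trans ?_ hz0
    apply mul_nonpos_of_nonpos_of_nonneg _ (hposR M).le
    have : 2 * (κ + 1) * b ^ (κ + 1) * e * Real.log (M + 2) / M =
      2 * ((κ + 1) * b ^ (κ + 1) * e * Real.log (M + 2) / M) := by ring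
    rw [this]
    linarith
  · have hterm : ∀ c, (1 - η) * α M * ((l.s c * l.t c : ℕ) : ℝ) ≤ (l.N M c * l.t c : ℕ) := by
      intro c
      push_cast
      have ht : (0 : ℝ) ≤ l.t c := Nat.cast_nonneg _
      have hs : (1 - η) * α M * l.s c ≤ l.N M c := by
        rcases Nat.eq_zero_or_pos (l.s c) with h | h
        · rw [h, Nat.cast_zero, mul_zero]
          exact Nat.cast_nonneg _
        · refine le_trans ?_ (hN c)
          have h5 : (1 : ℝ) ≤ l.s c := by exact_mod_cast h
          have h6 := hposR M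
          have h7 : (1 - η) * l.s c ≤ l.s c - η ∨ η < 0 := by
            rcases lt_or_ge η 0 with h8 | h8
            · exact Or.inr h8
            · left; nlinarith
          rcases h7 with h7 | h7
          · calc (1 - η) * α M * l.s c = ((1 - η) * l.s c) * α M := by ring
              _ ≤ _ := mul_le_mul_of_nonneg_right h7 h6.le
          · -- `η` is nonnegative
            exfalso
            have e1 : ∀ c, (0 : ℝ) ≤ l.s c * α M - l.N M c := by
              intro c
              have := l.N_le M c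
              have h4 : (l.N M c : ℝ) ≤ l.s c * α M := by exact_mod_cast this
              linarith
            have h9 := hN c
            have h10 := e1 c
            nlinarith
      calc (1 - η) * α M * (l.s c * l.t c) = ((1 - η) * α M * l.s c) * l.t c := by ring
        _ ≤ _ := mul_le_mul_of_nonneg_right hs ht
    have h5 : (∑ c, (l.N M c : ℝ) * l.t c) ≤ z M := by exact_mod_cast l.sum_le M
    have h6 : (1 - η) * α M * (∑ c, ((l.s c * l.t c : ℕ) : ℝ)) ≤ z M := by
      rw [Finset.mul_sum]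
      refine le_trans (Finset.sum_le_sum fun c _ => hterm c) ?_
      push_cast
      exact h5
    have h7 : (2 : ℝ) ≤ ∑ c, ((l.s c * l.t c : ℕ) : ℝ) := by exact_mod_cast hD
    have h8 : 0 ≤ (1 - η) * α M := mul_nonneg (by linarith) (hposR M).le
    have h9 : (1 - η) * α M * 2 ≤ z M := (mul_le_mul_of_nonneg_left h7 h8).trans h6
    refine le_trans ?_ h9
    have : 2 * (κ + 1) * b ^ (κ + 1) * e * Real.log (M + 2) / M =
      2 * ((κ + 1) * b ^ (κ + 1) * e * Real.log (M + 2) / M) := by ring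
    rw [this]
    have h10 := hposR M
    nlinarith

end

end Pool.Agent.Y163
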