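import Pool.Agent.Y163.DuoB
import Pool.Agent.W534.PoleC
import Pool.Agent.H914R2.ExtOp

/-!
# Correspondences: traces, adjoints, isomorphisms
-/

set_option linter.unusedVariables false
set_option linter.unusedSectionVars false

open CategoryTheory AlgebraicGeometry CategoryTheory.Limits

universe u v

namespace Pool.Agent.Y163

open Pool.Agent.H914 Pool.Agent.H447 Pool.Agent.W534 VarClass Obj WeilCohomology Module

variable {k : Type u} [Field k] {𝒱 : VarClass k} {ops : CycleOps 𝒱}
  {W : WeilCohomology.{u, v} ops} {X Y Z U S : 𝒱.Obj}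

/-- Morphisms to a product are determined by their components. -/
lemma prod_hom_ext {f g : Z ⟶ X.prod Y} (h1 : f ≫ fst X Y = g ≫ fst X Y)
    (h2 : f ≫ snd X Y = g ≫ snd X Y) : f = g := by
  apply SmVar.hom_ext
  exact pullback.hom_ext (congrArg SmVar.Hom.hom h1) (congrArg SmVar.Hom.hom h2)

/-- The intersection number of two correspondences is a trace. -/
theorem tr_mul_eq_trace' {p : ℕ} {c : W.H (X.prod Y)} (hc : c ∈ W.gr _ (2 * p))
    (d : W.H (X.prod Y)) :
    W.tr (X.prod Y) (c * d) = LinearMap.trace W.K (W.H Y)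
      (par (W.isInternal Y) ∘ₗ W.corr c ∘ₗ W.corr (W.map (swap Y X) d)) := by
  refine W.kunneth_induction (p := fun d => W.tr (X.prod Y) (c * d) =
    LinearMap.trace W.K (W.H Y)
      (par (W.isInternal Y) ∘ₗ W.corr c ∘ₗ W.corr (W.map (swap Y X) d))) ?_ ?_ d
  · intro a b ha hb
    rw [mul_add, map_add, map_add, corr_add, LinearMap.comp_add, LinearMap.comp_add, map_add, ha,
      hb]
  · intro i j a ha b hb
    rw [corr_swap_tmul ha hb]
    have h1 : par (W.isInternal Y) ∘ₗ W.corr c ∘ₗ
        (W.tr Y ∘ₗ LinearMap.mulLeft W.K b).smulRight a =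
        (W.tr Y ∘ₗ LinearMap.mulLeft W.K b).smulRight (par (W.isInternal Y) (W.corr c a)) := by
      apply LinearMap.ext
      intro y
      rw [LinearMap.comp_apply, LinearMap.comp_apply, LinearMap.smulRight_apply,
        LinearMap.smulRight_apply, map_smul, map_smul]
    rw [h1, LinearMap.trace_smulRight, LinearMap.comp_apply, LinearMap.mulLeft_apply]
    have e1 : W.tr (X.prod Y) (c * (W.map (fst X Y) a * W.map (snd X Y) b)) =
        W.tr Y (W.corr c a * b) := by
      rw [corr_apply, W.tr_push, mul_assoc]
    rw [e1]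
    have h2 := corr_deg (X := X) (Y := Y) (d := (p : ℤ) - X.dim) (by ring) hc i a
      (by rw [grZ_natCast]; exact ha)
    by_cases hm : ∃ m : ℕ, (m : ℤ) = (i : ℤ) + 2 * ((p : ℤ) - X.dim)
    · obtain ⟨m, hm⟩ := hm
      rw [← hm, grZ_natCast] at h2
      rw [par, scal_apply _ _ h2, mul_smul_comm, map_smul, W.comm hb h2, map_smul, smul_eq_mul,
        smul_eq_mul]
      by_cases hj : m + j = 2 * Y.dim
      · have hev : Even (m + j * m) := by
          have : m + j * m = m * (j + 1) := by ring
          rw [this]
          rcases Nat.even_or_odd m with h | h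
          · exact h.mul_right _
          · apply Even.mul_left
            have : Odd j := by
              rcases Nat.even_or_odd j with h' | h'
              · exfalso
                have := h.add_even h'
                rw [hj] at this
                exact (Nat.not_even_iff_odd.2 this) (even_two_mul _)
              · exact h'
            exact this.add_one
        rw [← mul_assoc, ← pow_add, hev.neg_one_pow, one_mul]
      · rw [W.tr_eq_zero (W.mul_mem h2 hb) hj, mul_zero, mul_zero]
    · push Not at hm
      by_cases hneg : (i : ℤ) + 2 * ((p : ℤ) - X.dim) < 0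
      · rw [grZ_of_neg hneg] at h2
        rw [(Submodule.mem_bot _).1 h2]
        simp
      · exact absurd (Int.toNat_of_nonneg (by omega)) (hm _)

/-! ### Adjoints -/

/-- The duality of the cohomology. -/
noncomputable def dualEq (W : WeilCohomology.{u, v} ops) (X : 𝒱.Obj) :
    W.H X ≃ₗ[W.K] Module.Dual W.K (W.H X) :=
  LinearEquiv.ofBijective (bil W X).flip (by
    have hinj : Function.Injective (bil W X).flip := by
      rw [← LinearMap.ker_eq_bot, LinearMap.ker_eq_bot']
      intro b hb
      apply nondeg_right
      intro a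
      exact congrArg (fun F => F a) hb
    exact ⟨hinj, (LinearMap.injective_iff_surjective_of_finrank_eq_finrank
      Subspace.dual_finrank_eq.symm).1 hinj⟩)

lemma dualEq_apply (a b : W.H X) : dualEq W X b a = W.tr X (a * b) := rfl

/-- The adjoint with respect to the trace form. -/
noncomputable def adj (f : Module.End W.K (W.H X)) : Module.End W.K (W.H X) :=
  (dualEq W X).symm.toLinearMap ∘ₗ f.dualMap ∘ₗ (dualEq W X).toLinearMap

lemma adj_spec (f : Module.End W.K (W.H X)) (a b : W.H X) :
    W.tr X (f a * b) = W.tr X (a * adj f b) := by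
  rw [← dualEq_apply, ← dualEq_apply, adj, LinearMap.comp_apply, LinearMap.comp_apply,
    LinearEquiv.coe_coe, LinearEquiv.coe_coe, LinearEquiv.apply_symm_apply]
  rfl

lemma adj_unique {f g : Module.End W.K (W.H X)}
    (h : ∀ a b, W.tr X (f a * b) = W.tr X (a * g b)) : g = adj f := by
  apply LinearMap.ext
  intro b
  rw [← sub_eq_zero]
  apply nondeg_right
  intro a
  rw [mul_sub, map_sub, ← h, ← adj_spec, sub_self]

lemma adj_mul (f g : Module.End W.K (W.H X)) : adj (f * g) = adj g * adj f := by
  symm
  apply adj_unique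
  intro a b
  rw [Module.End.mul_apply, Module.End.mul_apply, adj_spec, adj_spec]

lemma adj_one : adj (1 : Module.End W.K (W.H X)) = 1 := by
  symm
  apply adj_unique
  intro a b
  rfl

lemma adj_zero : adj (0 : Module.End W.K (W.H X)) = 0 := by
  symm
  apply adj_unique
  intro a b
  simp

lemma adj_sub (f g : Module.End W.K (W.H X)) : adj (f - g) = adj f - adj g := by
  symm
  apply adj_unique
  intro a b
  rw [LinearMap.sub_apply, LinearMap.sub_apply, sub_mul, mul_sub, map_sub, map_sub, adj_spec,
    adj_spec]

lemma adj_smul (c : W.K) (f : Module.End W.K (W.H X)) : adj (c • f) = c • adj f := by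
  symm
  apply adj_unique
  intro a b
  rw [LinearMap.smul_apply, LinearMap.smul_apply, smul_mul_assoc, mul_smul_comm, map_smul,
    map_smul, adj_spec]

lemma trace_adj (f : Module.End W.K (W.H X)) :
    LinearMap.trace W.K (W.H X) (adj f) = LinearMap.trace W.K (W.H X) f := by
  have h1 : adj f = (dualEq W X).symm.conj f.dualMap := rfl
  rw [h1, LinearMap.trace_conj']
  exact LinearMap.trace_transpose' f

lemma finrank_range_adj (f : Module.End W.K (W.H X)) :
    finrank W.K (LinearMap.range (adj f)) = finrank W.K (LinearMap.range f) := by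
  rw [adj, LinearMap.range_comp, LinearMap.range_comp_of_range_eq_top _ (LinearEquiv.range _),
    LinearEquiv.finrank_map_eq]
  exact LinearMap.finrank_range_dualMap_eq_finrank_range f

lemma adj_mem {f : Module.End W.K (W.H X)} (hf : f ∈ KOp W X X 0) : adj f ∈ KOp W X X 0 := by
  obtain ⟨g, hg, h⟩ := KOp.exists_adjoint hf
  rw [← adj_unique h]
  exact KOp.cast hg (by ring)

/-- Homogeneous operators of degree zero. -/
def Deg0 (f : Module.End W.K (W.H X)) : Prop := ∀ i : ℕ, ∀ a ∈ W.gr X i, f a ∈ W.gr X i

lemma deg0_of_mem {f : Module.End W.K (W.H X)} (hf : f ∈ KOp W X X 0) : Deg0 f := by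
  intro i a ha
  have h1 := KOp.isHom hf i a (by rw [grZ_natCast]; exact ha)
  rwa [mul_zero, add_zero, grZ_natCast] at h1

lemma adj_adj {f : Module.End W.K (W.H X)} (hf : f ∈ KOp W X X 0) : adj (adj f) = f := by
  symm
  apply adj_unique
  intro a b
  have hd := deg0_of_mem hf
  have hd' := deg0_of_mem (adj_mem hf)
  refine gr_induction (W.isInternal X) (p := fun a => W.tr X (adj f a * b) =
    W.tr X (a * f b)) ?_ ?_ a
  swap
  · intro x y hx hy
    rw [map_add, add_mul, add_mul, map_add, map_add, hx, hy]
  intro i a ha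
  refine gr_induction (W.isInternal X) (p := fun b => W.tr X (adj f a * b) =
    W.tr X (a * f b)) ?_ ?_ b
  swap
  · intro x y hx hy
    rw [map_add, mul_add, mul_add, map_add, map_add, hx, hy]
  intro j b hb
  rw [W.comm (hd' i a ha) hb, map_smul, ← adj_spec, W.comm (hd j b hb) ha, map_smul, smul_smul,
    ← pow_add]
  have : Even (i * j + j * i) := by rw [mul_comm j i]; exact Even.add_self _
  rw [this.neg_one_pow, one_smul]

/-! ### The algebra of correspondences -/

/-- The algebra of the algebraic correspondences of degree zero. -/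
noncomputable def KAlg (W : WeilCohomology.{u, v} ops) (X : 𝒱.Obj) :
    Subalgebra W.K (Module.End W.K (W.H X)) where
  carrier := {f | f ∈ KOp W X X 0}
  mul_mem' := fun {a b} ha hb => KOp.cast (KOp.comp (W := W) (X := X) (Y := X) (Z := X) ha hb)
    (by ring)
  add_mem' := fun {a b} ha hb => (KOp W X X 0).add_mem ha hb
  algebraMap_mem' := fun r => by
    change algebraMap W.K (Module.End W.K (W.H X)) r ∈ KOp W X X 0
    rw [Algebra.algebraMap_eq_smul_one]
    exact Submodule.smul_mem _ _ (KOp.id X)

lemma mem_KAlg {f : Module.End W.K (W.H X)} : f ∈ KAlg W X ↔ f ∈ KOp W X X 0 := Iff.rfl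

lemma toSubmodule_KAlg : Subalgebra.toSubmodule (KAlg W X) = KOp W X X 0 := rfl

lemma adj_rad {f : Module.End W.K (W.H X)} (hf : f ∈ rad (KAlg W X)) :
    adj f ∈ rad (KAlg W X) := by
  refine ⟨adj_mem hf.1, fun y hy => ?_⟩
  rw [← adj_adj hy, ← adj_mul, trace_adj, LinearMap.trace_mul_comm]
  exact hf.2 _ (adj_mem hy)

/-- The correspondences between two varieties form a `Duo`. -/
lemma duo (W : WeilCohomology.{u, v} ops) (U S : 𝒱.Obj) (r : ℤ) :
    Duo (KAlg W U) (KAlg W S) (KOp W U S r) (KOp W S U (-r)) where
  yx x hx y hy := KOp.cast (KOp.comp hy hx) (by ring)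
  xy x hx y hy := KOp.cast (KOp.comp hx hy) (by ring)
  hx h hh x hx := KOp.cast (KOp.comp (mem_KAlg.1 hh) hx) (by ring)
  xf f hf x hx := KOp.cast (KOp.comp hx (mem_KAlg.1 hf)) (by ring)
  fy f hf y hy := KOp.cast (KOp.comp (mem_KAlg.1 hf) hy) (by ring)
  yh h hh y hy := KOp.cast (KOp.comp hy (mem_KAlg.1 hh)) (by ring)

/-- The adjoints of a family of primitive idempotents. -/
lemma prims_adj {C : Type} {e : C → Module.End W.K (W.H X)} (he : Prims (KAlg W X) e) :
    Prims (KAlg W X) (fun c => adj (e c)) where
  mem c := adj_mem (he.mem c)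
  idem c := by rw [← adj_mul, he.idem]
  ne c h := he.ne c (by
    have h1 := adj_adj (he.mem c)
    have h2 : adj (e c) = 0 := h
    rw [h2, adj_zero] at h1
    exact h1.symm)
  off c c' h x hx := by
    have h1 := adj_rad (he.off c' c (Ne.symm h) (adj x) (adj_mem hx))
    rw [adj_mul, adj_mul, adj_adj hx, ← mul_assoc] at h1
    exact h1
  diag c x hx := by
    obtain ⟨a, ha⟩ := he.diag c (adj x) (adj_mem hx)
    refine ⟨a, ?_⟩
    have h1 := adj_rad ha
    rw [adj_sub, adj_smul, adj_mul, adj_mul, adj_adj hx, ← mul_assoc] at h1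
    exact h1

/-! ### External products -/

lemma finrank_range_extOp (φ : Module.End W.K (W.H Y)) (ψ : Module.End W.K (W.H Z)) :
    finrank W.K (LinearMap.range (extOp W φ ψ)) =
      finrank W.K (LinearMap.range φ) * finrank W.K (LinearMap.range ψ) := by
  have h1 : LinearMap.range (extOp W φ ψ) =
      (LinearMap.range (TensorProduct.map φ ψ)).map (kappa W Y Z).toLinearMap := by
    rw [extOp, ← LinearMap.comp_assoc, LinearMap.range_comp_of_range_eq_top _
      (LinearEquiv.range _), LinearMap.range_comp]
  have h2 : finrank W.K (LinearMap.range (TensorProduct.map φ ψ)) =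
      finrank W.K (LinearMap.range φ) * finrank W.K (LinearMap.range ψ) := by
    rw [← Module.finrank_tensorProduct]
    have h3 : TensorProduct.map φ ψ =
        TensorProduct.map (LinearMap.range φ).subtype (LinearMap.range ψ).subtype ∘ₗ
          TensorProduct.map φ.rangeRestrict ψ.rangeRestrict := by
      rw [← TensorProduct.map_comp]
      rfl
    have hsurj : Function.Surjective (TensorProduct.map φ.rangeRestrict ψ.rangeRestrict) :=
      TensorProduct.map_surjective φ.surjective_rangeRestrict ψ.surjective_rangeRestrict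
    have hinj : Function.Injective
        (TensorProduct.map (LinearMap.range φ).subtype (LinearMap.range ψ).subtype) :=
      TensorProduct.map_injective_of_flat_flat _ _ (Submodule.subtype_injective _)
        (Submodule.subtype_injective _)
    rw [h3, LinearMap.range_comp_of_range_eq_top _ (LinearMap.range_eq_top.2 hsurj)]
    exact LinearMap.finrank_range_of_inj hinj
  rw [h1, ← h2]
  exact LinearEquiv.finrank_map_eq _ _

/-- The operator given by an external product of operators applied to a class. -/
lemma corr_extOp {f : Module.End W.K (W.H U)} {h : Module.End W.K (W.H S)}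
    (hf : Deg0 (adj f)) (hh : Deg0 h) (c : W.H (U.prod S)) :
    W.corr (extOp W f h c) = h ∘ₗ W.corr c ∘ₗ adj f := by
  refine W.kunneth_induction (p := fun c => W.corr (extOp W f h c) =
    h ∘ₗ W.corr c ∘ₗ adj f) ?_ ?_ c
  · intro a b ha hb
    rw [map_add, corr_add, ha, hb, corr_add, LinearMap.add_comp, LinearMap.comp_add]
  · intro i j a ha b hb
    rw [extOp_tmul]
    apply gr_ext (W.isInternal U)
    intro l x hx
    have key : ∀ (a' : W.H U) (b' : W.H S), b' ∈ W.gr S j → ∀ x' ∈ W.gr U l,
        W.corr (W.map (fst U S) a' * W.map (snd U S) b') x' =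
          ((-1 : W.K) ^ (j * l) * W.tr U (a' * x')) • b' := by
      intro a' b' hb' x' hx'
      rw [corr_apply, mul_assoc, W.comm (W.map_mem (snd U S) hb') (W.map_mem (fst U S) hx'),
        mul_smul_comm, ← mul_assoc, ← map_mul, map_smul, push_snd, smul_smul]
    rw [key _ _ (hh j b hb) x hx, LinearMap.comp_apply, LinearMap.comp_apply,
      key _ _ hb _ (hf l x hx), map_smul, adj_spec]

end Pool.Agent.Y163
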