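import Pool.Agent.Y163.GeoA

/-!
# Ranks of intersection forms twisted by operators
-/

set_option linter.unusedVariables false
set_option linter.unusedSectionVars false

open CategoryTheory AlgebraicGeometry CategoryTheory.Limits

universe u v

namespace Pool.Agent.Y163

open Pool.Agent.H914 Pool.Agent.H447 Pool.Agent.W534 VarClass Obj WeilCohomology Module

variable {k : Type u} [Field k] {𝒱 : VarClass k} {ops : CycleOps 𝒱}
  {W : WeilCohomology.{u, v} ops} {X Y Z U S : 𝒱.Obj}

/-- The form `(a, b) ↦ tr (f(a) b)` on the algebraic classes of codimensions `j` and `l`. -/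
noncomputable def form (W : WeilCohomology.{u, v} ops) (Z : 𝒱.Obj) (j l : ℕ)
    (f : Module.End W.K (W.H Z)) :
    spanCycles W Z j →ₗ[W.K] Module.Dual W.K (spanCycles W Z l) where
  toFun a := W.tr Z ∘ₗ LinearMap.mulLeft W.K (f (a : W.H Z)) ∘ₗ (spanCycles W Z l).subtype
  map_add' := by
    intro a b
    ext c
    simp [add_mul]
  map_smul' := by
    intro a b
    ext c
    simp

lemma form_apply (j l : ℕ) (f : Module.End W.K (W.H Z)) (a : spanCycles W Z j)
    (b : spanCycles W Z l) : form W Z j l f a b = W.tr Z (f (a : W.H Z) * (b : W.H Z)) := rfl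

/-- The rank of the form `(a, b) ↦ tr (f(a) b)` on the algebraic classes of codimensions `j`
and `l`. -/
noncomputable def rk (W : WeilCohomology.{u, v} ops) (Z : 𝒱.Obj) (j l : ℕ)
    (f : Module.End W.K (W.H Z)) : ℕ :=
  finrank W.K (LinearMap.range (form W Z j l f))

lemma rk_one (j l : ℕ) : rk W Z j l 1 = kRank W Z j l := rfl

lemma map_span (f : X ⟶ Y) {q : ℤ} {γ : W.H Y} (hγ : γ ∈ spanCycles W Y q) :
    W.map f γ ∈ spanCycles W X q := by
  induction hγ using Submodule.span_induction with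
  | mem x hx =>
    obtain ⟨p, hp, z, hz, rfl⟩ := hx
    exact Submodule.subset_span ⟨p, hp, ops.pull f z, ops.pull_mem _ hz, W.cl_pull _ _⟩
  | zero => rw [map_zero]; exact Submodule.zero_mem _
  | add x y _ _ hx hy => rw [map_add]; exact Submodule.add_mem _ hx hy
  | smul a x _ hx => rw [map_smul]; exact Submodule.smul_mem _ _ hx

/-- Pull-back of algebraic classes. -/
noncomputable def pullS (W : WeilCohomology.{u, v} ops) (f : X ⟶ Y) (q : ℕ) :
    spanCycles W Y q →ₗ[W.K] spanCycles W X q :=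
  (W.map f).toLinearMap.restrict (fun _ h => map_span f h)

lemma tr_map_iso (θ : X ⟶ Y) (hdim : Y.dim = X.dim) :
    ∃ c : W.K, ∀ b, W.tr X (W.map θ b) = c * W.tr Y b := by
  have h1 : W.push θ 1 ∈ W.gr Y 0 := by
    have := W.push_mem θ (W.one_mem X)
    rw [hdim] at this
    have e : ((0 : ℕ) : ℤ) + 2 * ((X.dim : ℤ) - X.dim) = ((0 : ℕ) : ℤ) := by ring
    rw [e, grZ_natCast] at this
    exact this
  rw [W.gr_zero, Submodule.mem_span_singleton] at h1
  obtain ⟨c, hc⟩ := h1
  refine ⟨c, fun b => ?_⟩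
  rw [← one_mul (W.map θ b), ← W.tr_push, ← hc, smul_mul_assoc, one_mul, map_smul, smul_eq_mul]

lemma rk_iso_le (θ : X ⟶ Y) (η : Y ⟶ X) (h1 : θ ≫ η = 𝟙 X) (h2 : η ≫ θ = 𝟙 Y)
    (hdim : Y.dim = X.dim) {f : Module.End W.K (W.H Y)} {f' : Module.End W.K (W.H X)}
    (hf : ∀ a, W.map θ (f a) = f' (W.map θ a)) (j l : ℕ) : rk W Y j l f ≤ rk W X j l f' := by
  obtain ⟨c, hc⟩ := tr_map_iso (W := W) θ hdim
  have hηθ : ∀ a : W.H Y, W.map η (W.map θ a) = a := by
    intro a
    rw [← W.map_comp, h2, W.map_id]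
  have hθη : ∀ a : W.H X, W.map θ (W.map η a) = a := by
    intro a
    rw [← W.map_comp, h1, W.map_id]
  by_cases hc0 : c = 0
  · have htr : ∀ b : W.H X, W.tr X b = 0 := by
      intro b
      rw [← hθη b, hc, hc0, zero_mul]
    have h0 : ∀ a : W.H X, a = 0 := fun a => W.nondeg a (fun b => htr _)
    have h0' : ∀ a : W.H Y, a = 0 := by
      intro a
      rw [← hηθ a, h0 (W.map θ a), map_zero]
    have : form W Y j l f = 0 := by
      apply LinearMap.ext
      intro a
      have : a = 0 := Subtype.ext (h0' _)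
      rw [this, map_zero, map_zero]
    rw [rk, this, LinearMap.range_zero, finrank_bot]
    exact Nat.zero_le _
  · have h3 : form W Y j l f = (c⁻¹ • (pullS W θ l).dualMap) ∘ₗ form W X j l f' ∘ₗ pullS W θ j := by
      apply LinearMap.ext
      intro a
      apply LinearMap.ext
      intro b
      have e1 : ((c⁻¹ • (pullS W θ l).dualMap) ∘ₗ form W X j l f' ∘ₗ pullS W θ j) a b =
          c⁻¹ * W.tr X (f' (W.map θ (a : W.H Y)) * W.map θ (b : W.H Y)) := rfl
      rw [e1, ← hf, ← map_mul, hc, form_apply, ← mul_assoc, inv_mul_cancel₀ hc0, one_mul]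
    rw [rk, rk, h3]
    exact finrank_range_comp_comp_le _ _ _

/-- Isomorphic varieties have the same ranks. -/
lemma rk_iso (θ : X ⟶ Y) (η : Y ⟶ X) (h1 : θ ≫ η = 𝟙 X) (h2 : η ≫ θ = 𝟙 Y)
    (hdim : Y.dim = X.dim) {f : Module.End W.K (W.H Y)} {f' : Module.End W.K (W.H X)}
    (hf : ∀ a, W.map θ (f a) = f' (W.map θ a)) (j l : ℕ) : rk W Y j l f = rk W X j l f' := by
  apply le_antisymm (rk_iso_le θ η h1 h2 hdim hf j l)
  apply rk_iso_le η θ h2 h1 hdim.symm _ j l
  intro a
  have h3 := hf (W.map η a)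
  rw [← W.map_comp, h1, W.map_id] at h3
  rw [← h3, ← W.map_comp, h2, W.map_id]

/-! ### Ranks and multiplicities -/

lemma par_comm {f : Module.End W.K (W.H X)} (hf : Deg0 f) :
    par (W.isInternal X) * f = f * par (W.isInternal X) := by
  apply gr_ext (W.isInternal X)
  intro i a ha
  rw [Module.End.mul_apply, Module.End.mul_apply, par, scal_apply _ _ (hf i a ha),
    scal_apply _ _ ha, map_smul]

lemma par_mul_self : par (W.isInternal X) * par (W.isInternal X) = 1 := by
  exact par_mul_par _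

lemma map_swap_swap'' (c : W.H (X.prod Y)) :
    W.map (swap X Y) (W.map (swap Y X) c) = c := map_swap_swap' c

/-- The rank of a twisted intersection form on a product in the middle degree. -/
theorem rk_extOp {j : ℕ} {r : ℤ} (hj : (j : ℤ) = U.dim + r) (hr : (S.dim : ℤ) = U.dim + 2 * r)
    (hpar : par (W.isInternal S) ∈ KOp W S S 0) {f : Module.End W.K (W.H U)}
    (hf : f ∈ KOp W U U 0) {h : Module.End W.K (W.H S)} (hh : h ∈ KOp W S S 0) :
    rk W (U.prod S) j j (extOp W f h) = mu (KOp W U S r) (KOp W S U (-r)) h (adj f) := by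
  -- the two linear maps
  have hP : ∀ c ∈ spanCycles W (U.prod S) j, W.corr c ∈ KOp W U S r := by
    intro c hc
    rw [mem_KOp_iff]
    exact ⟨c, by rw [← hj]; exact hc, rfl⟩
  have hQ : ∀ c ∈ spanCycles W (U.prod S) j,
      W.corr (W.map (swap S U) c) ∘ₗ par (W.isInternal S) ∈ KOp W S U (-r) := by
    intro c hc
    refine KOp.cast (KOp.comp (d := 0) (e := -r) ?_ hpar) (by ring)
    rw [mem_KOp_iff]
    refine ⟨W.map (swap S U) c, ?_, rfl⟩
    have := map_span (swap S U) hc
    rwa [show ((j : ℕ) : ℤ) = S.dim + -r by rw [hj, hr]; ring] at this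
  let eP : spanCycles W (U.prod S) j →ₗ[W.K] KOp W U S r :=
    { toFun := fun c => ⟨W.corr (c : W.H _), hP _ c.2⟩
      map_add' := fun a b => Subtype.ext (corr_add W _ _)
      map_smul' := fun a b => Subtype.ext (corr_smul W _ _) }
  let eQ : spanCycles W (U.prod S) j →ₗ[W.K] KOp W S U (-r) :=
    { toFun := fun c => ⟨W.corr (W.map (swap S U) (c : W.H _)) ∘ₗ par (W.isInternal S),
        hQ _ c.2⟩
      map_add' := fun a b => Subtype.ext (by
        change W.corr (W.map (swap S U) ((a : W.H _) + (b : W.H _))) ∘ₗ par (W.isInternal S) = _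
        rw [map_add, corr_add, LinearMap.add_comp]; rfl)
      map_smul' := fun a b => Subtype.ext (by
        change W.corr (W.map (swap S U) (a • (b : W.H _))) ∘ₗ par (W.isInternal S) = _
        rw [map_smul, corr_smul, LinearMap.smul_comp]; rfl) }
  have hePs : Function.Surjective eP := by
    rintro ⟨x, hx⟩
    obtain ⟨γ, hγ, rfl⟩ := mem_KOp_iff.1 hx
    rw [← hj] at hγ
    exact ⟨⟨γ, hγ⟩, rfl⟩
  have heQs : Function.Surjective eQ := by
    rintro ⟨y, hy⟩
    have hy' : y ∘ₗ par (W.isInternal S) ∈ KOp W S U (-r) :=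
      KOp.cast (KOp.comp hy hpar) (by ring)
    obtain ⟨γ, hγ, hγ2⟩ := mem_KOp_iff.1 hy'
    have hγ' : W.map (swap U S) γ ∈ spanCycles W (U.prod S) j := by
      have := map_span (swap U S) hγ
      rwa [show (S.dim : ℤ) + -r = ((j : ℕ) : ℤ) by rw [hj, hr]; ring] at this
    refine ⟨⟨_, hγ'⟩, Subtype.ext ?_⟩
    change W.corr (W.map (swap S U) (W.map (swap U S) γ)) ∘ₗ par (W.isInternal S) = y
    rw [map_swap_swap', hγ2, LinearMap.comp_assoc]
    have h1 : par (W.isInternal S) ∘ₗ par (W.isInternal S) = LinearMap.id := par_mul_self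
    rw [h1, LinearMap.comp_id]
  have hdf : Deg0 (adj f) := deg0_of_mem (adj_mem hf)
  have hdh : Deg0 h := deg0_of_mem hh
  have key : form W (U.prod S) j j (extOp W f h) =
      eQ.dualMap ∘ₗ bt (KOp W U S r) (KOp W S U (-r)) h (adj f) ∘ₗ eP := by
    apply LinearMap.ext
    intro c
    apply LinearMap.ext
    intro d
    have e1 : (eQ.dualMap ∘ₗ bt (KOp W U S r) (KOp W S U (-r)) h (adj f) ∘ₗ eP) c d =
        LinearMap.trace W.K (W.H U) ((W.corr (W.map (swap S U) (d : W.H _)) ∘ₗ
          par (W.isInternal S)) ∘ₗ h ∘ₗ W.corr (c : W.H _) ∘ₗ adj f) := rfl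
    rw [e1, form_apply]
    have hc : extOp W f h (c : W.H _) ∈ W.gr (U.prod S) (2 * j) := by
      have h1 : extOp W f h ∈ KOp W (U.prod S) (U.prod S) 0 :=
        KOp.cast (KOp.ext hf hh) (by ring)
      exact deg0_of_mem h1 _ _ (span_gr c.2)
    rw [tr_mul_eq_trace' hc, corr_extOp hdf hdh]
    have e2 : par (W.isInternal S) ∘ₗ (h ∘ₗ W.corr (c : W.H _) ∘ₗ adj f) ∘ₗ
        W.corr (W.map (swap S U) (d : W.H _)) =
        (par (W.isInternal S) ∘ₗ (h ∘ₗ W.corr (c : W.H _) ∘ₗ adj f)) ∘ₗ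
        W.corr (W.map (swap S U) (d : W.H _)) := rfl
    rw [e2, LinearMap.trace_comp_comm']
    rfl
  rw [rk, mu, key]
  have h1 : LinearMap.range (eQ.dualMap ∘ₗ bt (KOp W U S r) (KOp W S U (-r)) h (adj f) ∘ₗ eP) =
      (LinearMap.range (bt (KOp W U S r) (KOp W S U (-r)) h (adj f))).map eQ.dualMap := by
    rw [← LinearMap.comp_assoc, LinearMap.range_comp_of_range_eq_top _
      (LinearMap.range_eq_top.2 hePs), LinearMap.range_comp]
  rw [h1]
  have hinj : Function.Injective eQ.dualMap :=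
    LinearMap.dualMap_injective_of_surjective heQs
  exact LinearEquiv.finrank_eq (Submodule.equivMapOfInjective _ hinj _).symm

lemma extOp_one' : extOp W (1 : Module.End W.K (W.H Y)) (1 : Module.End W.K (W.H Z)) = 1 :=
  extOp_one

theorem kRank_prod {j : ℕ} {r : ℤ} (hj : (j : ℤ) = U.dim + r)
    (hr : (S.dim : ℤ) = U.dim + 2 * r) (hpar : par (W.isInternal S) ∈ KOp W S S 0) :
    kRank W (U.prod S) j j = mu (KOp W U S r) (KOp W S U (-r)) 1 1 := by
  have := rk_extOp hj hr hpar (KAlg W U).one_mem (KAlg W S).one_mem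
  rw [extOp_one, adj_one] at this
  exact this

theorem kRank_self (hpar : par (W.isInternal U) ∈ KOp W U U 0) :
    kRank W (U.prod U) U.dim U.dim = nu (KAlg W U) := by
  have := kRank_prod (U := U) (S := U) (j := U.dim) (r := 0) (by ring) (by ring) hpar
  rw [this, nu]
  simp only [neg_zero]
  rfl

end Pool.Agent.Y163
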