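import Pool.Agent.Y163.GeoB

/-!
# The multiplicity bound for products
-/

set_option linter.unusedVariables false
set_option linter.unusedSectionVars false

open CategoryTheory AlgebraicGeometry CategoryTheory.Limits

universe u v

namespace Pool.Agent.Y163

open Pool.Agent.H914 Pool.Agent.H447 Pool.Agent.W534 VarClass Obj WeilCohomology Module

variable {k : Type u} [Field k] {𝒱 : VarClass k} {ops : CycleOps 𝒱}
  {W : WeilCohomology.{u, v} ops} {X Y Z U S : 𝒱.Obj}

/-- Induction for triple products. -/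
lemma triple_induction {p : W.H (X.prod (Y.prod Z)) → Prop} (hadd : ∀ a b, p a → p b → p (a + b))
    (h : ∀ i j l, ∀ a ∈ W.gr X i, ∀ b ∈ W.gr Y j, ∀ c ∈ W.gr Z l,
      p (W.map (fst X (Y.prod Z)) a * W.map (snd X (Y.prod Z))
        (W.map (fst Y Z) b * W.map (snd Y Z) c))) (x : W.H (X.prod (Y.prod Z))) : p x := by
  refine W.kunneth_induction (p := p) hadd ?_ x
  intro i _ a ha w _
  refine W.kunneth_induction (p := fun w => p (W.map (fst X (Y.prod Z)) a *
    W.map (snd X (Y.prod Z)) w)) ?_ ?_ w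
  · intro b c hb hc
    rw [map_add, mul_add]
    exact hadd _ _ hb hc
  · intro j l b hb c hc
    exact h i j l a ha b hb c hc

/-- The exchange of the outer factors of `U × (Y × U)`. -/
noncomputable def sig (U Y : 𝒱.Obj) : U.prod (Y.prod U) ⟶ U.prod (Y.prod U) :=
  Obj.lift (snd U (Y.prod U) ≫ snd Y U) (Obj.lift (snd U (Y.prod U) ≫ fst Y U)
    (fst U (Y.prod U)))

lemma sig_fst : sig U Y ≫ fst U (Y.prod U) = snd U (Y.prod U) ≫ snd Y U := Obj.lift_fst _ _

lemma sig_snd_fst : sig U Y ≫ snd U (Y.prod U) ≫ fst Y U = snd U (Y.prod U) ≫ fst Y U := by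
  rw [← Category.assoc, sig, Obj.lift_snd, Obj.lift_fst]

lemma sig_snd_snd : sig U Y ≫ snd U (Y.prod U) ≫ snd Y U = fst U (Y.prod U) := by
  rw [← Category.assoc, sig, Obj.lift_snd, Obj.lift_snd]

lemma sig_sig : sig U Y ≫ sig U Y = 𝟙 (U.prod (Y.prod U)) := by
  apply prod_hom_ext
  · rw [Category.assoc, sig_fst, sig_snd_snd, Category.id_comp]
  · rw [Category.id_comp]
    apply prod_hom_ext
    · rw [Category.assoc, Category.assoc, sig_snd_fst, sig_snd_fst]
    · rw [Category.assoc, Category.assoc, sig_snd_snd, sig_fst]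

lemma map_sig {i j l : ℕ} {a : W.H U} (ha : a ∈ W.gr U i) {b : W.H Y} (hb : b ∈ W.gr Y j)
    {c : W.H U} (hc : c ∈ W.gr U l) :
    W.map (sig U Y) (W.map (fst U (Y.prod U)) a * W.map (snd U (Y.prod U))
        (W.map (fst Y U) b * W.map (snd Y U) c)) =
      (-1 : W.K) ^ (j * l + i * l + i * j) • (W.map (fst U (Y.prod U)) c *
        W.map (snd U (Y.prod U)) (W.map (fst Y U) b * W.map (snd Y U) a)) := by
  have e1 : ∀ x : W.H U, W.map (sig U Y) (W.map (fst U (Y.prod U)) x) =
      W.map (snd U (Y.prod U)) (W.map (snd Y U) x) := by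
    intro x
    rw [← W.map_comp, sig_fst, W.map_comp]
  have e2 : ∀ x : W.H Y, W.map (sig U Y) (W.map (snd U (Y.prod U)) (W.map (fst Y U) x)) =
      W.map (snd U (Y.prod U)) (W.map (fst Y U) x) := by
    intro x
    rw [← W.map_comp, ← W.map_comp, Category.assoc, sig_snd_fst, W.map_comp]
  have e3 : ∀ x : W.H U, W.map (sig U Y) (W.map (snd U (Y.prod U)) (W.map (snd Y U) x)) =
      W.map (fst U (Y.prod U)) x := by
    intro x
    rw [← W.map_comp, ← W.map_comp, Category.assoc, sig_snd_snd]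
  rw [map_mul (W.map (sig U Y)), map_mul (W.map (snd U (Y.prod U))),
    map_mul (W.map (sig U Y)), e1, e2, e3, map_mul (W.map (snd U (Y.prod U)))]
  set A := W.map (snd U (Y.prod U)) (W.map (snd Y U) a) with hA
  set B := W.map (snd U (Y.prod U)) (W.map (fst Y U) b) with hB
  set C := W.map (fst U (Y.prod U)) c with hC
  have hA' : A ∈ W.gr _ i := W.map_mem _ (W.map_mem _ ha)
  have hB' : B ∈ W.gr _ j := W.map_mem _ (W.map_mem _ hb)
  have hC' : C ∈ W.gr _ l := W.map_mem _ hc
  rw [W.comm hB' hC', mul_smul_comm, ← mul_assoc, W.comm hA' hC', smul_mul_assoc, smul_smul,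
    mul_assoc, W.comm hA' hB', mul_smul_comm, smul_smul, ← pow_add, ← pow_add]

lemma sig_extOp {f g : Module.End W.K (W.H U)} {π : Module.End W.K (W.H Y)}
    (hf : Deg0 f) (hg : Deg0 g) (hπ : Deg0 π) (x : W.H (U.prod (Y.prod U))) :
    W.map (sig U Y) (extOp W f (extOp W π g) x) =
      extOp W g (extOp W π f) (W.map (sig U Y) x) := by
  refine triple_induction (p := fun x => W.map (sig U Y) (extOp W f (extOp W π g) x) =
      extOp W g (extOp W π f) (W.map (sig U Y) x)) ?_ ?_ x
  · intro a b ha hb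
    rw [map_add, map_add, map_add, map_add, ha, hb]
  · intro i j l a ha b hb c hc
    rw [extOp_tmul, extOp_tmul, map_sig (hf i a ha) (hπ j b hb) (hg l c hc), map_sig ha hb hc,
      map_smul, extOp_tmul, extOp_tmul]

/-- The morphism from `U × (Y × U)` to `Y × (U × U)`. -/
noncomputable def the (U Y : 𝒱.Obj) : U.prod (Y.prod U) ⟶ Y.prod (U.prod U) :=
  Obj.lift (snd U (Y.prod U) ≫ fst Y U) (Obj.lift (fst U (Y.prod U))
    (snd U (Y.prod U) ≫ snd Y U))

/-- The inverse of the morphism `the`. -/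
noncomputable def the' (U Y : 𝒱.Obj) : Y.prod (U.prod U) ⟶ U.prod (Y.prod U) :=
  Obj.lift (snd Y (U.prod U) ≫ fst U U) (Obj.lift (fst Y (U.prod U))
    (snd Y (U.prod U) ≫ snd U U))

lemma the_fst : the U Y ≫ fst Y (U.prod U) = snd U (Y.prod U) ≫ fst Y U := Obj.lift_fst _ _

lemma the_snd_fst : the U Y ≫ snd Y (U.prod U) ≫ fst U U = fst U (Y.prod U) := by
  rw [← Category.assoc, the, Obj.lift_snd, Obj.lift_fst]

lemma the_snd_snd : the U Y ≫ snd Y (U.prod U) ≫ snd U U = snd U (Y.prod U) ≫ snd Y U := by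
  rw [← Category.assoc, the, Obj.lift_snd, Obj.lift_snd]

lemma the'_fst : the' U Y ≫ fst U (Y.prod U) = snd Y (U.prod U) ≫ fst U U := Obj.lift_fst _ _

lemma the'_snd_fst : the' U Y ≫ snd U (Y.prod U) ≫ fst Y U = fst Y (U.prod U) := by
  rw [← Category.assoc, the', Obj.lift_snd, Obj.lift_fst]

lemma the'_snd_snd : the' U Y ≫ snd U (Y.prod U) ≫ snd Y U = snd Y (U.prod U) ≫ snd U U := by
  rw [← Category.assoc, the', Obj.lift_snd, Obj.lift_snd]

lemma the_the' : the U Y ≫ the' U Y = 𝟙 _ := by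
  apply prod_hom_ext
  · rw [Category.assoc, the'_fst, the_snd_fst, Category.id_comp]
  · rw [Category.id_comp]
    apply prod_hom_ext
    · rw [Category.assoc, Category.assoc, the'_snd_fst, the_fst]
    · rw [Category.assoc, Category.assoc, the'_snd_snd, the_snd_snd]

lemma the'_the : the' U Y ≫ the U Y = 𝟙 _ := by
  apply prod_hom_ext
  · rw [Category.assoc, the_fst, the'_snd_fst, Category.id_comp]
  · rw [Category.id_comp]
    apply prod_hom_ext
    · rw [Category.assoc, Category.assoc, the_snd_fst, the'_fst]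
    · rw [Category.assoc, Category.assoc, the_snd_snd, the'_snd_snd]

lemma map_the {i j l : ℕ} {a : W.H Y} (ha : a ∈ W.gr Y i) {b : W.H U} (hb : b ∈ W.gr U j)
    (c : W.H U) :
    W.map (the U Y) (W.map (fst Y (U.prod U)) a * W.map (snd Y (U.prod U))
        (W.map (fst U U) b * W.map (snd U U) c)) =
      (-1 : W.K) ^ (i * j) • (W.map (fst U (Y.prod U)) b *
        W.map (snd U (Y.prod U)) (W.map (fst Y U) a * W.map (snd Y U) c)) := by
  have e1 : ∀ x : W.H Y, W.map (the U Y) (W.map (fst Y (U.prod U)) x) =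
      W.map (snd U (Y.prod U)) (W.map (fst Y U) x) := by
    intro x
    rw [← W.map_comp, the_fst, W.map_comp]
  have e2 : ∀ x : W.H U, W.map (the U Y) (W.map (snd Y (U.prod U)) (W.map (fst U U) x)) =
      W.map (fst U (Y.prod U)) x := by
    intro x
    rw [← W.map_comp, ← W.map_comp, Category.assoc, the_snd_fst]
  have e3 : ∀ x : W.H U, W.map (the U Y) (W.map (snd Y (U.prod U)) (W.map (snd U U) x)) =
      W.map (snd U (Y.prod U)) (W.map (snd Y U) x) := by
    intro x
    rw [← W.map_comp, ← W.map_comp, Category.assoc, the_snd_snd, W.map_comp]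
  rw [map_mul (W.map (the U Y)), map_mul (W.map (snd Y (U.prod U))),
    map_mul (W.map (the U Y)), e1, e2, e3, map_mul (W.map (snd U (Y.prod U)))]
  set A := W.map (snd U (Y.prod U)) (W.map (fst Y U) a) with hA
  set B := W.map (fst U (Y.prod U)) b with hB
  have hA' : A ∈ W.gr _ i := W.map_mem _ (W.map_mem _ ha)
  have hB' : B ∈ W.gr _ j := W.map_mem _ hb
  rw [← mul_assoc, W.comm hA' hB', smul_mul_assoc, mul_assoc]

lemma the_extOp {π : Module.End W.K (W.H Y)} (hπ : Deg0 π) (x : W.H (Y.prod (U.prod U))) :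
    W.map (the U Y) (extOp W π (1 : Module.End W.K (W.H (U.prod U))) x) =
      extOp W (1 : Module.End W.K (W.H U)) (extOp W π (1 : Module.End W.K (W.H U)))
        (W.map (the U Y) x) := by
  refine triple_induction (p := fun x => W.map (the U Y)
    (extOp W π (1 : Module.End W.K (W.H (U.prod U))) x) =
      extOp W (1 : Module.End W.K (W.H U)) (extOp W π (1 : Module.End W.K (W.H U)))
        (W.map (the U Y) x)) ?_ ?_ x
  · intro a b ha hb
    rw [map_add, map_add, map_add, map_add, ha, hb]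
  · intro i j l a ha b hb c hc
    rw [extOp_tmul, Module.End.one_apply, map_the (l := l) (hπ i a ha) hb c,
      map_the (l := l) ha hb c, map_smul, extOp_tmul, extOp_tmul, Module.End.one_apply,
      Module.End.one_apply]

/-- **The multiplicity bound.** -/
theorem rk_le {q : ℕ} (hq : Y.dim = 2 * q) [IsAlgClosed W.K]
    (hpar : par (W.isInternal (Y.prod U)) ∈ KOp W (Y.prod U) (Y.prod U) 0)
    {π : Module.End W.K (W.H Y)} (hπ : π ∈ KOp W Y Y 0) (hππ : π * π = π) :
    rk W (U.prod (Y.prod U)) (U.dim + q) (U.dim + q)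
      (extOp W (1 : Module.End W.K (W.H U)) (extOp W π (1 : Module.End W.K (W.H U)))) ≤
      finrank W.K (LinearMap.range π) * nu (KAlg W U) := by
  obtain ⟨w⟩ := exists_wed (KAlg W U)
  have hj : ((U.dim + q : ℕ) : ℤ) = U.dim + (q : ℤ) := by push_cast; ring
  have hr : ((Y.prod U).dim : ℤ) = U.dim + 2 * (q : ℤ) := by
    rw [dim_prod, hq]; push_cast; ring
  have hO : ∀ g : Module.End W.K (W.H U), g ∈ KOp W U U 0 →
      extOp W π g ∈ KOp W (Y.prod U) (Y.prod U) 0 :=
    fun g hg => KOp.cast (KOp.ext hπ hg) (by ring)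
  have hOi : ∀ g : Module.End W.K (W.H U), g * g = g → extOp W π g * extOp W π g = extOp W π g :=
    fun g hg => by rw [extOp_mul, hππ, hg]
  set P := KOp W U (Y.prod U) (q : ℤ) with hP
  set Q := KOp W (Y.prod U) U (-(q : ℤ)) with hQ
  have D : Duo (KAlg W U) (KAlg W (Y.prod U)) P Q := duo W U (Y.prod U) q
  have hrk : ∀ f ∈ KOp W U U 0, ∀ g ∈ KOp W U U 0,
      rk W (U.prod (Y.prod U)) (U.dim + q) (U.dim + q) (extOp W f (extOp W π g)) =
        mu P Q (extOp W π g) (adj f) := fun f hf g hg => rk_extOp hj hr hpar hf (hO g hg)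
  have hsym : ∀ f ∈ KOp W U U 0, ∀ g ∈ KOp W U U 0,
      mu P Q (extOp W π g) (adj f) = mu P Q (extOp W π f) (adj g) := by
    intro f hf g hg
    rw [← hrk f hf g hg, ← hrk g hg f hf]
    exact rk_iso (sig U Y) (sig U Y) sig_sig sig_sig rfl
      (sig_extOp (deg0_of_mem hf) (deg0_of_mem hg) (deg0_of_mem hπ)) _ _
  have hem : ∀ i, w.e i ∈ KOp W U U 0 := fun i => w.e_mem i
  have hei : ∀ i, w.e i * w.e i = w.e i := fun i => by rw [w.e_mul, if_pos rfl]
  have hsym' : ∀ i j, mu P Q (extOp W π (w.e i)) (w.e j) =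
      mu P Q (extOp W π (adj (w.e j))) (adj (w.e i)) := by
    intro i j
    have := hsym (adj (w.e j)) (adj_mem (hem j)) (w.e i) (hem i)
    rw [adj_adj (hem j)] at this
    exact this
  have h0 : rk W (U.prod (Y.prod U)) (U.dim + q) (U.dim + q)
      (extOp W (1 : Module.End W.K (W.H U)) (extOp W π (1 : Module.End W.K (W.H U)))) ≤
      ∑ i, ∑ j, mu P Q (extOp W π (w.e i)) (w.e j) := by
    rw [hrk 1 (KAlg W U).one_mem 1 (KAlg W U).one_mem, adj_one]
    have h1 := mu_sum_le P Q Finset.univ Finset.univ (fun i => extOp W π (w.e i)) w.e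
    rw [← extOp_sum', w.e_sum] at h1
    exact h1
  refine h0.trans (w.schur _ _ ?_ ?_ ?_ ?_)
  · intro i j
    exact w.mu_le D (hO _ (hem i)) j
  · intro i j
    rw [hsym', hsym' (w.rep (w.κ i)) j]
    obtain ⟨u, hu, v, hv, heu, hue, hev, hve, huv, hvu⟩ :=
      w.conn i (w.rep (w.κ i)) (w.κ_rep _).symm
    refine mu_conn_gen D (u := adj v) (v := adj u) (adj_mem hv) (adj_mem hu) ?_ ?_
      (hO _ (adj_mem (hem j)))
    · rw [← adj_mul, hev]
    · have h1 := adj_rad huv
      rw [adj_sub, adj_mul] at h1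
      exact h1
  · intro i
    have h1 := sum_mu_mul_rank_le D w.prims (hO _ (hem i)) (hOi _ (hei i))
    rw [finrank_range_extOp] at h1
    exact h1
  · intro j
    have h1 := sum_mu_mul_rank_le D (prims_adj w.prims) (hO _ (adj_mem (hem j)))
      (hOi _ (by rw [← adj_mul, hei]))
    rw [finrank_range_extOp, finrank_range_adj] at h1
    refine le_trans (le_of_eq ?_) h1
    apply Finset.sum_congr rfl
    intro c _
    rw [hsym', finrank_range_adj]

/-- The multiplicities of an idempotent correspondence of `Y` in the square of `U`. -/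
theorem mu_le {q : ℕ} (hq : Y.dim = 2 * q) [IsAlgClosed W.K]
    (hpar : par (W.isInternal (Y.prod U)) ∈ KOp W (Y.prod U) (Y.prod U) 0)
    (hpar' : par (W.isInternal (U.prod U)) ∈ KOp W (U.prod U) (U.prod U) 0)
    {e : Module.End W.K (W.H Y)} (he : e ∈ KOp W Y Y 0) (hee : e * e = e) {r : ℤ}
    (hr : r = (U.dim : ℤ) - q) :
    mu (KOp W Y (U.prod U) r) (KOp W (U.prod U) Y (-r)) 1 e ≤
      finrank W.K (LinearMap.range e) * nu (KAlg W U) := by
  have hj : ((U.dim + q : ℕ) : ℤ) = Y.dim + r := by rw [hq, hr]; push_cast; ring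
  have hr' : ((U.prod U).dim : ℤ) = Y.dim + 2 * r := by
    rw [dim_prod, hq, hr]; push_cast; ring
  have h1 := rk_extOp (W := W) hj hr' hpar' (adj_mem he) (KAlg W (U.prod U)).one_mem
  rw [adj_adj he] at h1
  rw [← h1]
  have h2 := rk_iso (W := W) (the U Y) (the' U Y) the_the' the'_the
    (by simp only [dim_prod]; ring) (the_extOp (deg0_of_mem (adj_mem he))) (U.dim + q) (U.dim + q)
  rw [h2]
  have h3 := rk_le (U := U) hq hpar (adj_mem he) (by rw [← adj_mul, hee])
  rw [finrank_range_adj] at h3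
  exact h3

end Pool.Agent.Y163
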