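import Mathlib

/-!
# A limit law for sequences
-/

namespace Pool.Agent.Y163

open Filter Topology Finset

/-- The data at one level. -/
structure Level (α z : ℕ → ℕ) (b k : ℕ) where
  /-- the classes -/
  C : Type
  fC : Fintype C
  /-- multiplicities -/
  m : C → ℕ
  /-- ranks -/
  s : C → ℕ
  /-- dimensions -/
  t : C → ℕ
  /-- numbers of homomorphisms -/
  N : ℕ → C → ℕ
  m_pos : ∀ c, 0 < m c
  sum_ms : ∑ c, m c * s c ≤ b ^ (k + 1)
  N_le : ∀ M c, N M c ≤ s c * α M
  le_sum : ∀ M, α (k + M + 1) ≤ ∑ c, m c * N M c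
  sum_le : ∀ M, ∑ c, N M c * t c ≤ z M
  z_le : z k ≤ (∑ c, s c * t c) * α k

attribute [instance] Level.fC

section

variable {α : ℕ → ℕ} {b e : ℕ}

/-- Log-convexity, boundedness of the ratios and exponential growth determine the limit of the
ratios. -/
lemma tendsto_ratio (hb : 0 < b) (h1 : ∀ n, α (n + 1) ≤ b * α n)
    (h2 : ∀ n, α (n + 1) ^ 2 ≤ α n * α (n + 2)) (h3 : ∀ n, b ^ (n + 1) ≤ α n * (n + 2) ^ e) :
    Tendsto (fun n => (α (n + 1) : ℝ) / α n) atTop (𝓝 b) := by
  have hpos : ∀ n, 0 < α n := by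
    intro n
    apply Nat.pos_of_ne_zero
    intro h
    have := h3 n
    rw [h, zero_mul] at this
    exact absurd (pow_pos hb (n + 1)) (by omega)
  have hposR : ∀ n, (0 : ℝ) < α n := fun n => by exact_mod_cast hpos n
  set ρ : ℕ → ℝ := fun n => (α (n + 1) : ℝ) / α n with hρ
  have hmono : Monotone ρ := by
    apply monotone_nat_of_le_succ
    intro n
    simp only [hρ]
    rw [div_le_div_iff₀ (hposR n) (hposR (n + 1))]
    have := h2 n
    have h4 : ((α (n + 1) : ℝ)) ^ 2 ≤ α n * α (n + 2) := by exact_mod_cast this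
    nlinarith
  have hle : ∀ n, ρ n ≤ b := by
    intro n
    simp only [hρ]
    rw [div_le_iff₀ (hposR n)]
    exact_mod_cast h1 n
  have hbdd : BddAbove (Set.range ρ) := ⟨b, by rintro _ ⟨n, rfl⟩; exact hle n⟩
  have hlim := tendsto_atTop_ciSup hmono hbdd
  set L := ⨆ n, ρ n with hL
  have hρL : ∀ n, ρ n ≤ L := fun n => le_ciSup hbdd n
  have hLb : L ≤ b := ciSup_le hle
  have hL0 : 0 < L := lt_of_lt_of_le (div_pos (hposR 1) (hposR 0)) (hρL 0)
  have hgrow : ∀ n, (α n : ℝ) ≤ α 0 * L ^ n := by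
    intro n
    induction n with
    | zero => simp
    | succ n ih =>
      have h4 : (α (n + 1) : ℝ) = ρ n * α n := by
        simp only [hρ]
        have := (hposR n).ne'
        field_simp
      rw [h4, pow_succ]
      calc ρ n * α n ≤ L * (α 0 * L ^ n) := by
            apply mul_le_mul (hρL n) ih (hposR n).le hL0.le
        _ = α 0 * (L ^ n * L) := by ring
  have hLeq : L = b := by
    by_contra hne
    have hlt : L < b := lt_of_le_of_ne hLb hne
    -- exponential growth beats polynomial growth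
    have h4 : ∀ n : ℕ, ((b : ℝ) / L) ^ n * b ≤ α 0 * ((n : ℝ) + 2) ^ e := by
      intro n
      have h5 : (b : ℝ) ^ (n + 1) ≤ α n * ((n : ℝ) + 2) ^ e := by exact_mod_cast h3 n
      have h6 : (b : ℝ) ^ (n + 1) ≤ α 0 * L ^ n * ((n : ℝ) + 2) ^ e :=
        h5.trans (mul_le_mul_of_nonneg_right (hgrow n) (by positivity))
      rw [div_pow, div_mul_eq_mul_div, div_le_iff₀ (pow_pos hL0 n)]
      calc (b : ℝ) ^ n * b = b ^ (n + 1) := by ring
        _ ≤ α 0 * L ^ n * ((n : ℝ) + 2) ^ e := h6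
        _ = _ := by ring
    have hr : 1 < (b : ℝ) / L := (one_lt_div hL0).2 hlt
    have h5 : Tendsto (fun n : ℕ => (n : ℝ) ^ e / ((b : ℝ) / L) ^ n) atTop (𝓝 0) :=
      tendsto_pow_const_div_const_pow_of_one_lt e hr
    have h6 : Tendsto (fun n : ℕ => (((n + 2 : ℕ) : ℝ)) ^ e / ((b : ℝ) / L) ^ (n + 2)) atTop
        (𝓝 0) := h5.comp (tendsto_add_atTop_nat 2)
    have hc : 0 < (b : ℝ) / (α 0 * ((b : ℝ) / L) ^ 2) := by
      have := hposR 0
      have hb' : (0 : ℝ) < b := by exact_mod_cast hb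
      positivity
    obtain ⟨n, hn⟩ := (h6.eventually (gt_mem_nhds hc)).exists
    have h7 := h4 n
    have hr0 : (0 : ℝ) < (b : ℝ) / L := by linarith
    rw [div_lt_div_iff₀ (pow_pos hr0 _) (mul_pos (hposR 0) (pow_pos hr0 _)), pow_add] at hn
    push_cast at hn
    have h8 : ((b : ℝ) / L) ^ 2 > 0 := pow_pos hr0 _
    nlinarith
  rw [← hLeq]
  exact hlim

lemma tendsto_ratio_pow (hpos : ∀ n, 0 < α n)
    (h : Tendsto (fun n => (α (n + 1) : ℝ) / α n) atTop (𝓝 b)) (j : ℕ) :
    Tendsto (fun n => (α (n + j) : ℝ) / α n) atTop (𝓝 ((b : ℝ) ^ j)) := by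
  have hposR : ∀ n, (0 : ℝ) < α n := fun n => by exact_mod_cast hpos n
  induction j with
  | zero =>
    have : (fun n => (α (n + 0) : ℝ) / α n) = fun _ => 1 := by
      funext n
      exact div_self (hposR n).ne'
    rw [this, pow_zero]
    exact tendsto_const_nhds
  | succ j ih =>
    have h1 : (fun n => (α (n + (j + 1)) : ℝ) / α n) =
        fun n => ((α ((n + j) + 1) : ℝ) / α (n + j)) * ((α (n + j) : ℝ) / α n) := by
      funext n
      have := (hposR (n + j)).ne'
      have := (hposR n).ne'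
      rw [add_assoc]
      field_simp
    rw [h1, pow_succ, mul_comm ((b : ℝ) ^ j)]
    exact (h.comp (tendsto_add_atTop_nat j)).mul ih

/-- **The limit law.** -/
theorem limit_law {z : ℕ → ℕ} (hb : 0 < b) (h1 : ∀ n, α (n + 1) ≤ b * α n)
    (h2 : ∀ n, α (n + 1) ^ 2 ≤ α n * α (n + 2)) (h3 : ∀ n, b ^ (n + 1) ≤ α n * (n + 2) ^ e)
    (lev : ∀ k, Level α z b k) :
    (∃ D : ℕ, (∀ n, z n ≤ D * α n) ∧ Tendsto (fun n => (z n : ℝ) / α n) atTop (𝓝 D)) ∨
      Tendsto (fun n => (z n : ℝ) / α n) atTop atTop := by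
  have hpos : ∀ n, 0 < α n := by
    intro n
    apply Nat.pos_of_ne_zero
    intro h
    have := h3 n
    rw [h, zero_mul] at this
    exact absurd (pow_pos hb (n + 1)) (by omega)
  have hposR : ∀ n, (0 : ℝ) < α n := fun n => by exact_mod_cast hpos n
  have hlim := tendsto_ratio hb h1 h2 h3
  let Dk : ℕ → ℕ := fun k => ∑ c, (lev k).s c * (lev k).t c
  -- the lower bound at level `k`
  have key : ∀ k, ∃ δ : ℕ → ℝ, Tendsto δ atTop (𝓝 0) ∧
      ∀ M, (Dk k : ℝ) - δ M ≤ (z M : ℝ) / α M := by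
    intro k
    set l := lev k with hl
    set T : ℝ := ∑ c, (l.t c : ℝ) with hT
    set η : ℕ → ℝ := fun M => (b : ℝ) ^ (k + 1) - (α (M + (k + 1)) : ℝ) / α M with hη
    have hη0 : Tendsto η atTop (𝓝 0) := by
      have := (tendsto_ratio_pow hpos hlim (k + 1)).const_sub ((b : ℝ) ^ (k + 1))
      rwa [sub_self] at this
    refine ⟨fun M => η M * T, by simpa using hη0.mul_const T, fun M => ?_⟩
    have hN : ∀ c, ((l.s c : ℝ) - η M) * α M ≤ l.N M c := by
      intro c
      have e1 : ∀ c, (0 : ℝ) ≤ l.s c * α M - l.N M c := by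
        intro c
        have := l.N_le M c
        have h4 : (l.N M c : ℝ) ≤ l.s c * α M := by exact_mod_cast this
        linarith
      have e2 : (l.s c : ℝ) * α M - l.N M c ≤ ∑ c, (l.m c : ℝ) * (l.s c * α M - l.N M c) := by
        calc (l.s c : ℝ) * α M - l.N M c ≤ l.m c * (l.s c * α M - l.N M c) := by
              have h5 : (1 : ℝ) ≤ l.m c := by exact_mod_cast l.m_pos c
              nlinarith [e1 c]
          _ ≤ ∑ c, (l.m c : ℝ) * (l.s c * α M - l.N M c) :=
              Finset.single_le_sum (f := fun c => (l.m c : ℝ) * (l.s c * α M - l.N M c))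
                (fun c _ => mul_nonneg (Nat.cast_nonneg _) (e1 c)) (Finset.mem_univ c)
      have e3 : ∑ c, (l.m c : ℝ) * (l.s c * α M - l.N M c) =
          (∑ c, (l.m c : ℝ) * l.s c) * α M - ∑ c, (l.m c : ℝ) * l.N M c := by
        rw [Finset.sum_mul, ← Finset.sum_sub_distrib]
        apply Finset.sum_congr rfl
        intro c _
        ring
      have e4 : (∑ c, (l.m c : ℝ) * l.s c) ≤ (b : ℝ) ^ (k + 1) := by exact_mod_cast l.sum_ms
      have e5 : (α (M + (k + 1)) : ℝ) ≤ ∑ c, (l.m c : ℝ) * l.N M c := by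
        have := l.le_sum M
        rw [show k + M + 1 = M + (k + 1) by ring] at this
        exact_mod_cast this
      have e6 : η M * α M = (b : ℝ) ^ (k + 1) * α M - α (M + (k + 1)) := by
        simp only [hη]
        have := (hposR M).ne'
        field_simp
      have e7 : (∑ c, (l.m c : ℝ) * l.s c) * α M ≤ (b : ℝ) ^ (k + 1) * α M :=
        mul_le_mul_of_nonneg_right e4 (hposR M).le
      have e8 : ((l.s c : ℝ) - η M) * α M = l.s c * α M - η M * α M := by ring
      rw [e8, e6]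
      linarith
    rw [le_div_iff₀ (hposR M)]
    have h5 : (∑ c, (l.N M c : ℝ) * l.t c) ≤ z M := by exact_mod_cast l.sum_le M
    refine le_trans ?_ h5
    have h6 : ((Dk k : ℝ) - η M * T) * α M = ∑ c, ((l.s c : ℝ) - η M) * α M * l.t c := by
      have : (Dk k : ℝ) = ∑ c, (l.s c : ℝ) * l.t c := by
        simp only [Dk]
        push_cast
        rfl
      rw [this, hT, Finset.mul_sum, ← Finset.sum_sub_distrib, Finset.sum_mul]
      apply Finset.sum_congr rfl
      intro c _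
      ring
    rw [h6]
    exact Finset.sum_le_sum fun c _ => mul_le_mul_of_nonneg_right (hN c) (Nat.cast_nonneg _)
  have hub : ∀ k, (z k : ℝ) / α k ≤ Dk k := by
    intro k
    rw [div_le_iff₀ (hposR k)]
    exact_mod_cast (lev k).z_le
  by_cases hbd : ∃ A, ∀ k, Dk k ≤ A
  · obtain ⟨A, hA⟩ := hbd
    -- a level with the largest value
    obtain ⟨k0, hk0⟩ : ∃ k0, ∀ k, Dk k ≤ Dk k0 := by
      have hfin : (Set.range Dk).Finite := (Set.finite_Iic A).subset (by
        rintro _ ⟨k, rfl⟩; exact hA k)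
      obtain ⟨k0, hk0⟩ := Set.exists_max_image (Set.range Dk) id hfin ⟨_, 0, rfl⟩
      obtain ⟨⟨k1, rfl⟩, h⟩ := hk0
      exact ⟨k1, fun k => h _ ⟨k, rfl⟩⟩
    left
    refine ⟨Dk k0, fun n => ?_, ?_⟩
    · exact ((lev n).z_le).trans (Nat.mul_le_mul_right _ (hk0 n))
    · obtain ⟨δ, hδ, h4⟩ := key k0
      refine tendsto_of_tendsto_of_tendsto_of_le_of_le (g := fun M => (Dk k0 : ℝ) - δ M)
        (h := fun _ => (Dk k0 : ℝ)) ?_ tendsto_const_nhds h4 (fun M => ?_)
      · have := hδ.const_sub (Dk k0 : ℝ)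
        rwa [sub_zero] at this
      · have h5 : (Dk M : ℝ) ≤ Dk k0 := by exact_mod_cast hk0 M
        exact (hub M).trans h5
  · right
    push Not at hbd
    rw [tendsto_atTop]
    intro A
    obtain ⟨k, hk⟩ := hbd (⌈A⌉₊ + 1)
    obtain ⟨δ, hδ, h4⟩ := key k
    have h5 : ∀ᶠ M in atTop, δ M < 1 := hδ.eventually (gt_mem_nhds one_pos)
    filter_upwards [h5] with M hM
    refine le_trans ?_ (h4 M)
    have h6 : A ≤ ⌈A⌉₊ := Nat.le_ceil A
    have h7 : ((⌈A⌉₊ + 1 : ℕ) : ℝ) < Dk k := by exact_mod_cast hk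
    push_cast at h7
    linarith

end

end Pool.Agent.Y163
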