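import Pool.Agent.Y163.Pow
import Pool.Agent.Y163.Lim

/-!
# The index law for families of subspaces stable under algebraic correspondences
-/

set_option linter.unusedVariables false
set_option linter.unusedSectionVars false
set_option linter.unusedTactic false

open CategoryTheory AlgebraicGeometry CategoryTheory.Limits

universe u v

namespace Pool.Agent.Y163

open Pool.Agent.H914 Pool.Agent.H447 Pool.Agent.W534 VarClass Obj WeilCohomology Module

variable {k : Type u} [Field k] {𝒱 : VarClass k} {ops : CycleOps 𝒱}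
  {W : WeilCohomology.{u, v} ops} {X Y Z U S X' Y' : 𝒱.Obj}

/-! ### Isomorphisms -/

/-- Products of isomorphisms. -/
noncomputable def prodIso (e : X ≅ X') (f : Y ≅ Y') : X.prod Y ≅ X'.prod Y' where
  hom := Obj.lift (fst X Y ≫ e.hom) (snd X Y ≫ f.hom)
  inv := Obj.lift (fst X' Y' ≫ e.inv) (snd X' Y' ≫ f.inv)
  hom_inv_id := by
    apply prod_hom_ext
    · rw [Category.assoc, Obj.lift_fst, ← Category.assoc, Obj.lift_fst, Category.assoc,
        e.hom_inv_id, Category.comp_id, Category.id_comp]
    · rw [Category.assoc, Obj.lift_snd, ← Category.assoc, Obj.lift_snd, Category.assoc,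
        f.hom_inv_id, Category.comp_id, Category.id_comp]
  inv_hom_id := by
    apply prod_hom_ext
    · rw [Category.assoc, Obj.lift_fst, ← Category.assoc, Obj.lift_fst, Category.assoc,
        e.inv_hom_id, Category.comp_id, Category.id_comp]
    · rw [Category.assoc, Obj.lift_snd, ← Category.assoc, Obj.lift_snd, Category.assoc,
        f.inv_hom_id, Category.comp_id, Category.id_comp]

/-- The associativity isomorphism. -/
noncomputable def assocIso (X Y Z : 𝒱.Obj) : (X.prod Y).prod Z ≅ X.prod (Y.prod Z) where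
  hom := Obj.lift (fst (X.prod Y) Z ≫ fst X Y)
    (Obj.lift (fst (X.prod Y) Z ≫ snd X Y) (snd (X.prod Y) Z))
  inv := Obj.lift (Obj.lift (fst X (Y.prod Z)) (snd X (Y.prod Z) ≫ fst Y Z))
    (snd X (Y.prod Z) ≫ snd Y Z)
  hom_inv_id := by
    apply prod_hom_ext
    · rw [Category.assoc, Obj.lift_fst, Category.id_comp]
      apply prod_hom_ext
      · rw [Category.assoc, Obj.lift_fst, Obj.lift_fst]
      · rw [Category.assoc, Obj.lift_snd, ← Category.assoc, Obj.lift_snd, Obj.lift_fst]
    · rw [Category.assoc, Obj.lift_snd, Category.id_comp, ← Category.assoc, Obj.lift_snd,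
        Obj.lift_snd]
  inv_hom_id := by
    apply prod_hom_ext
    · rw [Category.assoc, Obj.lift_fst, Category.id_comp, ← Category.assoc, Obj.lift_fst,
        Obj.lift_fst]
    · rw [Category.assoc, Obj.lift_snd, Category.id_comp]
      apply prod_hom_ext
      · rw [Category.assoc, Obj.lift_fst, ← Category.assoc, Obj.lift_fst, Obj.lift_snd]
      · rw [Category.assoc, Obj.lift_snd, Obj.lift_snd]

/-- The product of two powers. -/
noncomputable def pwIso (X : 𝒱.Obj) : ∀ m n : ℕ, (pw X m).prod (pw X n) ≅ pw X (m + 1 + n)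
  | 0, n => eqToIso (by rw [zero_add, add_comm]; rfl)
  | m + 1, n => assocIso X (pw X m) (pw X n) ≪≫ prodIso (Iso.refl X) (pwIso X m n) ≪≫
      eqToIso (by rw [show m + 1 + 1 + n = (m + 1 + n) + 1 by ring]; rfl)

lemma kRank_iso (e : X ≅ Y) (hdim : Y.dim = X.dim) (j l : ℕ) :
    kRank W X j l = kRank W Y j l :=
  (rk_iso (W := W) e.hom e.inv e.hom_inv_id e.inv_hom_id hdim
    (f := (1 : Module.End W.K (W.H Y))) (f' := (1 : Module.End W.K (W.H X)))
    (fun _ => rfl) j l).symm

lemma par_prod : par (W.isInternal (X.prod Y)) =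
    extOp W (par (W.isInternal X)) (par (W.isInternal Y)) := by
  apply LinearMap.ext
  intro x
  refine W.kunneth_induction (p := fun x => par (W.isInternal (X.prod Y)) x =
    extOp W (par (W.isInternal X)) (par (W.isInternal Y)) x) ?_ ?_ x
  · intro a b ha hb
    rw [map_add, map_add, ha, hb]
  · intro i j a ha b hb
    rw [extOp_tmul, par, par, par, scal_apply _ _ (W.mul_mem (W.map_mem _ ha) (W.map_mem _ hb)),
      scal_apply _ _ ha, scal_apply _ _ hb, map_smul, map_smul, smul_mul_assoc, mul_smul_comm,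
      smul_smul, pow_add]

lemma par_prod_mem (hX : par (W.isInternal X) ∈ KOp W X X 0)
    (hY : par (W.isInternal Y) ∈ KOp W Y Y 0) :
    par (W.isInternal (X.prod Y)) ∈ KOp W (X.prod Y) (X.prod Y) 0 := by
  rw [par_prod]
  exact KOp.cast (KOp.ext hX hY) (by ring)

lemma par_pw_mem (hX : par (W.isInternal X) ∈ KOp W X X 0) (n : ℕ) :
    par (W.isInternal (pw X n)) ∈ KOp W (pw X n) (pw X n) 0 := by
  induction n with
  | zero => exact hX
  | succ n ih => exact par_prod_mem hX ih

lemma dim_sq (X : 𝒱.Obj) (n : ℕ) : (sq X n).dim = 2 * ((n + 1) * X.dim) := by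
  rw [sq, dim_prod, dim_pw]
  ring

/-- The rank of the intersection form in the middle degree of the square of a power. -/
noncomputable def mrank (W : WeilCohomology.{u, v} ops) (X : 𝒱.Obj) (n : ℕ) : ℕ :=
  kRank W (sq X n) ((n + 1) * X.dim) ((n + 1) * X.dim)

section

variable (hX : par (W.isInternal X) ∈ KOp W X X 0)

include hX

lemma mrank_eq_nu (n : ℕ) : mrank W X n = nu (KAlg W (pw X n)) := by
  rw [← kRank_self (par_pw_mem hX n), mrank, dim_pw]
  rfl

omit hX in
lemma mrank_eq (n : ℕ) : mrank W X n =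
    kRank W (pw X (2 * n + 1)) ((n + 1) * X.dim) ((n + 1) * X.dim) := by
  have e : sq X n ≅ pw X (2 * n + 1) :=
    pwIso X n n ≪≫ eqToIso (by rw [show n + 1 + n = 2 * n + 1 by ring])
  exact kRank_iso e (by rw [dim_sq, dim_pw]; push_cast; ring) _ _

/-- The ratios are bounded by the square of the total Betti number. -/
lemma mrank_succ_le [IsAlgClosed W.K] (n : ℕ) :
    mrank W X (n + 1) ≤ finrank W.K (W.H X) ^ 2 * mrank W X n := by
  have hq : (X.prod X).dim = 2 * X.dim := by rw [dim_prod]; ring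
  have h1 := rk_le (W := W) (U := pw X n) hq
    (par_prod_mem (par_prod_mem hX hX) (par_pw_mem hX n))
    (KAlg W (X.prod X)).one_mem (mul_one 1)
  rw [← mrank_eq_nu hX] at h1
  have h2 : extOp W (1 : Module.End W.K (W.H (pw X n)))
      (extOp W (1 : Module.End W.K (W.H (X.prod X))) (1 : Module.End W.K (W.H (pw X n)))) = 1 := by
    rw [extOp_one, extOp_one]
  rw [h2, rk_one] at h1
  have h3 : finrank W.K (LinearMap.range (1 : Module.End W.K (W.H (X.prod X)))) =
      finrank W.K (W.H X) ^ 2 := by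
    have h4 : LinearMap.range (1 : Module.End W.K (W.H (X.prod X))) = ⊤ := LinearMap.range_id
    have h5 := finrank_pw (W := W) (X := X) 1
    rw [h4, finrank_top]
    exact h5
  rw [h3] at h1
  refine le_trans (le_of_eq ?_) h1
  have e : sq X (n + 1) ≅ (pw X n).prod ((X.prod X).prod (pw X n)) :=
    pwIso X (n + 1) (n + 1) ≪≫
      eqToIso (by rw [show n + 1 + 1 + (n + 1) = n + 1 + (1 + 1 + n) by ring]) ≪≫
      (pwIso X n (1 + 1 + n)).symm ≪≫ prodIso (Iso.refl _) (pwIso X 1 n).symm
  rw [mrank, kRank_iso e (by simp only [dim_sq, dim_prod, dim_pw]; push_cast; ring)]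
  rw [show (n + 1 + 1) * X.dim = (pw X n).dim + X.dim by rw [dim_pw]; ring]

/-- Log-convexity. -/
lemma mrank_sq_le [IsAlgClosed W.K] (n : ℕ) :
    mrank W X (n + 1) ^ 2 ≤ mrank W X n * mrank W X (n + 2) := by
  have h1 := kRank_prod (W := W) (U := pw X n) (S := pw X (n + 2)) (j := (n + 2) * X.dim)
    (r := X.dim) (by rw [dim_pw]; push_cast; ring) (by rw [dim_pw, dim_pw]; push_cast; ring)
    (par_pw_mem hX (n + 2))
  have h2 := mu_sq_le (duo W (pw X n) (pw X (n + 2)) (X.dim : ℤ))
  rw [← h1, ← mrank_eq_nu hX, ← mrank_eq_nu hX] at h2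
  refine le_trans (le_of_eq ?_) h2
  congr 1
  have e : sq X (n + 1) ≅ (pw X n).prod (pw X (n + 2)) :=
    pwIso X (n + 1) (n + 1) ≪≫
      eqToIso (by rw [show n + 1 + 1 + (n + 1) = n + 1 + (n + 2) by ring]) ≪≫
      (pwIso X n (n + 2)).symm
  rw [mrank, kRank_iso e (by simp only [dim_sq, dim_prod, dim_pw]; push_cast; ring)]

lemma mrank_growth [IsAlgClosed W.K] (n : ℕ) :
    (finrank W.K (W.H X) ^ 2) ^ (n + 1) ≤
      mrank W X n * (n + 2) ^ (finrank W.K (W.H X) ^ 2) := by
  rw [mrank_eq_nu hX]
  exact growth n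

/-- The number of homomorphisms between squares of powers. -/
lemma mrank_eq_mu (κ n : ℕ) : mrank W X (κ + n + 1) =
    mu (KOp W (sq X κ) (sq X n) (((n : ℤ) - κ) * X.dim))
      (KOp W (sq X n) (sq X κ) (-(((n : ℤ) - κ) * X.dim))) 1 1 := by
  have h1 := kRank_prod (W := W) (U := sq X κ) (S := sq X n) (j := (κ + n + 2) * X.dim)
    (r := ((n : ℤ) - κ) * X.dim) (by rw [dim_sq]; push_cast; ring)
    (by rw [dim_sq, dim_sq]; push_cast; ring)
    (par_prod_mem (par_pw_mem hX n) (par_pw_mem hX n))
  rw [← h1]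
  have e : sq X (κ + n + 1) ≅ (sq X κ).prod (sq X n) :=
    pwIso X (κ + n + 1) (κ + n + 1) ≪≫
      eqToIso (by rw [show κ + n + 1 + 1 + (κ + n + 1) =
        κ + 1 + κ + 1 + (n + 1 + n) by ring]) ≪≫
      (pwIso X (κ + 1 + κ) (n + 1 + n)).symm ≪≫
      prodIso (pwIso X κ κ).symm (pwIso X n n).symm
  rw [mrank, kRank_iso e (by simp only [dim_sq, dim_prod]; ring)]

/-- A family of subspaces of the cohomology of the squares of the powers of `X` which is stable
under the algebraic correspondences preserving the middle degree. -/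
def Stable (W : WeilCohomology.{u, v} ops) (X : 𝒱.Obj) (T : ∀ n, Submodule W.K (W.H (sq X n))) :
    Prop :=
  ∀ κ n : ℕ, ∀ φ ∈ KOp W (sq X κ) (sq X n) (((n : ℤ) - κ) * X.dim), ∀ t ∈ T κ, φ t ∈ T n

omit hX in
lemma sum_m_rank {V K : Type*} [Field K] [CharZero K] [AddCommGroup V] [Module K V]
    [Module.Finite K V] {B : Subalgebra K (End K V)} (w : Wed B) :
    ∑ c, w.m c * finrank K (LinearMap.range (w.e (w.rep c))) ≤ finrank K V := by
  -- ranks in a class agree
  have hr : ∀ i, finrank K (LinearMap.range (w.e (w.rep (w.κ i)))) ≤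
      finrank K (LinearMap.range (w.e i)) := by
    intro i
    obtain ⟨u, hu, v, hv, heu, hue, hev, hve, huv, hvu⟩ :=
      w.conn i (w.rep (w.κ i)) (w.κ_rep _).symm
    have hmap : ∀ x ∈ LinearMap.range (w.e (w.rep (w.κ i))), u x ∈ LinearMap.range (w.e i) := by
      rintro _ ⟨t, rfl⟩
      exact ⟨u (w.e (w.rep (w.κ i)) t), by rw [← Module.End.mul_apply (w.e i), heu]⟩
    have hinj : Function.Injective (u.restrict hmap) := by
      rw [← LinearMap.ker_eq_bot, LinearMap.ker_eq_bot']
      rintro ⟨x, hx⟩ h0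
      have h1 : u x = 0 := congrArg Subtype.val h0
      have h2 : w.e (w.rep (w.κ i)) x = x := by
        obtain ⟨t, rfl⟩ := hx
        rw [← Module.End.mul_apply, w.e_mul, if_pos rfl]
      apply Subtype.ext
      have h3 := nakayama B (fun _ : Unit => x) (fun _ _ => -(v * u - w.e (w.rep (w.κ i))))
        (fun _ _ => Submodule.neg_mem _ hvu) (fun _ => by
          simp only [Finset.univ_unique, Finset.sum_singleton]
          rw [neg_sub, LinearMap.sub_apply, h2, Module.End.mul_apply, h1, map_zero, sub_zero])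
      exact h3 ()
    exact LinearMap.finrank_le_finrank_of_injective hinj
  rw [← w.sum_eq (fun c => finrank K (LinearMap.range (w.e (w.rep c))))]
  refine (Finset.sum_le_sum fun i _ => hr i).trans ?_
  have h1 : ((∑ i, finrank K (LinearMap.range (w.e i)) : ℕ) : K) = (finrank K V : K) := by
    rw [Nat.cast_sum, ← LinearMap.trace_one, ← w.e_sum, map_sum]
    apply Finset.sum_congr rfl
    intro i _
    rw [trace_idem (by rw [w.e_mul, if_pos rfl])]
  exact le_of_eq (Nat.cast_injective h1)

/-- The data at the level `κ`. -/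
noncomputable def level [IsAlgClosed W.K] (T : ∀ n, Submodule W.K (W.H (sq X n)))
    (hT : Stable W X T) (κ : ℕ) :
    Level (mrank W X) (fun n => finrank W.K (T n)) (finrank W.K (W.H X) ^ 2) κ :=
  let w : Wed (KAlg W (sq X κ)) := Classical.choice (exists_wed _)
  { C := w.C
    fC := inferInstance
    m := w.m
    s := fun c => finrank W.K (LinearMap.range (w.e (w.rep c)))
    t := fun c => finrank W.K ((T κ).map (w.e (w.rep c)))
    N := fun n c => mu (KOp W (sq X κ) (sq X n) (((n : ℤ) - κ) * X.dim))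
      (KOp W (sq X n) (sq X κ) (-(((n : ℤ) - κ) * X.dim))) 1 (w.e (w.rep c))
    m_pos := fun c => Finset.card_pos.2 ⟨w.rep c, by simp [w.κ_rep]⟩
    sum_ms := by
      refine (sum_m_rank w).trans (le_of_eq ?_)
      have h1 : finrank W.K (W.H (sq X κ)) = finrank W.K (W.H (pw X κ)) ^ 2 := by
        have e := kappa W (pw X κ) (pw X κ)
        rw [sq, ← e.finrank_eq, Module.finrank_tensorProduct, pow_two]
      rw [h1, finrank_pw, ← pow_mul, ← pow_mul, mul_comm]
    N_le := fun n c => by
      have h1 := mu_le (W := W) (U := pw X n) (dim_sq X κ)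
        (par_prod_mem (par_prod_mem (par_pw_mem hX κ) (par_pw_mem hX κ)) (par_pw_mem hX n))
        (par_prod_mem (par_pw_mem hX n) (par_pw_mem hX n))
        (w.e_mem (w.rep c)) (by rw [w.e_mul, if_pos rfl])
        (r := ((n : ℤ) - κ) * X.dim) (by rw [dim_pw]; push_cast; ring)
      rw [← mrank_eq_nu hX] at h1
      exact h1
    le_sum := fun n => by
      rw [mrank_eq_mu hX]
      have h2 := mu_sum_le (KOp W (sq X κ) (sq X n) (((n : ℤ) - κ) * X.dim))
        (KOp W (sq X n) (sq X κ) (-(((n : ℤ) - κ) * X.dim)))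
        (Finset.univ : Finset Unit) (Finset.univ : Finset w.I) (fun _ => 1) w.e
      rw [w.e_sum] at h2
      simp only [Finset.univ_unique, Finset.sum_singleton] at h2
      refine h2.trans ?_
      rw [← w.sum_eq (fun c => mu (KOp W (sq X κ) (sq X n) (((n : ℤ) - κ) * X.dim))
        (KOp W (sq X n) (sq X κ) (-(((n : ℤ) - κ) * X.dim))) 1 (w.e (w.rep c)))]
      exact Finset.sum_le_sum fun i _ => w.mu_le (duo W _ _ _) (KAlg W (sq X n)).one_mem i
    sum_le := fun n => by
      have h1 := sum_mu_mul_le (duo W (sq X κ) (sq X n) (((n : ℤ) - κ) * X.dim)) w.prims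
        (KAlg W (sq X n)).one_mem (mul_one 1) (T κ) (T n) (hT κ n)
      have h2 : (T n).map (1 : Module.End W.K (W.H (sq X n))) = T n := Submodule.map_id _
      rw [h2] at h1
      exact h1
    z_le := by
      have hstab : ∀ f ∈ KAlg W (sq X κ), ∀ t ∈ T κ, f t ∈ T κ := fun f hf t ht =>
        hT κ κ f (KOp.cast (mem_KAlg.1 hf) (by ring)) t ht
      refine (w.finrank_stable_le (T κ) hstab).trans ?_
      rw [Finset.sum_mul]
      apply Finset.sum_le_sum
      intro c _
      have h1 := mu_le (W := W) (U := pw X κ) (dim_sq X κ)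
        (par_prod_mem (par_prod_mem (par_pw_mem hX κ) (par_pw_mem hX κ)) (par_pw_mem hX κ))
        (par_prod_mem (par_pw_mem hX κ) (par_pw_mem hX κ))
        (w.e_mem (w.rep c)) (by rw [w.e_mul, if_pos rfl])
        (r := 0) (by rw [dim_pw]; push_cast; ring)
      rw [← mrank_eq_nu hX, neg_zero] at h1
      have h2 := (w.m_le c).trans h1
      calc w.m c * finrank W.K ((T κ).map (w.e (w.rep c)))
          ≤ (finrank W.K (LinearMap.range (w.e (w.rep c))) * mrank W X κ) *
            finrank W.K ((T κ).map (w.e (w.rep c))) := Nat.mul_le_mul_right _ h2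
        _ = _ := by ring }

/-- **The index law** for families of subspaces which are stable under algebraic
correspondences. -/
theorem index_law [IsAlgClosed W.K] (hH : 0 < finrank W.K (W.H X))
    (T : ∀ n, Submodule W.K (W.H (sq X n))) (hT : Stable W X T) :
    (∃ D : ℕ, (∀ n, finrank W.K (T n) ≤ D * mrank W X n) ∧
      Filter.Tendsto (fun n => (finrank W.K (T n) : ℝ) / mrank W X n) Filter.atTop (nhds D)) ∨
      Filter.Tendsto (fun n => (finrank W.K (T n) : ℝ) / mrank W X n) Filter.atTop
        Filter.atTop :=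
  limit_law (pow_pos hH 2) (mrank_succ_le hX) (mrank_sq_le hX) (mrank_growth hX)
    (level hX T hT)

end

end Pool.Agent.Y163
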