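import Pool.Agent.Y163.GeoC
import Pool.Agent.Y163.Double
import Pool.Agent.Y163.Defs

/-!
# Powers of a variety and permutations of the factors
-/

set_option linter.unusedVariables false
set_option linter.unusedSectionVars false

open CategoryTheory AlgebraicGeometry CategoryTheory.Limits

universe u v

namespace Pool.Agent.Y163

open Pool.Agent.H914 Pool.Agent.H447 Pool.Agent.W534 VarClass Obj WeilCohomology Module

variable {k : Type u} [Field k] {𝒱 : VarClass k} {ops : CycleOps 𝒱}
  {W : WeilCohomology.{u, v} ops} {X Y Z U S : 𝒱.Obj}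

lemma dim_pw (X : 𝒱.Obj) (n : ℕ) : (pw X n).dim = (n + 1) * X.dim := by
  induction n with
  | zero => simp [pw]
  | succ n ih =>
    rw [pw, dim_prod, ih]
    ring

/-- The projections. -/
noncomputable def pr (X : 𝒱.Obj) : ∀ n, Fin (n + 1) → (pw X n ⟶ X)
  | 0, _ => 𝟙 X
  | n + 1, i => Fin.cases (fst X (pw X n)) (fun j => snd X (pw X n) ≫ pr X n j) i

lemma pr_zero_succ (n : ℕ) : pr X (n + 1) 0 = fst X (pw X n) := rfl

lemma pr_succ (n : ℕ) (j : Fin (n + 1)) : pr X (n + 1) j.succ = snd X (pw X n) ≫ pr X n j := rfl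

/-- The morphism to the power with given components. -/
noncomputable def tup {Z : 𝒱.Obj} : ∀ n, (Fin (n + 1) → (Z ⟶ X)) → (Z ⟶ pw X n)
  | 0, f => f 0
  | n + 1, f => Obj.lift (f 0) (tup n (fun j => f j.succ))

lemma tup_pr : ∀ (n : ℕ) (f : Fin (n + 1) → (Z ⟶ X)) (i : Fin (n + 1)), tup n f ≫ pr X n i = f i
  | 0, f, i => by
    have hi : i = 0 := Fin.ext (by omega)
    rw [tup, pr, hi]
    exact Category.comp_id _
  | n + 1, f, i => by
    refine Fin.cases ?_ (fun j => ?_) i
    · exact Obj.lift_fst _ _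
    · exact (Category.assoc (Obj.lift (f 0) (tup n (fun j => f j.succ))) (snd X (pw X n))
        (pr X n j)).symm.trans ((congrArg (fun g => g ≫ pr X n j)
          (Obj.lift_snd (f 0) (tup n (fun j => f j.succ)))).trans (tup_pr n _ j))

lemma pw_hom_ext : ∀ (n : ℕ) {f g : Z ⟶ pw X n}, (∀ i, f ≫ pr X n i = g ≫ pr X n i) → f = g
  | 0, f, g, h => by
    have := h 0
    rw [pr] at this
    exact (Category.comp_id f).symm.trans (this.trans (Category.comp_id g))
  | n + 1, f, g, h => by
    apply prod_hom_ext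
    · exact h 0
    · apply pw_hom_ext n
      intro i
      have := h i.succ
      rw [pr_succ] at this
      rw [Category.assoc, Category.assoc]
      exact this

/-- The permutation of the factors. -/
noncomputable def perm (X : 𝒱.Obj) (n : ℕ) (σ : Equiv.Perm (Fin (n + 1))) : pw X n ⟶ pw X n :=
  tup n (fun i => pr X n (σ i))

lemma perm_pr (n : ℕ) (σ : Equiv.Perm (Fin (n + 1))) (i : Fin (n + 1)) :
    perm X n σ ≫ pr X n i = pr X n (σ i) := tup_pr _ _ _

lemma perm_mul (n : ℕ) (σ τ : Equiv.Perm (Fin (n + 1))) :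
    perm X n (σ * τ) = perm X n σ ≫ perm X n τ := by
  apply pw_hom_ext
  intro i
  rw [Category.assoc, perm_pr, perm_pr, perm_pr, Equiv.Perm.mul_apply]

lemma perm_one (n : ℕ) : perm X n 1 = 𝟙 _ := by
  apply pw_hom_ext
  intro i
  rw [perm_pr, Category.id_comp, Equiv.Perm.one_apply]

/-- The action of the symmetric group on the cohomology. -/
noncomputable def rho (W : WeilCohomology.{u, v} ops) (X : 𝒱.Obj) (n : ℕ) :
    Equiv.Perm (Fin (n + 1)) →* Module.End W.K (W.H (pw X n)) where
  toFun σ := (W.map (perm X n σ)).toLinearMap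
  map_one' := by
    apply LinearMap.ext
    intro x
    rw [perm_one]
    exact W.map_id _ _
  map_mul' σ τ := by
    apply LinearMap.ext
    intro x
    rw [perm_mul]
    exact W.map_comp _ _ _

/-- The pull-back under a morphism is an algebraic correspondence. -/
lemma map_mem_KOp (f : X ⟶ Y) : (W.map f).toLinearMap ∈ KOp W Y X 0 := by
  have h1 : (W.map f).toLinearMap = W.corr (W.cl _ (ops.push (Obj.lift f (𝟙 X)) X.V.fundCycle)) := by
    apply LinearMap.ext
    intro a
    rw [W.cl_push, W.cl_fund, corr_apply, ← W.push_mul, one_mul, ← W.push_comp, ← W.map_comp]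
    have e1 : Obj.lift f (𝟙 X) ≫ snd Y X = 𝟙 X := Obj.lift_snd _ _
    have e2 : Obj.lift f (𝟙 X) ≫ fst Y X = f := Obj.lift_fst _ _
    rw [e1, e2, W.push_id]
    rfl
  rw [h1]
  refine KOp.gen (p := Y.dim) (by ring) ?_
  exact ops.push_mem _ X.V.fundCycle_mem (by simp only [dim_prod]; ring)

lemma rho_mem (n : ℕ) (σ : Equiv.Perm (Fin (n + 1))) : rho W X n σ ∈ KAlg W (pw X n) :=
  map_mem_KOp _

/-! ### Monomials -/

/-- A basis of homogeneous elements. -/
structure HBasis (W : WeilCohomology.{u, v} ops) (X : 𝒱.Obj) (ι : Type v) where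
  /-- the basis -/
  b : Basis ι W.K (W.H X)
  /-- the degrees -/
  deg : ι → ℕ
  mem : ∀ i, b i ∈ W.gr X (deg i)

lemma exists_hbasis (W : WeilCohomology.{u, v} ops) (X : 𝒱.Obj) :
    ∃ (ι : Type v) (_ : Finite ι), Nonempty (HBasis W X ι) := by
  let α : ℕ → Type v := fun i => Module.Free.ChooseBasisIndex W.K (W.gr X i)
  let bs : ∀ i, Basis (α i) W.K (W.gr X i) := fun i => Module.Free.chooseBasis W.K (W.gr X i)
  let b := (W.isInternal X).collectedBasis bs
  refine ⟨Σ i, α i, Module.Finite.finite_basis b, ⟨⟨b, Sigma.fst, fun i => ?_⟩⟩⟩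
  exact (W.isInternal X).collectedBasis_mem bs i

variable {ι : Type v}

/-- The monomials. -/
noncomputable def mon (B : HBasis W X ι) : ∀ n, (Fin (n + 1) → ι) → W.H (pw X n)
  | 0, I => B.b (I 0)
  | n + 1, I => W.map (fst X (pw X n)) (B.b (I 0)) * W.map (snd X (pw X n)) (mon B n (Fin.tail I))

lemma mon_eq (B : HBasis W X ι) : ∀ (n : ℕ) (I : Fin (n + 1) → ι),
    mon B n I = (List.ofFn fun i => W.map (pr X n i) (B.b (I i))).prod
  | 0, I => by
    rw [List.ofFn_succ, List.ofFn_zero, List.prod_cons, List.prod_nil, mul_one]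
    exact (W.map_id _ _).symm
  | n + 1, I => by
    rw [mon, List.ofFn_succ, List.prod_cons, mon_eq B n, map_list_prod, List.map_ofFn]
    congr 2
    congr 1
    funext j
    rw [Function.comp_apply, ← W.map_comp]
    rfl

/-- The monomials form a basis. -/
lemma exists_monBasis (B : HBasis W X ι) : ∀ n : ℕ,
    ∃ b : Basis (Fin (n + 1) → ι) W.K (W.H (pw X n)), ∀ I, b I = mon B n I
  | 0 => by
    refine ⟨B.b.reindex (Equiv.funUnique (Fin 1) ι).symm, fun I => ?_⟩
    exact Basis.reindex_apply B.b (Equiv.funUnique (Fin 1) ι).symm I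
  | n + 1 => by
    obtain ⟨b, hb⟩ := exists_monBasis B n
    refine ⟨((B.b.tensorProduct b).map (kappa W X (pw X n))).reindex
      (Fin.consEquiv (fun _ => ι)), fun I => ?_⟩
    refine (Basis.reindex_apply ((B.b.tensorProduct b).map (kappa W X (pw X n)))
      (Fin.consEquiv (fun _ => ι)) I).trans ?_
    rw [Basis.map_apply, Basis.tensorProduct_apply', kappa_tmul, mon, hb]
    rfl

/-- Products of homogeneous elements in different orders. -/
lemma prod_perm {l l' : List (W.H Z)} (h : l.Perm l') (hl : ∀ x ∈ l, ∃ i, x ∈ W.gr Z i) :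
    ∃ ε : W.K, ε ≠ 0 ∧ l.prod = ε • l'.prod := by
  induction h with
  | nil => exact ⟨1, one_ne_zero, by rw [one_smul]⟩
  | cons x h ih =>
    obtain ⟨ε, hε, h1⟩ := ih (fun y hy => hl y (List.mem_cons_of_mem _ hy))
    exact ⟨ε, hε, by rw [List.prod_cons, List.prod_cons, h1, mul_smul_comm]⟩
  | swap x y l =>
    obtain ⟨i, hi⟩ := hl x (by simp)
    obtain ⟨j, hj⟩ := hl y (by simp)
    refine ⟨(-1) ^ (j * i), pow_ne_zero _ (neg_ne_zero.2 one_ne_zero), ?_⟩
    rw [List.prod_cons, List.prod_cons, List.prod_cons, List.prod_cons, ← mul_assoc, ← mul_assoc,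
      W.comm hj hi, smul_mul_assoc]
  | trans h1 h2 ih1 ih2 =>
    obtain ⟨ε, hε, h3⟩ := ih1 hl
    obtain ⟨ε', hε', h4⟩ := ih2 (fun y hy => hl y (h1.mem_iff.2 hy))
    exact ⟨ε * ε', mul_ne_zero hε hε', by rw [h3, h4, smul_smul]⟩

lemma ofFn_perm {α : Type*} {n : ℕ} (f : Fin n → α) (σ : Equiv.Perm (Fin n)) :
    (List.ofFn (fun i => f (σ i))).Perm (List.ofFn f) :=
  Equiv.Perm.ofFn_comp_perm σ f

/-- The permutations of the factors permute the monomials up to scalars. -/
lemma rho_mon (B : HBasis W X ι) (n : ℕ) (σ : Equiv.Perm (Fin (n + 1))) (I : Fin (n + 1) → ι) :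
    ∃ ε : W.K, ε ≠ 0 ∧ rho W X n σ (mon B n (I ∘ σ)) = ε • mon B n I := by
  have h1 : rho W X n σ (mon B n (I ∘ σ)) =
      (List.ofFn fun i => W.map (pr X n (σ i)) (B.b (I (σ i)))).prod := by
    rw [mon_eq]
    change W.map (perm X n σ) _ = _
    rw [map_list_prod, List.map_ofFn]
    congr 2
    funext i
    rw [Function.comp_apply, Function.comp_apply, ← W.map_comp, perm_pr]
  rw [h1, mon_eq]
  apply prod_perm (ofFn_perm (fun i => W.map (pr X n i) (B.b (I i))) σ)
  intro x hx
  rw [List.mem_ofFn] at hx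
  obtain ⟨i, rfl⟩ := hx
  exact ⟨_, W.map_mem _ (B.mem _)⟩

/-- Tuples which are equal up to a permutation. -/
def psetoid (n : ℕ) (β : Type*) : Setoid (Fin (n + 1) → β) where
  r f g := ∃ σ : Equiv.Perm (Fin (n + 1)), f = g ∘ σ
  iseqv :=
    { refl := fun f => ⟨1, rfl⟩
      symm := by
        rintro f g ⟨σ, rfl⟩
        exact ⟨σ⁻¹, by funext i; simp⟩
      trans := by
        rintro f g h ⟨σ, rfl⟩ ⟨τ, rfl⟩
        exact ⟨τ * σ, rfl⟩ }

/-- The number of the classes of tuples. -/
lemma card_quot_le (n : ℕ) (β : Type*) [Fintype β] [Fintype (Quotient (psetoid n β))] :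
    Fintype.card (Quotient (psetoid n β)) ≤ (n + 2) ^ Fintype.card β := by
  classical
  let cnt : (Fin (n + 1) → β) → (β → Fin (n + 2)) := fun f x =>
    ⟨(Finset.univ.filter fun i => f i = x).card, by
      have := Finset.card_filter_le (Finset.univ : Finset (Fin (n + 1))) (fun i => f i = x)
      rw [Finset.card_univ, Fintype.card_fin] at this
      omega⟩
  have hinj : ∀ q q' : Quotient (psetoid n β), cnt q.out = cnt q'.out → q = q' := by
    intro q q' h
    rw [← Quotient.out_eq q, ← Quotient.out_eq q']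
    apply Quotient.sound
    have hc : ∀ x, Fintype.card {i // q.out i = x} = Fintype.card {i // q'.out i = x} := by
      intro x
      have h1 := congrArg Fin.val (congrFun h x)
      rw [Fintype.card_subtype, Fintype.card_subtype]
      exact h1
    let e : ∀ x, {i // q.out i = x} ≃ {i // q'.out i = x} := fun x =>
      Fintype.equivOfCardEq (hc x)
    refine ⟨Equiv.ofFiberEquiv e, ?_⟩
    funext i
    exact (Equiv.ofFiberEquiv_map e i).symm
  have h1 := Fintype.card_le_of_injective (fun q : Quotient (psetoid n β) => cnt q.out)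
    (fun q q' h => hinj q q' h)
  rwa [Fintype.card_fun, Fintype.card_fin] at h1

/-- The dimension of the commutant of the symmetric group. -/
lemma finrank_comm_le (n : ℕ) :
    finrank W.K (comm (rho W X n)) ≤ (n + 2) ^ (finrank W.K (W.H X) ^ 2) := by
  classical
  obtain ⟨ι, hfin, ⟨B⟩⟩ := exists_hbasis W X
  have hft : Fintype ι := Fintype.ofFinite ι
  obtain ⟨b, hb⟩ := exists_monBasis B n
  have hcard : Fintype.card (ι × ι) = finrank W.K (W.H X) ^ 2 := by
    rw [Fintype.card_prod, Module.finrank_eq_card_basis B.b, pow_two]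
  have hq : Fintype (Quotient (psetoid n (ι × ι))) := Fintype.ofFinite _
  rw [← hcard]
  refine le_trans ?_ (card_quot_le n (ι × ι))
  let F : comm (rho W X n) →ₗ[W.K] (Quotient (psetoid n (ι × ι)) → W.K) :=
    { toFun := fun g q => b.repr ((g : Module.End W.K _) (b (fun i => (q.out i).1)))
        (fun i => (q.out i).2)
      map_add' := fun g h => by
        funext q
        simp
      map_smul' := fun c g => by
        funext q
        simp }
  have hinj : Function.Injective F := by
    rintro ⟨g₁, hg₁⟩ ⟨g₂, hg₂⟩ h00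
    apply Subtype.ext
    change g₁ = g₂
    obtain ⟨g, hgdef⟩ : ∃ g, g = g₁ - g₂ := ⟨_, rfl⟩
    have hg : g ∈ comm (rho W X n) := hgdef ▸ Submodule.sub_mem _ hg₁ hg₂
    have h0 : ∀ q : Quotient (psetoid n (ι × ι)), b.repr (g (b (fun i => (q.out i).1)))
        (fun i => (q.out i).2) = 0 := by
      intro q
      have h1 : b.repr (g₁ (b (fun i => (q.out i).1))) (fun i => (q.out i).2) =
        b.repr (g₂ (b (fun i => (q.out i).1))) (fun i => (q.out i).2) := congrFun h00 q
      rw [hgdef, LinearMap.sub_apply, map_sub, Finsupp.sub_apply, h1, sub_self]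
    rw [← sub_eq_zero, ← hgdef]
    have hent : ∀ I J : Fin (n + 1) → ι, b.repr (g (b I)) J = 0 := by
      intro I J
      obtain ⟨σ, hσ⟩ := Quotient.exact (Quotient.out_eq (Quotient.mk (psetoid n (ι × ι))
        (fun i => (I i, J i))))
      set q := Quotient.mk (psetoid n (ι × ι)) (fun i => (I i, J i)) with hq
      have h1 : b.repr (g (b (fun i => (q.out i).1))) (fun i => (q.out i).2) = 0 :=
        h0 q
      have hI : (fun i => (q.out i).1) = I ∘ σ := by
        funext i
        have := congrFun hσ i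
        exact congrArg Prod.fst this
      have hJ : (fun i => (q.out i).2) = J ∘ σ := by
        funext i
        have := congrFun hσ i
        exact congrArg Prod.snd this
      rw [hI, hJ] at h1
      -- the commutation
      obtain ⟨ε, hε, h2⟩ := rho_mon B n σ I
      rw [← hb, ← hb] at h2
      have h3 := congrArg (fun f => f (b (I ∘ σ))) (hg σ)
      simp only [Module.End.mul_apply] at h3
      rw [h2, map_smul] at h3
      -- the coefficient at `J`
      have h4 : ∀ w : W.H (pw X n), ∃ δ : W.K, b.repr (rho W X n σ w) J =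
          δ * b.repr w (J ∘ σ) := by
        obtain ⟨δ, hδ, h5⟩ := rho_mon B n σ J
        rw [← hb, ← hb] at h5
        intro w
        refine ⟨δ, ?_⟩
        have h6 : (Finsupp.lapply J ∘ₗ b.repr.toLinearMap) ∘ₗ rho W X n σ =
            δ • (Finsupp.lapply (J ∘ σ) ∘ₗ b.repr.toLinearMap) := by
          apply b.ext
          intro L
          obtain ⟨L', rfl⟩ : ∃ L', L = L' ∘ σ := ⟨L ∘ σ.symm, by funext i; simp⟩
          obtain ⟨θ, hθ, h7⟩ := rho_mon B n σ L'
          rw [← hb, ← hb] at h7
          simp only [LinearMap.comp_apply, LinearMap.smul_apply, LinearEquiv.coe_coe,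
            Finsupp.lapply_apply, smul_eq_mul]
          rw [h7, map_smul, Finsupp.smul_apply, Basis.repr_self, Basis.repr_self]
          by_cases hLJ : L' = J
          · subst hLJ
            rw [Finsupp.single_eq_same, Finsupp.single_eq_same, smul_eq_mul, mul_one, mul_one]
            have h8 : δ • b L' = θ • b L' := h5.symm.trans h7
            have h9 : (δ - θ) • b L' = 0 := by rw [sub_smul, h8, sub_self]
            rcases smul_eq_zero.1 h9 with h10 | h10
            · exact (sub_eq_zero.1 h10).symm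
            · exact absurd h10 (b.ne_zero _)
          · rw [Finsupp.single_eq_of_ne (Ne.symm hLJ), Finsupp.single_eq_of_ne, smul_zero,
              mul_zero]
            intro h8
            apply hLJ
            funext i
            have := congrFun h8 (σ.symm i)
            simpa using this.symm
        have := congrArg (fun f => f w) h6
        simpa using this
      obtain ⟨δ, hδ⟩ := h4 (g (b (I ∘ σ)))
      have h5 := congrArg (fun w => b.repr w J) h3
      simp only [map_smul, Finsupp.smul_apply, smul_eq_mul] at h5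
      rw [hδ, h1, mul_zero] at h5
      exact (mul_eq_zero.1 h5).resolve_left hε
    apply b.ext
    intro I
    rw [LinearMap.zero_apply]
    apply b.repr.injective
    rw [map_zero]
    ext J
    exact hent I J
  have h1 := LinearMap.finrank_le_finrank_of_injective hinj
  rwa [Module.finrank_fintype_fun_eq_card] at h1

lemma finrank_pw (n : ℕ) : finrank W.K (W.H (pw X n)) = finrank W.K (W.H X) ^ (n + 1) := by
  induction n with
  | zero => rw [zero_add, pow_one]; rfl
  | succ n ih =>
    have e := kappa W X (pw X n)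
    rw [pw, ← e.finrank_eq, Module.finrank_tensorProduct, ih, pow_succ' _ (n + 1)]

/-- **The growth of the number of algebraic classes.** -/
theorem growth [IsAlgClosed W.K] (n : ℕ) : (finrank W.K (W.H X) ^ 2) ^ (n + 1) ≤
    nu (KAlg W (pw X n)) * (n + 2) ^ (finrank W.K (W.H X) ^ 2) := by
  have h1 := sq_le_nu_mul (rho W X n) (KAlg W (pw X n)) (rho_mem n)
  rw [finrank_pw, ← pow_mul, mul_comm (n + 1) 2, pow_mul] at h1
  exact h1.trans (Nat.mul_le_mul_left _ (finrank_comm_le n))

end Pool.Agent.Y163
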