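import Pool.Agent.Y163.Idx
import Pool.Agent.W534.PoleD

/-!
# Generalised Tate classes, parity operators and the index law for zeta functions
-/

set_option linter.unusedVariables false
set_option linter.unusedSectionVars false

open CategoryTheory AlgebraicGeometry CategoryTheory.Limits

universe u v

namespace Pool.Agent.Y163

open Pool.Agent.H914 Pool.Agent.H447 Pool.Agent.W534 VarClass Obj WeilCohomology Module

variable {k : Type u} [Field k] {𝒱 : VarClass k} {ops : CycleOps 𝒱}
  {W : WeilCohomology.{u, v} ops} {X Y Z U S : 𝒱.Obj} {p : ℕ} (Φ : FrobSystem W p)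

/-! ### Systems of subspaces -/

/-- A system of subspaces of the cohomology which is stable under products with classes of
cycles, pull-backs and push-forwards. -/
structure SFam (W : WeilCohomology.{u, v} ops) where
  /-- the subspaces -/
  T : ∀ X : 𝒱.Obj, ℕ → Submodule W.K (W.H X)
  cl_mul : ∀ {X : 𝒱.Obj} {p q : ℕ} {z : X.Cycles} {c : W.H X}, X.IsCyc q z → c ∈ T X p →
    W.cl X z * c ∈ T X (q + p)
  map : ∀ {X Y : 𝒱.Obj} (f : X ⟶ Y) {p : ℕ} {c : W.H Y}, c ∈ T Y p → W.map f c ∈ T X p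
  push : ∀ {X Y : 𝒱.Obj} (f : X ⟶ Y) {p q : ℕ} {c : W.H X}, c ∈ T X p →
    p + Y.dim = q + X.dim → W.push f c ∈ T Y q
  push_zero : ∀ {X Y : 𝒱.Obj} (f : X ⟶ Y) {p : ℕ} {c : W.H X}, c ∈ T X p →
    p + Y.dim < X.dim → W.push f c = 0

/-- The subspaces are stable under algebraic correspondences. -/
lemma SFam.stable (F : SFam W) {d : ℤ} {φ : W.H Y →ₗ[W.K] W.H Z} (hφ : φ ∈ KOp W Y Z d)
    {j j' : ℕ} (hj : (j' : ℤ) = j + d) {x : W.H Y} (hx : x ∈ F.T Y j) : φ x ∈ F.T Z j' := by
  induction hφ using Submodule.span_induction with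
  | mem f hf =>
    obtain ⟨q, hq, z, hz, rfl⟩ := hf
    rw [corr_apply]
    apply F.push (snd Y Z) (F.cl_mul hz (F.map (fst Y Z) hx))
    rw [dim_prod]
    omega
  | zero => exact Submodule.zero_mem _
  | add f g _ _ hf hg => exact Submodule.add_mem _ hf hg
  | smul c f _ hf => exact Submodule.smul_mem _ _ hf

lemma SFam.stable_sq (F : SFam W) (X : 𝒱.Obj) :
    Stable W X (fun n => F.T (sq X n) ((n + 1) * X.dim)) := by
  intro κ n φ hφ t ht
  exact F.stable hφ (by push_cast; ring) ht

/-! ### Generalised Tate classes -/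

/-- The generalised Tate classes over all finite fields. -/
noncomputable def genU (Z : 𝒱.Obj) (j : ℕ) : Submodule W.K (W.H Z) :=
  genTate Φ Z (exists_stable Φ Z j).choose j

lemma mem_genU {Z : 𝒱.Obj} {j : ℕ} {x : W.H Z} :
    x ∈ genU Φ Z j ↔ ∃ s, 0 < s ∧ x ∈ genTate Φ Z s j :=
  ⟨fun h => ⟨_, (exists_stable Φ Z j).choose_spec.1, h⟩,
    fun ⟨s, hs, h⟩ => (exists_stable Φ Z j).choose_spec.2 s hs h⟩

lemma genU_eq {Z : 𝒱.Obj} {j s : ℕ} (hs : 0 < s) (h : (exists_stable Φ Z j).choose ∣ s) :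
    genTate Φ Z s j = genU Φ Z j :=
  eq_of_stable Φ (exists_stable Φ Z j).choose_spec.2 hs h

lemma gen_mul {s i j : ℕ} {c x : W.H Z} (hc : frob Φ Z s c = ((card Φ Z s : W.K) ^ i) • c)
    (hcg : c ∈ W.gr Z (2 * i)) (hx : x ∈ genTate Φ Z s j) : c * x ∈ genTate Φ Z s (i + j) := by
  obtain ⟨⟨n, hn⟩, hxg⟩ := (mem_genTate Φ).1 hx
  refine (mem_genTate Φ).2 ⟨⟨n, ?_⟩, ?_⟩
  · set A := frob Φ Z s - ((card Φ Z s : W.K) ^ (i + j)) • (1 : Module.End W.K (W.H Z)) with hA
    set B := frob Φ Z s - ((card Φ Z s : W.K) ^ j) • (1 : Module.End W.K (W.H Z)) with hB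
    have hAB : ∀ w, A (c * w) = ((card Φ Z s : W.K) ^ i) • (c * B w) := by
      intro w
      rw [hA, hB, LinearMap.sub_apply, LinearMap.sub_apply, frob_apply, map_mul, ← frob_apply,
        ← frob_apply, hc, LinearMap.smul_apply, LinearMap.smul_apply, Module.End.one_apply,
        Module.End.one_apply, mul_sub, smul_sub, smul_mul_assoc, mul_smul_comm, smul_smul,
        ← pow_add]
    have key : ∀ (n : ℕ) (y : W.H Z),
        (A ^ n) (c * y) = (((card Φ Z s : W.K) ^ i) ^ n) • (c * (B ^ n) y) := by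
      intro n
      induction n with
      | zero => intro y; simp
      | succ n ih =>
        intro y
        rw [pow_succ' A, Module.End.mul_apply, ih, map_smul, hAB, pow_succ' B,
          Module.End.mul_apply, smul_smul, ← pow_succ]
    rw [key, hn, mul_zero, smul_zero]
  · have := W.mul_mem hcg hxg
    rwa [show 2 * i + 2 * j = 2 * (i + j) by ring] at this

lemma card_eq_of {a b s : ℕ} (hab : a * Φ.e X = b * Φ.e Y) :
    card Φ X (a * s) = card Φ Y (b * s) := by
  rw [card, card]
  congr 1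
  calc Φ.e X * (a * s) = (a * Φ.e X) * s := by ring
    _ = Φ.e Y * (b * s) := by rw [hab]; ring

lemma gen_map (f : X ⟶ Y) {s j : ℕ} (hs : 0 < s) {x : W.H Y} (hx : x ∈ genTate Φ Y s j) :
    ∃ s', 0 < s' ∧ W.map f x ∈ genTate Φ X s' j := by
  obtain ⟨a, b, ha, hb, hab, h⟩ := frob_comm (W := W) Φ f
  refine ⟨a * s, Nat.mul_pos ha hs, ?_⟩
  obtain ⟨⟨n, hn⟩, hxg⟩ := (mem_genTate Φ).1 (genTate_mono' Φ s b j hx)
  refine (mem_genTate Φ).2 ⟨⟨n, ?_⟩, W.map_mem f hxg⟩
  have hcard := card_eq_of Φ (s := s) hab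
  have key : ∀ (n : ℕ) (y : W.H Y),
      ((frob Φ X (a * s) - ((card Φ X (a * s) : W.K) ^ j) • (1 : Module.End W.K (W.H X))) ^ n)
        (W.map f y) = W.map f
        (((frob Φ Y (b * s) - ((card Φ Y (b * s) : W.K) ^ j) •
          (1 : Module.End W.K (W.H Y))) ^ n) y) := by
    intro n
    induction n with
    | zero => intro y; rfl
    | succ n ih =>
      intro y
      rw [pow_succ', Module.End.mul_apply, ih, pow_succ', Module.End.mul_apply,
        LinearMap.sub_apply, LinearMap.sub_apply, LinearMap.smul_apply, LinearMap.smul_apply,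
        Module.End.one_apply, Module.End.one_apply, frob_apply, h, map_sub, map_smul,
        frob_apply, hcard]
  rw [key, hn, map_zero]

lemma frob_push (f : X ⟶ Y) {a b s : ℕ} (hab : a * Φ.e X = b * Φ.e Y)
    (h : ∀ (t : ℕ) (y : W.H Y), W.map (Pool.Agent.W534.iter (Φ.Fr X) (a * t)) (W.map f y) =
      W.map f (W.map (Pool.Agent.W534.iter (Φ.Fr Y) (b * t)) y)) (x : W.H X) :
    ((card Φ X (a * s) : W.K) ^ X.dim) • frob Φ Y (b * s) (W.push f x) =
      ((card Φ X (a * s) : W.K) ^ Y.dim) • W.push f (frob Φ X (a * s) x) := by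
  have hcard := card_eq_of Φ (s := s) hab
  apply W.tr_ext
  intro y'
  obtain ⟨y, rfl⟩ := map_iter_surjective Φ (b * s) y'
  have h3 := tr_iter Φ (b * s) (W.push f x * y)
  have h4 := tr_iter Φ (a * s) (x * W.map f y)
  rw [map_mul, W.tr_push, ← card_pow, ← hcard] at h3
  rw [map_mul, h, ← card_pow] at h4
  rw [smul_mul_assoc, smul_mul_assoc, map_smul, map_smul, frob_apply, frob_apply, h3,
    W.tr_push, h4, smul_eq_mul, smul_eq_mul]
  ring

lemma gen_push (f : X ⟶ Y) {s i j : ℕ} (hs : 0 < s) {x : W.H X} (hx : x ∈ genTate Φ X s i)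
    (hij : i + Y.dim = j + X.dim) : ∃ s', 0 < s' ∧ W.push f x ∈ genTate Φ Y s' j := by
  obtain ⟨a, b, ha, hb, hab, h⟩ := frob_comm (W := W) Φ f
  refine ⟨b * s, Nat.mul_pos hb hs, ?_⟩
  obtain ⟨⟨n, hn⟩, hxg⟩ := (mem_genTate Φ).1 (genTate_mono' Φ s a i hx)
  refine (mem_genTate Φ).2 ⟨⟨n, ?_⟩, ?_⟩
  · have hcard := card_eq_of Φ (s := s) hab
    have hfp := frob_push Φ f (s := s) hab h
    set q : W.K := (card Φ X (a * s) : W.K) with hq
    have hq0 : q ≠ 0 := card_ne Φ _
    have hcq : (card Φ Y (b * s) : W.K) = q := by rw [hq, hcard]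
    have key : ∀ (n : ℕ) (y : W.H X), ((q ^ X.dim) ^ n) •
        ((frob Φ Y (b * s) - ((card Φ Y (b * s) : W.K) ^ j) •
          (1 : Module.End W.K (W.H Y))) ^ n) (W.push f y) =
        ((q ^ Y.dim) ^ n) • W.push f
        (((frob Φ X (a * s) - (q ^ i) • (1 : Module.End W.K (W.H X))) ^ n) y) := by
      intro n
      induction n with
      | zero => intro y; simp
      | succ n ih =>
        intro y
        have e1 : (q ^ X.dim) • ((frob Φ Y (b * s) - ((card Φ Y (b * s) : W.K) ^ j) •
            (1 : Module.End W.K (W.H Y))) (W.push f y)) =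
            (q ^ Y.dim) • W.push f ((frob Φ X (a * s) - (q ^ i) •
              (1 : Module.End W.K (W.H X))) y) := by
          rw [LinearMap.sub_apply, LinearMap.sub_apply, smul_sub, hfp y, map_sub, smul_sub,
            LinearMap.smul_apply, LinearMap.smul_apply, Module.End.one_apply,
            Module.End.one_apply, map_smul, smul_smul, smul_smul, hcq, ← pow_add, ← pow_add,
            show X.dim + j = Y.dim + i by omega]
        rw [pow_succ (frob Φ Y (b * s) - _) n, Module.End.mul_apply,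
          pow_succ (frob Φ X (a * s) - _) n, Module.End.mul_apply, pow_succ (q ^ X.dim),
          pow_succ (q ^ Y.dim), ← smul_smul, ← map_smul, e1, map_smul, smul_comm, ih, smul_smul]
        congr 1
        ring
    have h5 := key n x
    rw [hn, map_zero, smul_zero] at h5
    exact (smul_eq_zero.1 h5).resolve_left (pow_ne_zero _ (pow_ne_zero _ hq0))
  · have := W.push_mem f hxg
    rwa [show ((2 * i : ℕ) : ℤ) + 2 * ((Y.dim : ℤ) - X.dim) = ((2 * j : ℕ) : ℤ) by
      push_cast; omega, grZ_natCast] at this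

/-- The system of the generalised Tate classes. -/
noncomputable def genFam : SFam W where
  T Z j := genU Φ Z j
  cl_mul := by
    intro Z i j z c hz hc
    obtain ⟨s, hs, hc⟩ := (mem_genU Φ).1 hc
    obtain ⟨t, ht, h2⟩ := Φ.cyc hz
    refine (mem_genU Φ).2 ⟨s * t, Nat.mul_pos hs ht, ?_⟩
    refine gen_mul Φ ?_ (W.cl_mem hz) (genTate_mono Φ s t i hc)
    have h3 : frob Φ Z t (W.cl Z z) = ((card Φ Z t : W.K) ^ j) • W.cl Z z := by
      rw [card_pow]; exact h2
    exact span_eig_mul' Φ h3 s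
  map := by
    intro X Y f j c hc
    obtain ⟨s, hs, hc⟩ := (mem_genU Φ).1 hc
    exact (mem_genU Φ).2 (gen_map Φ f hs hc)
  push := by
    intro X Y f i j c hc hij
    obtain ⟨s, hs, hc⟩ := (mem_genU Φ).1 hc
    exact (mem_genU Φ).2 (gen_push Φ f hs hc hij)
  push_zero := by
    intro X Y f i c hc hij
    obtain ⟨s, hs, hc⟩ := (mem_genU Φ).1 hc
    have := W.push_mem f hc.2
    rw [grZ_of_neg (by push_cast; omega)] at this
    exact (Submodule.mem_bot _).1 this

lemma genFam_T (Z : 𝒱.Obj) (j : ℕ) : (genFam Φ).T Z j = genU Φ Z j := rfl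

lemma span_le_genU (Z : 𝒱.Obj) (j : ℕ) : spanCycles W Z j ≤ genU Φ Z j := by
  intro c hc
  obtain ⟨t, ht, h⟩ := exists_span_eig Φ Z j
  exact (mem_genU Φ).2 ⟨t, ht, mem_genTate_of_eig Φ (span_gr hc) (h c hc)⟩

/-! ### The parity operator -/

open Polynomial in
/-- The Riemann hypothesis implies that the parity operator is algebraic. -/
theorem par_mem_of_RH [IsAlgClosed W.K] (hp : 1 < p) (σ : W.K →+* ℂ) (hRH : RiemannHyp Φ σ Z) :
    par (W.isInternal Z) ∈ KOp W Z Z 0 := by
  classical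
  set F := frob Φ Z 1 with hF
  have hFmem : F ∈ KAlg W Z := map_mem_KOp _
  have hq1 : (1 : ℝ) < (card Φ Z 1 : ℝ) := by
    have : 1 < card Φ Z 1 := Nat.one_lt_pow (Nat.mul_pos (Φ.e_pos Z) one_pos).ne' hp
    exact_mod_cast this
  -- the characteristic polynomials are pairwise coprime
  have hcop : ∀ i j, i ≠ j → IsCoprime (frobOn Φ Z 1 i).charpoly (frobOn Φ Z 1 j).charpoly := by
    intro i j hij
    rw [Polynomial.isCoprime_iff_aeval_ne_zero_of_isAlgClosed W.K W.K]
    intro a
    by_contra hcon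
    push Not at hcon
    obtain ⟨h1, h2⟩ := hcon
    have hroot : ∀ i, aeval a (frobOn Φ Z 1 i).charpoly = 0 →
        ‖σ a‖ ^ 2 = (card Φ Z 1 : ℝ) ^ i := by
      intro i h
      apply hRH 1 one_pos i (σ a)
      rw [frobPoly_eq, IsRoot.def, Polynomial.eval_map, Polynomial.eval₂_at_apply,
        ← Polynomial.coe_aeval_eq_eval, h, map_zero]
    have h3 := (hroot i h1).symm.trans (hroot j h2)
    exact hij (pow_right_injective₀ (by linarith) hq1.ne' h3)
  have hkill : ∀ i, ∀ x ∈ W.gr Z i, aeval F (frobOn Φ Z 1 i).charpoly x = 0 := by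
    intro i x hx
    have h1 := LinearMap.aeval_self_charpoly (frobOn Φ Z 1 i)
    have h2 : ∀ P : W.K[X], ((aeval (frobOn Φ Z 1 i) P ⟨x, hx⟩ : W.gr Z i) : W.H Z) =
        aeval F P x := by
      intro P
      induction P using Polynomial.induction_on' with
      | add P Q hP hQ =>
        rw [map_add, map_add, LinearMap.add_apply, LinearMap.add_apply, Submodule.coe_add, hP, hQ]
      | monomial n c =>
        have h3 : ∀ n : ℕ, ((((frobOn Φ Z 1 i) ^ n) ⟨x, hx⟩ : W.gr Z i) : W.H Z) =
            (F ^ n) x := by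
          intro n
          induction n with
          | zero => rfl
          | succ n ih =>
            rw [pow_succ', pow_succ', Module.End.mul_apply, Module.End.mul_apply, ← ih]
            rfl
        rw [aeval_monomial, aeval_monomial, Module.End.mul_apply, Module.End.mul_apply,
          Module.algebraMap_end_apply, Module.algebraMap_end_apply, Submodule.coe_smul, h3]
    rw [← h2, h1]
    rfl
  set N := 2 * Z.dim + 1 with hN
  set A : W.K[X] := ∏ i ∈ (Finset.range N).filter Even, (frobOn Φ Z 1 i).charpoly with hA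
  set B : W.K[X] := ∏ i ∈ (Finset.range N).filter (fun i => ¬ Even i),
    (frobOn Φ Z 1 i).charpoly with hB
  have hAB : IsCoprime A B := by
    rw [hA, hB]
    apply IsCoprime.prod_left
    intro i hi
    apply IsCoprime.prod_right
    intro j hj
    apply hcop
    rintro rfl
    exact (Finset.mem_filter.1 hj).2 (Finset.mem_filter.1 hi).2
  obtain ⟨a, b, hab⟩ := hAB
  have hkA : ∀ i, i < N → Even i → ∀ x ∈ W.gr Z i, aeval F A x = 0 := by
    intro i hi hev x hx
    obtain ⟨Q, hQ⟩ := Finset.dvd_prod_of_mem (fun i => (frobOn Φ Z 1 i).charpoly)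
      (Finset.mem_filter.2 ⟨Finset.mem_range.2 hi, hev⟩)
    rw [hA, hQ, mul_comm, map_mul, Module.End.mul_apply, hkill i x hx, map_zero]
  have hkB : ∀ i, i < N → ¬ Even i → ∀ x ∈ W.gr Z i, aeval F B x = 0 := by
    intro i hi hev x hx
    obtain ⟨Q, hQ⟩ := Finset.dvd_prod_of_mem (fun i => (frobOn Φ Z 1 i).charpoly)
      ((Finset.mem_filter (p := fun i => ¬ Even i)).2 ⟨Finset.mem_range.2 hi, hev⟩)
    rw [hB, hQ, mul_comm, map_mul, Module.End.mul_apply, hkill i x hx, map_zero]
  have hpar : par (W.isInternal Z) = aeval F (b * B - a * A) := by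
    apply gr_ext (W.isInternal Z)
    intro i x hx
    rw [par, scal_apply _ _ hx]
    have h1 := congrArg (fun P => aeval F P x) hab
    simp only [map_add, map_mul, map_one, LinearMap.add_apply, Module.End.mul_apply,
      Module.End.one_apply] at h1
    rw [map_sub, map_mul, map_mul, LinearMap.sub_apply, Module.End.mul_apply,
      Module.End.mul_apply]
    by_cases hi : i < N
    · by_cases hev : Even i
      · rw [hkA i hi hev x hx, map_zero, zero_add] at h1
        rw [hkA i hi hev x hx, map_zero, h1, hev.neg_one_pow, one_smul, sub_zero]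
      · rw [hkB i hi hev x hx, map_zero, add_zero] at h1
        rw [hkB i hi hev x hx, map_zero, h1, (Nat.not_even_iff_odd.1 hev).neg_one_pow,
          neg_one_smul, zero_sub]
    · rw [W.gr_eq_bot Z i (by omega)] at hx
      rw [(Submodule.mem_bot _).1 hx]
      simp
  rw [hpar]
  have hmem : ∀ P : W.K[X], aeval F P ∈ KAlg W Z := by
    intro P
    have h1 : aeval F P = ((aeval (⟨F, hFmem⟩ : KAlg W Z) P : KAlg W Z) :
        Module.End W.K (W.H Z)) := by
      rw [← Subalgebra.coe_val, ← Polynomial.aeval_algHom_apply]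
      rfl
    rw [h1]
    exact Subtype.mem _
  exact hmem _

end Pool.Agent.Y163
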