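import Pool.Agent.Y163.TateA

/-!
# From the middle degree of squares to all degrees, and the index law for zeta functions
-/

set_option linter.unusedVariables false
set_option linter.unusedSectionVars false

open CategoryTheory AlgebraicGeometry CategoryTheory.Limits

universe u v

namespace Pool.Agent.Y163

open Pool.Agent.H914 Pool.Agent.H447 Pool.Agent.W534 VarClass Obj WeilCohomology Module

variable {k : Type u} [Field k] {𝒱 : VarClass k} {ops : CycleOps 𝒱}
  {W : WeilCohomology.{u, v} ops} {X Y Z U S : 𝒱.Obj} {p : ℕ}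

/-- The system of the spans of the algebraic classes. -/
noncomputable def spanS (W : WeilCohomology.{u, v} ops) : SFam W where
  T Z j := spanCycles W Z j
  cl_mul := by
    intro Z i j z c hz hc
    exact (spanFam W).cl_mul hz hc
  map := by
    intro X Y f j c hc
    exact map_span f hc
  push := by
    intro X Y f i j c hc hij
    exact (spanFam W).push f hc hij
  push_zero := by
    intro X Y f i c hc hij
    have := W.push_mem f (span_gr hc)
    rw [grZ_of_neg (by push_cast; omega)] at this
    exact (Submodule.mem_bot _).1 this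

lemma mulLeft_pow_one (a : W.H X) (n : ℕ) : (LinearMap.mulLeft W.K a ^ n) 1 = a ^ n := by
  induction n with
  | zero => simp
  | succ n ih => rw [pow_succ', Module.End.mul_apply, ih, LinearMap.mulLeft_apply, pow_succ']

lemma cl_divPow_fund (D : X.Cycles) (n : ℕ) :
    W.cl X (divPow ops D n X.V.fundCycle) = W.cl X D ^ n := by
  rw [cl_divPow, W.cl_fund, mulLeft_pow_one]

lemma divPow_fund_mem {D : X.Cycles} (hD : X.IsCyc 1 D) (n : ℕ) :
    X.IsCyc n (divPow ops D n X.V.fundCycle) := by
  have := divPow_mem (ops := ops) hD n X.V.fundCycle_mem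
  rwa [zero_add] at this

lemma Big.tr {D : X.Cycles} (hD : X.IsCyc 1 D) (h : Big ops X D) :
    W.tr X (W.cl X D ^ X.dim) ≠ 0 := by
  rw [← cl_divPow_fund, W.tr_cl (divPow_fund_mem hD _)]
  exact Rat.cast_ne_zero.2 h

lemma pow_mem_gr {D : X.Cycles} (hD : X.IsCyc 1 D) (n : ℕ) : W.cl X D ^ n ∈ W.gr X (2 * n) := by
  rw [← cl_divPow_fund]
  exact W.cl_mem (divPow_fund_mem hD n)

/-- Divisors on products with nonvanishing self-intersection number. -/
lemma exists_big_prod {D : X.Cycles} (hD : X.IsCyc 1 D) (h : W.tr X (W.cl X D ^ X.dim) ≠ 0)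
    {E : U.Cycles} (hE : U.IsCyc 1 E) (hE2 : W.tr U (W.cl U E ^ U.dim) ≠ 0) :
    ∃ G : (X.prod U).Cycles, (X.prod U).IsCyc 1 G ∧
      W.tr (X.prod U) (W.cl (X.prod U) G ^ (X.prod U).dim) ≠ 0 := by
  refine ⟨ops.pull (fst X U) D + ops.pull (snd X U) E,
    (ops.pull_mem _ hD).add (ops.pull_mem _ hE), ?_⟩
  rw [map_add, W.cl_pull, W.cl_pull, dim_prod]
  have hc : Commute (W.map (fst X U) (W.cl X D)) (W.map (snd X U) (W.cl U E)) :=
    W.even_comm (p := 1) (W.map_mem _ (W.cl_mem hD)) _
  rw [hc.add_pow, map_sum]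
  have hterm : ∀ i ∈ Finset.range (X.dim + U.dim + 1),
      W.tr (X.prod U) (W.map (fst X U) (W.cl X D) ^ i *
        W.map (snd X U) (W.cl U E) ^ (X.dim + U.dim - i) *
          ((X.dim + U.dim).choose i : W.H (X.prod U))) =
      if i = X.dim then ((X.dim + U.dim).choose X.dim : W.K) *
        (W.tr X (W.cl X D ^ X.dim) * W.tr U (W.cl U E ^ U.dim)) else 0 := by
    intro i hi
    rw [← map_pow (W.map (fst X U)), ← map_pow (W.map (snd X U)), ← nsmul_eq_mul', map_nsmul,
      W.tr_prod]
    split_ifs with h1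
    · subst h1
      rw [show X.dim + U.dim - X.dim = U.dim by omega, nsmul_eq_mul]
    · rw [W.tr_eq_zero (pow_mem_gr hD i) (by omega), zero_mul, nsmul_zero]
  rw [Finset.sum_congr rfl hterm, Finset.sum_ite_eq', if_pos (Finset.mem_range.2 (by omega))]
  exact mul_ne_zero (Nat.cast_ne_zero.2 (Nat.choose_pos (by omega)).ne') (mul_ne_zero h hE2)

/-- Divisors on the powers with nonvanishing self-intersection number. -/
lemma exists_big {D : X.Cycles} (hD : X.IsCyc 1 D) (h : W.tr X (W.cl X D ^ X.dim) ≠ 0) (n : ℕ) :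
    ∃ E : (pw X n).Cycles, (pw X n).IsCyc 1 E ∧
      W.tr (pw X n) (W.cl (pw X n) E ^ (pw X n).dim) ≠ 0 := by
  induction n with
  | zero => exact ⟨D, hD, h⟩
  | succ n ih =>
    obtain ⟨E, hE, hE2⟩ := ih
    exact exists_big_prod hD h hE hE2

/-- The pole formula in the middle degree of `U × U` implies the pole formula in all degrees
of `U`. -/
theorem factor_pole {Φ : FrobSystem W p} {σ : W.K →+* ℂ} (hp : 1 < p)
    (hRH : RiemannHyp Φ σ (U.prod U)) (hRH' : RiemannHyp Φ σ U) {E : U.Cycles}
    (hE : U.IsCyc 1 E) (hE2 : W.tr U (W.cl U E ^ U.dim) ≠ 0)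
    (h : PoleFormula Φ σ (U.prod U) U.dim) {j : ℕ} (hj : j ≤ U.dim) : PoleFormula Φ σ U j := by
  obtain ⟨hss, hinj⟩ := semisimple_of_pole (Z := U.prod U) hp hRH (j := U.dim) (l := U.dim)
    (by rw [dim_prod]) h
  obtain ⟨l, hl⟩ := Nat.exists_eq_add_of_le hj
  rw [pole_iff_tate hp hRH' hj]
  -- recovering the first factor
  have hrec : ∀ c ∈ W.gr U (2 * j), ∀ e, e = W.map (fst U U) c * W.map (snd U U) (W.cl U E ^ l) →
      W.corr (W.map (swap U U) e) (W.cl U E ^ j) = W.tr U (W.cl U E ^ U.dim) • c := by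
    rintro c hc e rfl
    rw [corr_swap_tmul hc (pow_mem_gr hE l), LinearMap.smulRight_apply, LinearMap.comp_apply,
      LinearMap.mulLeft_apply, ← pow_add, show l + j = U.dim by omega]
  constructor
  · intro c hc
    obtain ⟨s, hs, hc'⟩ := IsTate.mem Φ hc
    have h1 : c ∈ (genFam Φ).T U j := (mem_genU Φ).2 ⟨s, hs, hc'⟩
    have h2 := (genFam Φ).cl_mul (ops.pull_mem (snd U U) (divPow_fund_mem (ops := ops) hE l))
      ((genFam Φ).map (fst U U) h1)
    rw [W.cl_pull, cl_divPow_fund, W.even_comm (W.map_mem _ (pow_mem_gr hE l)),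
      show l + j = U.dim by omega] at h2
    obtain ⟨s', hs', h3⟩ := (mem_genU Φ).1 h2
    have h4 := hss s' hs' h3
    have h5 : W.corr (W.map (swap U U) (W.map (fst U U) c * W.map (snd U U) (W.cl U E ^ l))) ∈
        KOp W U U 0 := by
      rw [mem_KOp_iff]
      exact ⟨_, by rw [add_zero]; exact map_span _ h4, rfl⟩
    have h6 : W.cl U E ^ j ∈ (spanS W).T U j := by
      rw [← cl_divPow_fund]
      exact mem_span_cl (divPow_fund_mem hE j)
    have h7 := (spanS W).stable h5 (j' := j) (by ring) h6
    rw [hrec c hc.1 _ rfl] at h7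
    have h8 := Submodule.smul_mem _ (W.tr U (W.cl U E ^ U.dim))⁻¹ h7
    rwa [smul_smul, inv_mul_cancel₀ hE2, one_smul] at h8
  · intro z hz hnum
    have horth : ∀ g ∈ spanCycles W U l, W.tr U (W.cl U z * g) = 0 := by
      intro g hg
      induction hg using Submodule.span_induction with
      | mem x hx =>
        obtain ⟨r, hr, w, hw, rfl⟩ := hx
        obtain rfl : r = l := by exact_mod_cast hr
        rw [tr_mul_cl hz hw hl.symm, hnum w (by rwa [show U.dim - j = r by omega]), Rat.cast_zero]
      | zero => rw [mul_zero, map_zero]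
      | add x y _ _ hx hy => rw [mul_add, map_add, hx, hy, add_zero]
      | smul a x _ hx => rw [mul_smul_comm, map_smul, hx, smul_zero]
    have hb : W.map (snd U U) (W.cl U E ^ l) ∈ spanCycles W (U.prod U) l :=
      map_span _ (by rw [← cl_divPow_fund]; exact mem_span_cl (divPow_fund_mem hE l))
    have he : W.map (fst U U) (W.cl U z) * W.map (snd U U) (W.cl U E ^ l) ∈
        spanCycles W (U.prod U) U.dim := by
      have := (spanS W).cl_mul (ops.pull_mem (fst U U) hz) hb
      rw [W.cl_pull, ← hl] at this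
      exact this
    have h1 : (⟨_, he⟩ : spanCycles W (U.prod U) U.dim) = 0 := by
      apply hinj
      rw [map_zero]
      apply LinearMap.ext
      rintro ⟨w, hw⟩
      rw [pair_apply, LinearMap.zero_apply]
      change W.tr (U.prod U) (W.map (fst U U) (W.cl U z) * W.map (snd U U) (W.cl U E ^ l) * w) = 0
      rw [mul_assoc, W.even_comm (W.map_mem _ (W.cl_mem hz)), ← W.tr_push,
        ← W.even_comm (W.cl_mem hz)]
      apply horth
      have h2 := (spanS W).cl_mul (ops.pull_mem (snd U U) (divPow_fund_mem (ops := ops) hE l)) hw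
      rw [W.cl_pull, cl_divPow_fund] at h2
      exact (spanS W).push (fst U U) h2 (by rw [dim_prod]; omega)
    have h2 := hrec _ (W.cl_mem hz) _ rfl
    have h3 : W.map (fst U U) (W.cl U z) * W.map (snd U U) (W.cl U E ^ l) = 0 :=
      congrArg Subtype.val h1
    rw [h3, map_zero, corr_zero, LinearMap.zero_apply] at h2
    exact (smul_eq_zero.1 h2.symm).resolve_left hE2

lemma poleOrderIs {Φ : FrobSystem W p} {σ : W.K →+* ℂ} (hp : 1 < p) (hRH : RiemannHyp Φ σ Z)
    {j : ℕ} (hj : j ≤ Z.dim) : PoleOrderIs Φ σ Z j (finrank W.K (genU Φ Z j)) := by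
  refine ⟨(exists_stable Φ Z j).choose, (exists_stable Φ Z j).choose_spec.1, fun s hs hts => ?_⟩
  rw [order_zetaFn Φ hp σ hRH hs hj, genU_eq Φ hs hts]

lemma numRank_sq (X : 𝒱.Obj) (n : ℕ) : numRank ops (sq X n) ((n + 1) * X.dim) = mrank W X n := by
  rw [numRank_eq (W := W) (by rw [dim_sq]; omega), mrank, dim_sq]
  congr 1
  omega

/-- **The index law for zeta functions.** -/
theorem tate_index [IsAlgClosed W.K] (hp : 1 < p) (Φ : FrobSystem W p) (σ : W.K →+* ℂ)
    (hRH : ∀ Z, RiemannHyp Φ σ Z) {D : X.Cycles} (hD : X.IsCyc 1 D) (hbig : Big ops X D) :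
    ∃ z : ℕ → ℕ, (∀ n, PoleOrderIs Φ σ (sq X n) ((n + 1) * X.dim) (z n)) ∧
      (∀ n, 0 < numRank ops (sq X n) ((n + 1) * X.dim) ∧
        numRank ops (sq X n) ((n + 1) * X.dim) ≤ z n) ∧
      ((∀ n j, j ≤ (pw X n).dim → PoleFormula Φ σ (pw X n) j) ∨
        (∃ d : ℕ, 2 ≤ d ∧ (∀ n, z n ≤ d * numRank ops (sq X n) ((n + 1) * X.dim)) ∧
          Filter.Tendsto (fun n => (z n : ℝ) / numRank ops (sq X n) ((n + 1) * X.dim))
            Filter.atTop (nhds d)) ∨
        Filter.Tendsto (fun n => (z n : ℝ) / numRank ops (sq X n) ((n + 1) * X.dim))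
          Filter.atTop Filter.atTop) := by
  have hX : par (W.isInternal X) ∈ KOp W X X 0 := par_mem_of_RH Φ hp σ (hRH X)
  have htr : W.tr X (W.cl X D ^ X.dim) ≠ 0 := hbig.tr hD
  have hH : 0 < finrank W.K (W.H X) := by
    have : Nontrivial (W.H X) := by
      by_contra hcon
      rw [not_nontrivial_iff_subsingleton] at hcon
      apply htr
      rw [Subsingleton.elim (W.cl X D ^ X.dim) 0, map_zero]
    exact finrank_pos
  simp only [numRank_sq (W := W) X]
  refine ⟨fun n => finrank W.K (genU Φ (sq X n) ((n + 1) * X.dim)),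
    fun n => poleOrderIs hp (hRH _) (by rw [dim_sq]; omega), ?_, ?_⟩
  · intro n
    constructor
    · have h1 := mrank_growth hX n
      apply Nat.pos_of_ne_zero
      intro h0
      rw [h0, zero_mul] at h1
      have h2 : 0 < (finrank W.K (W.H X) ^ 2) ^ (n + 1) := by positivity
      omega
    · exact (kRank_le _ _).trans (Submodule.finrank_mono (span_le_genU Φ _ _))
  · have hpos : ∀ n, 0 < mrank W X n := by
      intro n
      have h1 := mrank_growth hX n
      apply Nat.pos_of_ne_zero
      intro h0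
      rw [h0, zero_mul] at h1
      have h2 : 0 < (finrank W.K (W.H X) ^ 2) ^ (n + 1) := by positivity
      omega
    have hle : ∀ n, mrank W X n ≤ finrank W.K (genU Φ (sq X n) ((n + 1) * X.dim)) := fun n =>
      (kRank_le _ _).trans (Submodule.finrank_mono (span_le_genU Φ _ _))
    rcases index_law hX hH (fun n => genU Φ (sq X n) ((n + 1) * X.dim))
      ((genFam Φ).stable_sq X) with ⟨d, hd1, hd2⟩ | h
    · have hd0 : 1 ≤ d := by
        by_contra hcon
        have h1 := hd1 0
        have h2 := hpos 0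
        have h3 := hle 0
        have : d = 0 := by omega
        rw [this, zero_mul] at h1
        omega
      rcases Nat.lt_or_ge d 2 with hlt | hge
      · left
        have hd : d = 1 := by omega
        intro n j hj
        obtain ⟨E, hE, hE2⟩ := exists_big hD htr n
        refine factor_pole hp (hRH _) (hRH _) hE hE2 ?_ hj
        have hpf : PoleFormula Φ σ (sq X n) ((n + 1) * X.dim) := by
          rw [poleFormula_iff Φ hp σ (hRH _) (by rw [dim_sq]; omega)]
          refine ⟨(exists_stable Φ (sq X n) ((n + 1) * X.dim)).choose,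
            (exists_stable Φ (sq X n) ((n + 1) * X.dim)).choose_spec.1, fun s hs hts => ?_⟩
          have h1 := hd1 n
          rw [hd, one_mul] at h1
          have h2 := le_antisymm (hle n) h1
          rw [genU_eq Φ hs hts, ← h2, mrank]
          congr 1
          rw [dim_sq]
          omega
        rw [← dim_pw] at hpf
        exact hpf
      · right; left
        exact ⟨d, hge, hd1, hd2⟩
    · right; right
      exact h

end Pool.Agent.Y163
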