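import Pool.Agent.Y163.TateB
import Pool.Agent.Y163.Eff

/-!
# The effective index law for zeta functions
-/

set_option linter.unusedVariables false
set_option linter.unusedSectionVars false

open CategoryTheory AlgebraicGeometry CategoryTheory.Limits

universe u v

namespace Pool.Agent.Y163

open Pool.Agent.H914 Pool.Agent.H447 Pool.Agent.W534 VarClass Obj WeilCohomology Module

variable {k : Type u} [Field k] {𝒱 : VarClass k} {ops : CycleOps 𝒱}
  {W : WeilCohomology.{u, v} ops} {X Y Z U S : 𝒱.Obj} {p : ℕ}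

lemma mrank_zero_le : mrank W X 0 ≤ finrank W.K (W.H X) ^ 2 := by
  refine (kRank_le _ _).trans ((Submodule.finrank_le _).trans (le_of_eq ?_))
  exact finrank_pw (W := W) (X := X) 1

/-- The effective index law for stable families. -/
theorem index_eff [IsAlgClosed W.K] (hX : par (W.isInternal X) ∈ KOp W X X 0)
    (hH : 0 < finrank W.K (W.H X)) (T : ∀ n, Submodule W.K (W.H (sq X n))) (hT : Stable W X T)
    {κ : ℕ} (hfail : mrank W X κ < finrank W.K (T κ)) {M : ℕ} (hM : 0 < M) :
    (2 - 2 * (κ + 1) * (finrank W.K (W.H X) : ℝ) ^ (2 * κ + 4) * Real.log (M + 2) / M) *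
      mrank W X M ≤ finrank W.K (T M) := by
  have h := eff_law (pow_pos hH 2) mrank_zero_le (mrank_sq_le hX) (mrank_growth hX)
    (level hX T hT κ) hfail hM
  refine le_trans (le_of_eq ?_) h
  push_cast
  ring

/-- **The index law for zeta functions, with its effective form.** -/
theorem tate_index' [IsAlgClosed W.K] (hp : 1 < p) (Φ : FrobSystem W p) (σ : W.K →+* ℂ)
    (hRH : ∀ Z, RiemannHyp Φ σ Z) {D : X.Cycles} (hD : X.IsCyc 1 D) (hbig : Big ops X D) :
    ∃ z : ℕ → ℕ, (∀ n, PoleOrderIs Φ σ (sq X n) ((n + 1) * X.dim) (z n)) ∧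
      (∀ n, 0 < numRank ops (sq X n) ((n + 1) * X.dim) ∧
        numRank ops (sq X n) ((n + 1) * X.dim) ≤ z n) ∧
      ((∀ n j, j ≤ (pw X n).dim → PoleFormula Φ σ (pw X n) j) ∨
        (∃ d : ℕ, 2 ≤ d ∧ (∀ n, z n ≤ d * numRank ops (sq X n) ((n + 1) * X.dim)) ∧
          Filter.Tendsto (fun n => (z n : ℝ) / numRank ops (sq X n) ((n + 1) * X.dim))
            Filter.atTop (nhds d)) ∨
        Filter.Tendsto (fun n => (z n : ℝ) / numRank ops (sq X n) ((n + 1) * X.dim))
          Filter.atTop Filter.atTop) ∧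
      ∀ κ n : ℕ, 0 < n → (z n : ℝ) <
          (2 - 2 * (κ + 1) * (finrank W.K (W.H X) : ℝ) ^ (2 * κ + 4) * Real.log (n + 2) / n) *
            numRank ops (sq X n) ((n + 1) * X.dim) →
        ∀ j ≤ (pw X κ).dim, PoleFormula Φ σ (pw X κ) j := by
  have hX : par (W.isInternal X) ∈ KOp W X X 0 := par_mem_of_RH Φ hp σ (hRH X)
  have htr : W.tr X (W.cl X D ^ X.dim) ≠ 0 := hbig.tr hD
  have hH : 0 < finrank W.K (W.H X) := by
    have : Nontrivial (W.H X) := by
      by_contra hcon
      rw [not_nontrivial_iff_subsingleton] at hcon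
      apply htr
      rw [Subsingleton.elim (W.cl X D ^ X.dim) 0, map_zero]
    exact finrank_pos
  have hle : ∀ n, mrank W X n ≤ finrank W.K (genU Φ (sq X n) ((n + 1) * X.dim)) := fun n =>
    (kRank_le _ _).trans (Submodule.finrank_mono (span_le_genU Φ _ _))
  have hpos : ∀ n, 0 < mrank W X n := by
    intro n
    have h1 := mrank_growth hX n
    apply Nat.pos_of_ne_zero
    intro h0
    rw [h0, zero_mul] at h1
    have h2 : 0 < (finrank W.K (W.H X) ^ 2) ^ (n + 1) := by positivity
    omega
  -- equality in the middle degree of the square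
  have heq : ∀ n, finrank W.K (genU Φ (sq X n) ((n + 1) * X.dim)) ≤ mrank W X n →
      ∀ j, j ≤ (pw X n).dim → PoleFormula Φ σ (pw X n) j := by
    intro n h1 j hj
    obtain ⟨E, hE, hE2⟩ := exists_big hD htr n
    refine factor_pole hp (hRH _) (hRH _) hE hE2 ?_ hj
    have hpf : PoleFormula Φ σ (sq X n) ((n + 1) * X.dim) := by
      rw [poleFormula_iff Φ hp σ (hRH _) (by rw [dim_sq]; omega)]
      refine ⟨(exists_stable Φ (sq X n) ((n + 1) * X.dim)).choose,
        (exists_stable Φ (sq X n) ((n + 1) * X.dim)).choose_spec.1, fun s hs hts => ?_⟩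
      have h2 := le_antisymm (hle n) h1
      rw [genU_eq Φ hs hts, ← h2, mrank]
      congr 1
      rw [dim_sq]
      omega
    rw [← dim_pw] at hpf
    exact hpf
  simp only [numRank_sq (W := W) X]
  refine ⟨fun n => finrank W.K (genU Φ (sq X n) ((n + 1) * X.dim)),
    fun n => poleOrderIs hp (hRH _) (by rw [dim_sq]; omega), fun n => ⟨hpos n, hle n⟩, ?_, ?_⟩
  · rcases index_law hX hH (fun n => genU Φ (sq X n) ((n + 1) * X.dim))
      ((genFam Φ).stable_sq X) with ⟨d, hd1, hd2⟩ | h
    · have hd0 : 1 ≤ d := by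
        by_contra hcon
        have h1 := hd1 0
        have h2 := hpos 0
        have h3 := hle 0
        have : d = 0 := by omega
        rw [this, zero_mul] at h1
        omega
      rcases Nat.lt_or_ge d 2 with hlt | hge
      · left
        have hd : d = 1 := by omega
        intro n
        have h1 := hd1 n
        rw [hd, one_mul] at h1
        exact heq n h1
      · right; left
        exact ⟨d, hge, hd1, hd2⟩
    · right; right
      exact h
  · intro κ n hn hlt
    apply heq κ
    by_contra hcon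
    push Not at hcon
    have h1 := index_eff hX hH (fun n => genU Φ (sq X n) ((n + 1) * X.dim))
      ((genFam Φ).stable_sq X) hcon hn
    exact absurd hlt (not_lt.2 h1)

end Pool.Agent.Y163
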