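import Mathlib
import Pool.Agent.H914R2.Core0

/-!
# Algebras of operators: the radical of the trace form
-/

namespace Pool.Agent.Y163

open Module Pool.Agent.H914

variable {K : Type*} [Field K] {V : Type*} [AddCommGroup V] [Module K V]

/-- The radical of the trace form of the algebra `B` of operators. -/
def rad (B : Subalgebra K (End K V)) : Submodule K (End K V) where
  carrier := {x | x ∈ B ∧ ∀ y ∈ B, LinearMap.trace K V (x * y) = 0}
  zero_mem' := ⟨B.zero_mem, fun y _ => by rw [zero_mul, map_zero]⟩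
  add_mem' := by
    rintro a b ⟨ha, ha'⟩ ⟨hb, hb'⟩
    exact ⟨B.add_mem ha hb, fun y hy => by rw [add_mul, map_add, ha' y hy, hb' y hy, add_zero]⟩
  smul_mem' := by
    rintro c a ⟨ha, ha'⟩
    exact ⟨B.smul_mem ha c, fun y hy => by rw [smul_mul_assoc, map_smul, ha' y hy, smul_zero]⟩

lemma mem_rad {B : Subalgebra K (End K V)} {x : End K V} :
    x ∈ rad B ↔ x ∈ B ∧ ∀ y ∈ B, LinearMap.trace K V (x * y) = 0 := Iff.rfl

lemma rad_mul_right {B : Subalgebra K (End K V)} {x y : End K V} (hx : x ∈ rad B) (hy : y ∈ B) :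
    x * y ∈ rad B :=
  ⟨B.mul_mem hx.1 hy, fun z hz => by rw [mul_assoc]; exact hx.2 _ (B.mul_mem hy hz)⟩

lemma rad_mul_left {B : Subalgebra K (End K V)} {x y : End K V} (hx : x ∈ rad B) (hy : y ∈ B) :
    y * x ∈ rad B :=
  ⟨B.mul_mem hy hx.1, fun z hz => by
    rw [mul_assoc, LinearMap.trace_mul_comm, mul_assoc]; exact hx.2 _ (B.mul_mem hz hy)⟩

lemma trace_rad {B : Subalgebra K (End K V)} {x : End K V} (hx : x ∈ rad B) :
    LinearMap.trace K V x = 0 := by
  have := hx.2 1 B.one_mem
  rwa [mul_one] at this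

section Fin

variable [Module.Finite K V] [CharZero K]

/-- The radical of the trace form is the Jacobson radical. -/
lemma mem_rad_iff (B : Subalgebra K (End K V)) (x : B) :
    (x : End K V) ∈ rad B ↔ x ∈ Ring.jacobson B := by
  have hfin : Module.Finite K B := inferInstance
  have hart : IsArtinianRing B := IsArtinianRing.of_finite K B
  have hsp : IsSemiprimaryRing B := inferInstance
  constructor
  · intro hx
    have hnil : ∀ y : B, IsNilpotent (y * x) := by
      intro y
      have h1 : IsNilpotent ((y * x : B) : End K V) := by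
        apply isNilpotent_of_trace_pow
        intro r
        have h2 : (((y * x : B) : End K V)) ∈ rad B := rad_mul_left hx y.2
        have h3 : ((y * x : B) : End K V) ^ (r + 1) =
            ((y * x : B) : End K V) * (((y * x) ^ r : B) : End K V) := by
          rw [pow_succ']
          rfl
        rw [h3]
        exact h2.2 _ ((y * x) ^ r : B).2
      obtain ⟨n, hn⟩ := h1
      refine ⟨n, ?_⟩
      apply Subtype.ext
      rw [SubmonoidClass.coe_pow, hn]
      rfl
    rw [← Ideal.jacobson_bot, Ideal.mem_jacobson_iff]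
    intro y
    have h1 : IsUnit (1 + y * x) := by
      have := (hnil y).isUnit_one_add
      exact this
    obtain ⟨u, hu⟩ := h1
    refine ⟨(u⁻¹ : Bˣ), ?_⟩
    rw [Ideal.mem_bot]
    have h2 : (↑(u⁻¹ : Bˣ) : B) * (1 + y * x) = 1 := by rw [← hu]; simp
    rw [mul_assoc]
    rw [mul_add, mul_one] at h2
    rw [add_comm, h2, sub_self]
  · intro hx
    refine ⟨x.2, fun y hy => ?_⟩
    obtain ⟨n, hn⟩ := hsp.isNilpotent
    have h1 : x * ⟨y, hy⟩ ∈ Ring.jacobson B := by
      exact Ideal.IsTwoSided.mul_mem_of_left _ hx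
    have h2 : (x * ⟨y, hy⟩) ^ n = 0 := by
      have h3 : (x * ⟨y, hy⟩) ^ n ∈ (Ring.jacobson B) ^ n := Ideal.pow_mem_pow h1 n
      rw [hn] at h3
      exact h3
    have h4 : IsNilpotent ((x : End K V) * y) := by
      refine ⟨n, ?_⟩
      have := congrArg (Subtype.val) h2
      rw [SubmonoidClass.coe_pow] at this
      exact this
    exact (LinearMap.isNilpotent_trace_of_isNilpotent h4).eq_zero

/-- The radical is nilpotent. -/
lemma exists_nilp (B : Subalgebra K (End K V)) : ∃ N : ℕ, ∀ l : List (End K V),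
    (∀ x ∈ l, x ∈ rad B) → l.length = N → l.prod = 0 := by
  have hfin : Module.Finite K B := inferInstance
  have hart : IsArtinianRing B := IsArtinianRing.of_finite K B
  have hsp : IsSemiprimaryRing B := inferInstance
  obtain ⟨N, hN⟩ := hsp.isNilpotent
  refine ⟨N, fun l hl hlen => ?_⟩
  have key : ∀ l : List (End K V), (∀ x ∈ l, x ∈ rad B) →
      ∃ y : B, (y : End K V) = l.prod ∧ y ∈ (Ring.jacobson B) ^ l.length := by
    intro l
    induction l with
    | nil =>
      intro _
      refine ⟨1, rfl, ?_⟩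
      rw [List.length_nil, Submodule.pow_zero, Ideal.one_eq_top]
      trivial
    | cons a l ih =>
      intro h
      obtain ⟨y, hy, hy'⟩ := ih (fun x hx => h x (List.mem_cons_of_mem _ hx))
      have ha := h a (by simp)
      refine ⟨⟨a, ha.1⟩ * y, ?_, ?_⟩
      · rw [List.prod_cons, ← hy]; rfl
      · have h2 := Ideal.mul_mem_mul ((mem_rad_iff B ⟨a, ha.1⟩).1 ha) hy'
        rwa [← Ideal.IsTwoSided.pow_succ] at h2
  obtain ⟨y, hy, hy'⟩ := key l hl
  rw [hlen, hN] at hy'
  have : y = 0 := hy'
  rw [← hy, this]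
  rfl

/-- Nakayama's lemma for finite families of vectors. -/
lemma nakayama (B : Subalgebra K (End K V)) {ι : Type*} [Fintype ι] (t : ι → V)
    (ε : ι → ι → End K V) (hε : ∀ a b, ε a b ∈ rad B) (h : ∀ a, t a = ∑ b, ε a b (t b)) :
    ∀ a, t a = 0 := by
  obtain ⟨N, hN⟩ := exists_nilp B
  have key : ∀ n : ℕ, ∀ a, t a ∈ Submodule.span K
      {w : V | ∃ l : List (End K V), (∀ x ∈ l, x ∈ rad B) ∧ l.length = n ∧ ∃ v, w = l.prod v} := by
    intro n
    induction n with
    | zero => intro a; exact Submodule.subset_span ⟨[], by simp, rfl, t a, by simp⟩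
    | succ n ih =>
      intro a
      rw [h a]
      apply Submodule.sum_mem
      intro b _
      have h1 := ih b
      generalize t b = w at h1
      induction h1 using Submodule.span_induction with
      | mem w hw =>
        obtain ⟨l, hl, hlen, v, rfl⟩ := hw
        refine Submodule.subset_span ⟨ε a b :: l, ?_, by simp [hlen], v, ?_⟩
        · intro x hx
          rcases List.mem_cons.1 hx with rfl | hx
          · exact hε a b
          · exact hl x hx
        · rw [List.prod_cons]; rfl
      | zero => rw [map_zero]; exact Submodule.zero_mem _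
      | add x y _ _ hx hy => rw [map_add]; exact Submodule.add_mem _ hx hy
      | smul c x _ hx => rw [map_smul]; exact Submodule.smul_mem _ _ hx
  intro a
  have h1 := key N a
  have h2 : Submodule.span K
      {w : V | ∃ l : List (End K V), (∀ x ∈ l, x ∈ rad B) ∧ l.length = N ∧ ∃ v, w = l.prod v} ≤ ⊥ := by
    rw [Submodule.span_le]
    rintro w ⟨l, hl, hlen, v, rfl⟩
    rw [hN l hl hlen]
    simp
  exact h2 h1

end Fin

/-- A decomposition of the identity into idempotents of the algebra `B` which are primitive modulo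
the radical of the trace form. -/
structure Wed (B : Subalgebra K (End K V)) where
  /-- the index set of the idempotents -/
  I : Type
  /-- the set of the isomorphism classes -/
  C : Type
  fI : Fintype I
  dI : DecidableEq I
  fC : Fintype C
  dC : DecidableEq C
  /-- the isomorphism class -/
  κ : I → C
  /-- representatives -/
  rep : C → I
  κ_rep : ∀ c, κ (rep c) = c
  /-- the idempotents -/
  e : I → End K V
  e_mem : ∀ i, e i ∈ B
  e_mul : ∀ i j, e i * e j = if i = j then e i else 0
  e_sum : ∑ i, e i = 1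
  e_ne : ∀ i, e i ≠ 0
  off : ∀ i j, κ i ≠ κ j → ∀ x ∈ B, e i * x * e j ∈ rad B
  diag : ∀ i, ∀ x ∈ B, ∃ a : K, e i * x * e i - a • e i ∈ rad B
  conn : ∀ i j, κ i = κ j → ∃ u ∈ B, ∃ v ∈ B, e i * u = u ∧ u * e j = u ∧ e j * v = v ∧
    v * e i = v ∧ u * v - e i ∈ rad B ∧ v * u - e j ∈ rad B

attribute [instance] Wed.fI Wed.dI Wed.fC Wed.dC

theorem exists_wed [IsAlgClosed K] [CharZero K] [Module.Finite K V]
    (B : Subalgebra K (End K V)) : Nonempty (Wed B) := by
  have hfin : Module.Finite K B := inferInstance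
  have hart : IsArtinianRing B := IsArtinianRing.of_finite K B
  have hsp : IsSemiprimaryRing B := inferInstance
  have hq : Module.Finite K (B ⧸ Ring.jacobson B) := inferInstance
  obtain ⟨n, d, hd, ⟨φ⟩⟩ :=
    IsSemisimpleRing.exists_algEquiv_pi_matrix_of_isAlgClosed K (B ⧸ Ring.jacobson B)
  set f : B →+* (Π i : Fin n, Matrix (Fin (d i)) (Fin (d i)) K) :=
    (φ : (B ⧸ Ring.jacobson B) →+* _).comp (Ideal.Quotient.mk (Ring.jacobson B)) with hf
  have hfs : Function.Surjective f := by
    intro y
    obtain ⟨q, hq⟩ := φ.surjective y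
    obtain ⟨b, hb⟩ := Ideal.Quotient.mk_surjective q
    exact ⟨b, by rw [hf, RingHom.comp_apply, hb]; exact hq⟩
  have hfk : ∀ x : B, f x = 0 ↔ (x : End K V) ∈ rad B := by
    intro x
    rw [mem_rad_iff, hf, RingHom.comp_apply]
    constructor
    · intro h
      have h1 : Ideal.Quotient.mk (Ring.jacobson B) x = 0 := by
        apply φ.injective
        rw [map_zero]
        exact h
      exact Ideal.Quotient.eq_zero_iff_mem.1 h1
    · intro h
      have h1 : Ideal.Quotient.mk (Ring.jacobson B) x = 0 := Ideal.Quotient.eq_zero_iff_mem.2 h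
      rw [h1, map_zero]
  have hfa : ∀ (c : K) (x : B), f (c • x) = c • f x := by
    intro c x
    have h1 : Ideal.Quotient.mk (Ring.jacobson B) (c • x) =
        c • Ideal.Quotient.mk (Ring.jacobson B) x := rfl
    rw [hf, RingHom.comp_apply, h1]
    exact map_smul φ c _
  classical
  -- the matrix units
  let E : ∀ c : Fin n, Fin (d c) → Fin (d c) → (Π i : Fin n, Matrix (Fin (d i)) (Fin (d i)) K) :=
    fun c a b => Pi.single c (Matrix.single a b 1)
  have hE1 : ∀ c a b b' a', E c a b * E c b' a' = if b = b' then E c a a' else 0 := by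
    intro c a b b' a'
    simp only [E]
    rw [← Pi.single_mul]
    split_ifs with h
    · subst h
      rw [Matrix.single_mul_single_same, one_mul]
    · rw [Matrix.single_mul_single_of_ne _ _ _ _ h, Pi.single_zero]
  have hE2 : ∀ c c' a b a' b', c ≠ c' → E c a b * E c' a' b' = 0 := by
    intro c c' a b a' b' h
    simp only [E]
    funext x
    rw [Pi.mul_apply, Pi.zero_apply]
    by_cases hx : x = c
    · subst hx
      rw [Pi.single_eq_of_ne h, mul_zero]
    · rw [Pi.single_eq_of_ne hx, zero_mul]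
  have hE3 : ∀ c c' a b a' b' (M : Π i : Fin n, Matrix (Fin (d i)) (Fin (d i)) K), c ≠ c' →
      E c a b * M * E c' a' b' = 0 := by
    intro c c' a b a' b' M h
    simp only [E]
    funext x
    rw [Pi.mul_apply, Pi.mul_apply, Pi.zero_apply]
    by_cases hx : x = c
    · subst hx
      rw [Pi.single_eq_of_ne h, mul_zero]
    · rw [Pi.single_eq_of_ne hx, zero_mul, zero_mul]
  have hE4 : ∀ c a (M : Π i : Fin n, Matrix (Fin (d i)) (Fin (d i)) K),
      E c a a * M * E c a a = M c a a • E c a a := by
    intro c a M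
    simp only [E]
    funext x
    rw [Pi.mul_apply, Pi.mul_apply, Pi.smul_apply]
    by_cases hx : x = c
    · subst hx
      rw [Pi.single_eq_same, Matrix.single_mul_mul_single, one_mul, mul_one, Matrix.smul_single,
        smul_eq_mul, mul_one]
    · rw [Pi.single_eq_of_ne hx, zero_mul, zero_mul, smul_zero]
  let I := Σ c : Fin n, Fin (d c)
  have hsum : ∑ i : I, E i.1 i.2 i.2 = 1 := by
    rw [Fintype.sum_sigma]
    simp only [E]
    funext x
    rw [Finset.sum_apply, Finset.sum_eq_single x]
    · rw [Finset.sum_apply]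
      simp only [Pi.single_eq_same, Pi.one_apply]
      exact Matrix.sum_single_one
    · intro b _ hb
      rw [Finset.sum_apply]
      apply Finset.sum_eq_zero
      intro i _
      rw [Pi.single_eq_of_ne (Ne.symm hb)]
    · intro h; exact absurd (Finset.mem_univ _) h
  have hcoi : CompleteOrthogonalIdempotents (fun i : I => E i.1 i.2 i.2) := by
    refine ⟨⟨fun i => ?_, fun i j hij => ?_⟩, hsum⟩
    · change E i.1 i.2 i.2 * E i.1 i.2 i.2 = E i.1 i.2 i.2
      rw [hE1, if_pos rfl]
    · change E i.1 i.2 i.2 * E j.1 j.2 j.2 = 0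
      obtain ⟨c, a⟩ := i
      obtain ⟨c', a'⟩ := j
      by_cases hc : c = c'
      · subst hc
        change E c a a * E c a' a' = 0
        rw [hE1, if_neg]
        rintro rfl
        exact hij rfl
      · exact hE2 _ _ _ _ _ _ hc
  obtain ⟨e', he', hfe'⟩ := CompleteOrthogonalIdempotents.lift_of_isNilpotent_ker f
    (by
      intro x hx
      rw [RingHom.mem_ker, hfk, mem_rad_iff] at hx
      obtain ⟨N, hN⟩ := hsp.isNilpotent
      refine ⟨N, ?_⟩
      have h3 : x ^ N ∈ (Ring.jacobson B) ^ N := Ideal.pow_mem_pow hx N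
      rw [hN] at h3
      exact h3) hcoi (fun i => hfs _)
  have hfe : ∀ i : I, f (e' i) = E i.1 i.2 i.2 := fun i => congrFun hfe' i
  have hd' : ∀ c, 0 < d c := fun c => Nat.pos_of_ne_zero (hd c).out
  refine ⟨{
    I := I
    C := Fin n
    fI := inferInstance
    dI := inferInstance
    fC := inferInstance
    dC := inferInstance
    κ := Sigma.fst
    rep := fun c => ⟨c, ⟨0, hd' c⟩⟩
    κ_rep := fun c => rfl
    e := fun i => (e' i : End K V)
    e_mem := fun i => (e' i).2
    e_mul := fun i j => by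
      have h1 := he'.toOrthogonalIdempotents.mul_eq i j
      have h2 := congrArg (Subtype.val) h1
      rw [MulMemClass.coe_mul] at h2
      rw [h2]
      split_ifs <;> rfl
    e_sum := by
      have h2 := congrArg (Subtype.val) he'.complete
      rw [AddSubmonoidClass.coe_finset_sum] at h2
      exact h2
    e_ne := fun i h0 => by
      have h1 : e' i = 0 := Subtype.ext h0
      have h2 := hfe i
      rw [h1, map_zero] at h2
      have h3 := congrFun (congrFun (congrFun h2 i.1) i.2) i.2
      simp only [E] at h3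
      rw [Pi.single_eq_same, Matrix.single_apply_same] at h3
      exact one_ne_zero h3.symm
    off := fun i j hij x hx => by
      have h1 := (hfk (e' i * ⟨x, hx⟩ * e' j)).1 (by
        rw [map_mul, map_mul, hfe, hfe]
        exact hE3 _ _ _ _ _ _ _ hij)
      exact h1
    diag := fun i x hx => by
      refine ⟨f ⟨x, hx⟩ i.1 i.2 i.2, ?_⟩
      have h1 := (hfk (e' i * ⟨x, hx⟩ * e' i - (f ⟨x, hx⟩ i.1 i.2 i.2) • e' i)).1 (by
        rw [map_sub, map_mul, map_mul, hfa, hfe, hE4, sub_self])
      exact h1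
    conn := fun i j hij => by
      obtain ⟨c, a⟩ := i
      obtain ⟨c', b⟩ := j
      obtain rfl : c = c' := hij
      obtain ⟨u, hu⟩ := hfs (E c a b)
      obtain ⟨v, hv⟩ := hfs (E c b a)
      have hi := he'.toOrthogonalIdempotents.idem
      have hia : e' ⟨c, a⟩ * e' ⟨c, a⟩ = e' ⟨c, a⟩ := hi _
      have hib : e' ⟨c, b⟩ * e' ⟨c, b⟩ = e' ⟨c, b⟩ := hi _
      refine ⟨(e' ⟨c, a⟩ * u * e' ⟨c, b⟩ : B), Subtype.mem _, (e' ⟨c, b⟩ * v * e' ⟨c, a⟩ : B),
        Subtype.mem _, ?_, ?_, ?_, ?_, ?_, ?_⟩
      · rw [← MulMemClass.coe_mul, ← mul_assoc, ← mul_assoc, hia]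
      · rw [← MulMemClass.coe_mul, mul_assoc, hib]
      · rw [← MulMemClass.coe_mul, ← mul_assoc, ← mul_assoc, hib]
      · rw [← MulMemClass.coe_mul, mul_assoc, hia]
      · have h1 := (hfk ((e' ⟨c, a⟩ * u * e' ⟨c, b⟩) * (e' ⟨c, b⟩ * v * e' ⟨c, a⟩) -
          e' ⟨c, a⟩)).1 (by
          rw [map_sub, map_mul, map_mul, map_mul, map_mul, map_mul, hfe, hfe, hu, hv, hE1,
            if_pos rfl, hE1, if_pos rfl, hE1, if_pos rfl, hE1, if_pos rfl, hE1, if_pos rfl,
            sub_self])
        exact h1
      · have h1 := (hfk ((e' ⟨c, b⟩ * v * e' ⟨c, a⟩) * (e' ⟨c, a⟩ * u * e' ⟨c, b⟩) -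
          e' ⟨c, b⟩)).1 (by
          rw [map_sub, map_mul, map_mul, map_mul, map_mul, map_mul, hfe, hfe, hu, hv, hE1,
            if_pos rfl, hE1, if_pos rfl, hE1, if_pos rfl, hE1, if_pos rfl, hE1, if_pos rfl,
            sub_self])
        exact h1 }⟩

end Pool.Agent.Y163
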